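import Mathlib
import Pool.Agent.H410R2.Iface2
import Pool.Agent.Helper112.Bilinear
import Pool.Agent.Erdos456.Mertens

open Finset

namespace Pool.Agent.H732R2

open Pool.Agent.H410R2

namespace B2

lemma tot_mul_le (a b : ℕ) (hb : 1 ≤ b) (ha : 1 ≤ a) :
    Nat.totient (a * b) ≤ a * Nat.totient b := by
  have h1 := Nat.totient_eq_mul_prod_factors (a * b)
  have h2 := Nat.totient_eq_mul_prod_factors b
  have h3 : ((Nat.totient (a * b) : ℕ) : ℚ) ≤ ((a * Nat.totient b : ℕ) : ℚ) := by
    rw [h1]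
    push_cast
    rw [h2, mul_assoc]
    apply mul_le_mul_of_nonneg_left _ (by positivity)
    apply mul_le_mul_of_nonneg_left _ (by positivity)
    have hsub : b.primeFactors ⊆ (a * b).primeFactors := by
      rw [Nat.primeFactors_mul (by omega) (by omega)]
      exact subset_union_right
    rw [← prod_sdiff hsub]
    have h4 : ∀ p ∈ (a * b).primeFactors, 0 ≤ (1 - (p : ℚ)⁻¹) ∧ (1 - (p : ℚ)⁻¹) ≤ 1 := by
      intro p hp
      have h5 := (Nat.prime_of_mem_primeFactors hp).one_lt.le
      have h6 : (1 : ℚ) ≤ p := by exact_mod_cast h5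
      have h7 : (p : ℚ)⁻¹ ≤ 1 := inv_le_one_of_one_le₀ h6
      have h8 : 0 ≤ (p : ℚ)⁻¹ := by positivity
      constructor <;> linarith
    have h5 : ∏ p ∈ (a * b).primeFactors \ b.primeFactors, (1 - (p : ℚ)⁻¹) ≤ 1 := by
      apply prod_le_one
      · intro p hp; exact (h4 p (mem_sdiff.1 hp).1).1
      · intro p hp; exact (h4 p (mem_sdiff.1 hp).1).2
    have h6 : 0 ≤ ∏ p ∈ b.primeFactors, (1 - (p : ℚ)⁻¹) :=
      prod_nonneg fun p hp => (h4 p (hsub hp)).1
    calc _ ≤ 1 * ∏ p ∈ b.primeFactors, (1 - (p : ℚ)⁻¹) := by gcongr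
      _ = _ := one_mul _
  exact_mod_cast h3

/-- sum of `Λ` over multiples of `p` -/
lemma vm_sum_le (N p : ℕ) (hp : p.Prime) :
    ∑ n ∈ (Icc 1 N).filter (fun n => p ∣ n), ArithmeticFunction.vonMangoldt n ≤ Real.log N := by
  rcases Nat.eq_zero_or_pos N with hN | hN
  · subst hN; simp
  have h1 : ∑ n ∈ (Icc 1 N).filter (fun n => p ∣ n), ArithmeticFunction.vonMangoldt n ≤
      ∑ k ∈ Icc 1 (Nat.log p N), Real.log p := by
    have h2 : ∑ k ∈ Icc 1 (Nat.log p N), Real.log p =
        ∑ n ∈ (Icc 1 (Nat.log p N)).image (fun k => p ^ k), Real.log p := by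
      rw [sum_image]
      intro a _ b _ h
      exact Nat.pow_right_injective hp.two_le h
    rw [h2]
    have h3 : ∑ n ∈ (Icc 1 N).filter (fun n => p ∣ n), ArithmeticFunction.vonMangoldt n =
        ∑ n ∈ ((Icc 1 N).filter (fun n => p ∣ n)).filter
          (fun n => ArithmeticFunction.vonMangoldt n ≠ 0), ArithmeticFunction.vonMangoldt n := by
      rw [sum_filter_ne_zero]
    rw [h3]
    have hlp : 0 ≤ Real.log (p : ℝ) := Real.log_natCast_nonneg p
    have key : ∀ n ∈ ((Icc 1 N).filter (fun n => p ∣ n)).filter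
          (fun n => ArithmeticFunction.vonMangoldt n ≠ 0),
        n ∈ (Icc 1 (Nat.log p N)).image (fun k => p ^ k) ∧
          ArithmeticFunction.vonMangoldt n = Real.log p := by
      intro n hn
      rw [mem_filter, mem_filter, mem_Icc] at hn
      obtain ⟨⟨⟨h4, h5⟩, h6⟩, h7⟩ := hn
      have h8 := ArithmeticFunction.vonMangoldt_ne_zero_iff.1 h7
      rw [isPrimePow_nat_iff] at h8
      obtain ⟨r, k, hr, hk, hrk⟩ := h8
      have hpr : p = r := by
        rw [← hrk] at h6
        exact (Nat.prime_dvd_prime_iff_eq hp hr).1 (hp.dvd_of_dvd_pow h6)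
      subst hpr
      refine ⟨?_, ?_⟩
      · rw [mem_image]
        refine ⟨k, ?_, hrk⟩
        rw [mem_Icc]
        refine ⟨hk, Nat.le_log_of_pow_le hp.one_lt ?_⟩
        rw [hrk]; exact h5
      · rw [← hrk, ArithmeticFunction.vonMangoldt_apply_pow (by omega),
          ArithmeticFunction.vonMangoldt_apply_prime hp]
    calc _ = ∑ n ∈ ((Icc 1 N).filter (fun n => p ∣ n)).filter
          (fun n => ArithmeticFunction.vonMangoldt n ≠ 0), Real.log p :=
          sum_congr rfl fun n hn => (key n hn).2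
      _ ≤ _ := sum_le_sum_of_subset_of_nonneg (fun n hn => (key n hn).1) fun _ _ _ => hlp
  refine h1.trans ?_
  rw [sum_const, Nat.card_Icc, nsmul_eq_mul, Nat.add_sub_cancel, ← Real.log_pow]
  apply Real.log_le_log
  · have := hp.pos; positivity
  · exact_mod_cast Nat.pow_log_le_self p (by omega)

/-- the error from non-coprime terms -/
lemma err_bound (X : ℝ) (hX : 1 ≤ X) (M : ℕ) (hM : 1 ≤ M) :
    ∑ n ∈ (Icc 1 ⌊X⌋₊).filter (fun n => ¬ n.Coprime M),
      ArithmeticFunction.vonMangoldt n * Real.log (X / n) ≤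
      M.primeFactors.card * Real.log X ^ 2 := by
  have hlX : 0 ≤ Real.log X := Real.log_nonneg hX
  have hfl : Real.log (⌊X⌋₊ : ℝ) ≤ Real.log X := by
    apply Real.log_le_log
    · exact_mod_cast Nat.floor_pos.2 hX
    · exact Nat.floor_le (by linarith)
  have h0 : ∀ n ∈ Icc 1 ⌊X⌋₊, 0 ≤ ArithmeticFunction.vonMangoldt n * Real.log (X / n) ∧
      ArithmeticFunction.vonMangoldt n * Real.log (X / n) ≤
        ArithmeticFunction.vonMangoldt n * Real.log X := by
    intro n hn
    rw [mem_Icc] at hn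
    have hn1 : (1 : ℝ) ≤ n := by exact_mod_cast hn.1
    have hnX : (n : ℝ) ≤ X := (Nat.cast_le.2 hn.2).trans (Nat.floor_le (by linarith))
    constructor
    · apply mul_nonneg ArithmeticFunction.vonMangoldt_nonneg
      apply Real.log_nonneg
      rw [le_div_iff₀ (by linarith)]; linarith
    · apply mul_le_mul_of_nonneg_left _ ArithmeticFunction.vonMangoldt_nonneg
      apply Real.log_le_log (by positivity)
      exact div_le_self (by linarith) hn1
  calc _ ≤ ∑ n ∈ (Icc 1 ⌊X⌋₊).filter (fun n => ¬ n.Coprime M),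
        ArithmeticFunction.vonMangoldt n * Real.log X :=
        sum_le_sum fun n hn => (h0 n (mem_filter.1 hn).1).2
    _ ≤ ∑ n ∈ Icc 1 ⌊X⌋₊, ∑ p ∈ M.primeFactors,
        (if p ∣ n then ArithmeticFunction.vonMangoldt n * Real.log X else 0) := by
        rw [sum_filter]
        apply sum_le_sum
        intro n _
        have h2 : 0 ≤ ArithmeticFunction.vonMangoldt n * Real.log X :=
          mul_nonneg ArithmeticFunction.vonMangoldt_nonneg hlX
        by_cases h : n.Coprime M
        · rw [if_neg (by simpa using h)]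
          apply sum_nonneg
          intro p _
          split_ifs
          · exact h2
          · exact le_rfl
        · rw [if_pos h]
          obtain ⟨p, hp, hpn, hpM⟩ := Nat.Prime.not_coprime_iff_dvd.1 h
          have h3 : p ∈ M.primeFactors := Nat.mem_primeFactors.2 ⟨hp, hpM, by omega⟩
          calc _ = if p ∣ n then ArithmeticFunction.vonMangoldt n * Real.log X else 0 := by
                rw [if_pos hpn]
            _ ≤ _ := single_le_sum (f := fun p => if p ∣ n then
              ArithmeticFunction.vonMangoldt n * Real.log X else 0)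
              (fun p _ => by split_ifs; exact h2; exact le_rfl) h3
    _ = ∑ p ∈ M.primeFactors, (∑ n ∈ (Icc 1 ⌊X⌋₊).filter (fun n => p ∣ n),
          ArithmeticFunction.vonMangoldt n) * Real.log X := by
        rw [sum_comm]
        apply sum_congr rfl
        intro p _
        rw [sum_mul, sum_filter]
    _ ≤ ∑ p ∈ M.primeFactors, Real.log X * Real.log X := by
        apply sum_le_sum
        intro p hp
        exact mul_le_mul_of_nonneg_right
          ((vm_sum_le _ p (Nat.prime_of_mem_primeFactors hp)).trans hfl) hlX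
    _ = _ := by
        rw [sum_const, nsmul_eq_mul]; ring

open Classical in
/-- the sum over primitive characters -/
noncomputable def VV (X : ℝ) (f : ℕ) : ℝ :=
  ∑ ψ ∈ (univ : Finset (DirichletCharacter ℂ f)).filter (fun ψ => ψ.IsPrimitive), ‖psiLog X f ψ‖

lemma VV_nonneg (X : ℝ) (f : ℕ) : 0 ≤ VV X f := sum_nonneg fun _ _ => norm_nonneg _

/-- bound for the noncoprime error -/
noncomputable def er (X : ℝ) (M : ℕ) : ℝ := M.primeFactors.card * Real.log X ^ 2

lemma psiLog_changeLevel (X : ℝ) (hX : 1 ≤ X) (M : ℕ) (hM : 1 ≤ M) (f : ℕ) (h : f ∣ M)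
    (ψ : DirichletCharacter ℂ f) :
    ‖psiLog X M (DirichletCharacter.changeLevel h ψ)‖ ≤ ‖psiLog X f ψ‖ + er X M := by
  have e1 : psiLog X M (DirichletCharacter.changeLevel h ψ) = psiLog X f ψ -
      ∑ n ∈ (Icc 1 ⌊X⌋₊).filter (fun n => ¬ n.Coprime M),
        ((ArithmeticFunction.vonMangoldt n : ℝ) : ℂ) * ψ (n : ZMod f) *
          ((Real.log (X / n) : ℝ) : ℂ) := by
    unfold psiLog
    rw [sum_filter, ← sum_sub_distrib]
    apply sum_congr rfl
    intro n _
    by_cases hn : n.Coprime M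
    · rw [if_neg (by simpa using hn), sub_zero]
      have h1 := DirichletCharacter.changeLevel_eq_cast_of_dvd' ψ h (a := (n : ℤ))
        (by exact_mod_cast Nat.isCoprime_iff_coprime.mpr hn)
      push_cast at h1
      rw [h1]
    · rw [if_pos hn, MulChar.map_nonunit _ (fun hu => hn ((ZMod.isUnit_iff_coprime n _).mp hu))]
      ring
  rw [e1]
  refine (norm_sub_le _ _).trans (add_le_add le_rfl ?_)
  refine (norm_sum_le _ _).trans ((sum_le_sum fun n hn => ?_).trans (err_bound X hX M hM))
  rw [mem_filter, mem_Icc] at hn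
  have hn1 : (1 : ℝ) ≤ n := by exact_mod_cast hn.1.1
  have hnX : (n : ℝ) ≤ X := (Nat.cast_le.2 hn.1.2).trans (Nat.floor_le (by linarith))
  have hl : 0 ≤ Real.log (X / n) := Real.log_nonneg (by
    rw [le_div_iff₀ (by linarith)]; linarith)
  rw [norm_mul, norm_mul, Complex.norm_real, Complex.norm_real, Real.norm_of_nonneg
    ArithmeticFunction.vonMangoldt_nonneg, Real.norm_of_nonneg hl]
  apply mul_le_mul_of_nonneg_right _ hl
  exact mul_le_of_le_one_right ArithmeticFunction.vonMangoldt_nonneg (ψ.norm_le_one _)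

open Classical in
lemma card_prim (f : ℕ) (hf : 1 ≤ f) :
    (((univ : Finset (DirichletCharacter ℂ f)).filter (fun ψ => ψ.IsPrimitive)).card : ℝ) ≤
      Nat.totient f := by
  have : NeZero f := ⟨by omega⟩
  have h1 := DirichletCharacter.card_eq_totient_of_hasEnoughRootsOfUnity ℂ f
  rw [Nat.card_eq_fintype_card, ← card_univ] at h1
  exact_mod_cast (card_filter_le _ _).trans h1.le

open Classical in
lemma AP_bound (X : ℝ) (hX : 1 ≤ X) (M : ℕ) (hM : 1 ≤ M) (a : ℕ) (ha : a.Coprime M) :
    |psiLogAP X M a - psiLog1 X / (Nat.totient M : ℝ)| ≤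
      (1 / (Nat.totient M : ℝ)) * ∑ f ∈ M.divisors.filter (fun f => f ≠ 1), VV X f +
        2 * M * er X M := by
  have : NeZero M := ⟨by omega⟩
  have hφ : (1 : ℝ) ≤ Nat.totient M := by exact_mod_cast Nat.totient_pos.2 hM
  have her : 0 ≤ er X M := by unfold er; positivity
  set g : ℕ → ℝ := fun n => ArithmeticFunction.vonMangoldt n * Real.log (X / n) with hg
  set S1 : ℝ := ∑ n ∈ (Icc 1 ⌊X⌋₊).filter (fun n => n.Coprime M), g n with hS1
  -- bracket
  have e1 : (((psiLogAP X M a - S1 / (Nat.totient M : ℝ) : ℝ)) : ℂ) =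
      (1 / (Nat.totient M : ℂ)) *
        ∑ χ ∈ (univ : Finset (DirichletCharacter ℂ M)).filter (fun χ => χ ≠ 1),
          χ ((a : ZMod M)⁻¹) * psiLog X M χ := by
    have e2 : psiLogAP X M a - S1 / (Nat.totient M : ℝ) = ∑ n ∈ Icc 1 ⌊X⌋₊, g n *
        ((if n ≡ a [MOD M] then (1 : ℝ) else 0) -
        (if n.Coprime M then (1 : ℝ) / (Nat.totient M : ℝ) else 0)) := by
      unfold psiLogAP
      rw [hS1, sum_filter, sum_filter, sum_div, ← sum_sub_distrib]
      apply sum_congr rfl
      intro n _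
      split_ifs <;> simp [hg] <;> ring
    rw [e2]
    push_cast 
    have e3 : ∀ n : ℕ, ((if n ≡ a [MOD M] then (1 : ℂ) else 0) -
        (if n.Coprime M then (1 : ℂ) / (Nat.totient M : ℂ) else 0)) =
        (1 / (Nat.totient M : ℂ)) *
      ∑ χ ∈ (univ : Finset (DirichletCharacter ℂ M)).filter (fun χ => χ ≠ 1),
        χ ((a : ZMod M)⁻¹) * χ (n : ZMod M) := by
      intro n
      rw [← Pool.Agent.Helper112.BLB.bracket M a ha n]
      push_cast
      congr 1 <;> split_ifs <;> simp
    calc _ = ∑ n ∈ Icc 1 ⌊X⌋₊, ((g n : ℝ) : ℂ) * ((1 / (Nat.totient M : ℂ)) *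
      ∑ χ ∈ (univ : Finset (DirichletCharacter ℂ M)).filter (fun χ => χ ≠ 1),
        χ ((a : ZMod M)⁻¹) * χ (n : ZMod M)) := by
          apply sum_congr rfl
          intro n _
          rw [← e3 n]
          congr 2 <;> split_ifs <;> simp
      _ = _ := by
          simp_rw [mul_sum]
          rw [sum_comm]
          apply sum_congr rfl
          intro χ _
          unfold psiLog
          rw [mul_sum, mul_sum]
          apply sum_congr rfl
          intro n _
          simp only [hg]
          push_cast 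
          ring
  have e4 : |psiLogAP X M a - S1 / (Nat.totient M : ℝ)| ≤ (1 / (Nat.totient M : ℝ)) *
      ∑ f ∈ M.divisors.filter (fun f => f ≠ 1), (VV X f + Nat.totient f * er X M) := by
    rw [← Real.norm_eq_abs, ← Complex.norm_real, e1, norm_mul]
    have n1 : ‖(1 / (Nat.totient M : ℂ))‖ = 1 / (Nat.totient M : ℝ) := by
      rw [norm_div, norm_one, Complex.norm_natCast]
    rw [n1]
    apply mul_le_mul_of_nonneg_left _ (by positivity)
    refine (norm_sum_le _ _).trans ?_
    have s2 := Pool.Agent.Helper112.BLB.step2 M (fun χ => ‖psiLog X M χ‖) (fun χ => norm_nonneg _)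
      (fun f ψ => ‖psiLog X f ψ‖ + er X M) (fun f h ψ => psiLog_changeLevel X hX M hM f h ψ)
    refine (le_trans ?_ s2).trans ?_
    · apply sum_le_sum
      intro χ _
      rw [norm_mul]
      exact mul_le_of_le_one_left (norm_nonneg _) (χ.norm_le_one _)
    · apply sum_le_sum
      intro f hf
      rw [sum_add_distrib, sum_const, nsmul_eq_mul]
      apply add_le_add le_rfl
      apply mul_le_mul_of_nonneg_right _ her
      apply card_prim
      rw [mem_filter, Nat.mem_divisors] at hf
      exact Nat.pos_of_dvd_of_pos hf.1.1 hM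
  have e5 : |S1 / (Nat.totient M : ℝ) - psiLog1 X / (Nat.totient M : ℝ)| ≤ er X M := by
    have e6 : psiLog1 X = S1 + ∑ n ∈ (Icc 1 ⌊X⌋₊).filter (fun n => ¬ n.Coprime M), g n := by
      rw [hS1, sum_filter_add_sum_filter_not]
      rfl
    have e7 := err_bound X hX M hM
    have e8 : 0 ≤ ∑ n ∈ (Icc 1 ⌊X⌋₊).filter (fun n => ¬ n.Coprime M), g n := by
      apply sum_nonneg
      intro n hn
      rw [mem_filter, mem_Icc] at hn
      have hn1 : (1 : ℝ) ≤ n := by exact_mod_cast hn.1.1
      have hnX : (n : ℝ) ≤ X := (Nat.cast_le.2 hn.1.2).trans (Nat.floor_le (by linarith))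
      exact mul_nonneg ArithmeticFunction.vonMangoldt_nonneg (Real.log_nonneg (by
        rw [le_div_iff₀ (by linarith)]; linarith))
    rw [e6, ← sub_div, sub_add_cancel_left, abs_div, abs_neg, abs_of_nonneg e8, Nat.abs_cast]
    exact (div_le_self e8 hφ).trans e7
  have e9 : ∑ f ∈ M.divisors.filter (fun f => f ≠ 1), (Nat.totient f : ℝ) * er X M ≤
      M * er X M := by
    rw [← sum_mul]
    apply mul_le_mul_of_nonneg_right _ her
    calc ∑ f ∈ M.divisors.filter (fun f => f ≠ 1), (Nat.totient f : ℝ) ≤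
        ∑ f ∈ M.divisors, (Nat.totient f : ℝ) :=
          sum_le_sum_of_subset_of_nonneg (filter_subset _ _) fun _ _ _ => by positivity
      _ = M := by exact_mod_cast Nat.sum_totient M
  have hM1 : (1 : ℝ) ≤ M := by exact_mod_cast hM
  calc _ ≤ |psiLogAP X M a - S1 / (Nat.totient M : ℝ)| +
        |S1 / (Nat.totient M : ℝ) - psiLog1 X / (Nat.totient M : ℝ)| := abs_sub_le _ _ _
    _ ≤ (1 / (Nat.totient M : ℝ)) *
      ∑ f ∈ M.divisors.filter (fun f => f ≠ 1), (VV X f + Nat.totient f * er X M) + er X M :=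
        add_le_add e4 e5
    _ ≤ (1 / (Nat.totient M : ℝ)) * ∑ f ∈ M.divisors.filter (fun f => f ≠ 1), VV X f +
        1 * (M * er X M) + M * er X M := by
        rw [sum_add_distrib, mul_add]
        apply add_le_add (add_le_add le_rfl _)
        · calc er X M = 1 * er X M := (one_mul _).symm
            _ ≤ _ := by gcongr
        · have : (1 / (Nat.totient M : ℝ)) ≤ 1 := by
            rw [div_le_one (by linarith)]; exact hφ
          apply mul_le_mul this e9 _ zero_le_one
          exact sum_nonneg fun f _ => by positivity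
    _ = _ := by ring


/-- the squarefree sum -/
noncomputable def Sc (c : ℝ) (Q : ℕ) : ℝ :=
  ∑ q ∈ (Icc 1 Q).filter Squarefree, c ^ q.primeFactors.card / (Nat.totient q : ℝ)

lemma Sc_le_prod (c : ℝ) (hc : 0 ≤ c) (Q : ℕ) :
    Sc c Q ≤ ∏ p ∈ (Icc 1 Q).filter Nat.Prime, (1 + c / ((p : ℝ) - 1)) := by
  rw [prod_one_add]
  unfold Sc
  have h1 : ∀ q ∈ (Icc 1 Q).filter Squarefree, c ^ q.primeFactors.card / (Nat.totient q : ℝ) =
      ∏ p ∈ q.primeFactors, (c / ((p : ℝ) - 1)) := by
    intro q hq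
    rw [mem_filter, mem_Icc] at hq
    have h2 : (Nat.totient q : ℝ) = ∏ p ∈ q.primeFactors, ((p : ℝ) - 1) := by
      have h3 := Nat.totient_eq_div_primeFactors_mul q
      rw [Nat.prod_primeFactors_of_squarefree hq.2, Nat.div_self (by omega), one_mul] at h3
      rw [h3]
      push_cast
      apply prod_congr rfl
      intro p hp
      rw [Nat.cast_sub (Nat.prime_of_mem_primeFactors hp).one_lt.le]
      simp
    rw [h2, prod_div_distrib, prod_const]
  rw [sum_congr rfl h1]
  rw [← sum_image (f := fun S : Finset ℕ => ∏ p ∈ S, (c / ((p : ℝ) - 1))) (g := Nat.primeFactors)]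
  · apply sum_le_sum_of_subset_of_nonneg
    · intro S hS
      rw [mem_image] at hS
      obtain ⟨q, hq, rfl⟩ := hS
      rw [mem_filter, mem_Icc] at hq
      rw [mem_powerset]
      intro p hp
      rw [mem_filter, mem_Icc]
      have hpp := Nat.prime_of_mem_primeFactors hp
      exact ⟨⟨hpp.one_lt.le, (Nat.le_of_dvd (by omega) (Nat.dvd_of_mem_primeFactors hp)).trans hq.1.2⟩, hpp⟩
    · intro S hS _
      apply prod_nonneg
      intro p hp
      rw [mem_powerset] at hS
      have := (mem_filter.1 (hS hp)).2.one_lt.le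
      have h4 : (1 : ℝ) ≤ p := by exact_mod_cast this
      apply div_nonneg hc
      linarith
  · intro q hq q' hq' h
    rw [mem_coe, mem_filter] at hq hq'
    rw [← Nat.prod_primeFactors_of_squarefree hq.2, ← Nat.prod_primeFactors_of_squarefree hq'.2, h]

lemma Sc_bound (c : ℝ) (hc : 0 ≤ c) : ∃ C : ℝ, 0 < C ∧ ∀ Q : ℕ, 3 ≤ Q →
    Sc c Q ≤ C * Real.log Q ^ (2 * c) := by
  obtain ⟨C, hC⟩ := Pool.Agent.Erdos456.Mert.mertens_inv
  refine ⟨Real.exp (2 * c * C), Real.exp_pos _, fun Q hQ => ?_⟩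
  have h1 := hC Q hQ
  have hQ3 : (3 : ℝ) ≤ Q := by exact_mod_cast hQ
  have hlQ : 0 < Real.log Q := Real.log_pos (by linarith)
  calc Sc c Q ≤ ∏ p ∈ (Icc 1 Q).filter Nat.Prime, (1 + c / ((p : ℝ) - 1)) := Sc_le_prod c hc Q
    _ ≤ ∏ p ∈ (Icc 1 Q).filter Nat.Prime, Real.exp (2 * c * (1 / p)) := by
        apply prod_le_prod
        · intro p hp
          have h4 : (2 : ℝ) ≤ p := by exact_mod_cast (mem_filter.1 hp).2.two_le
          have : 0 ≤ c / ((p : ℝ) - 1) := div_nonneg hc (by linarith)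
          linarith
        · intro p hp
          have h4 : (2 : ℝ) ≤ p := by exact_mod_cast (mem_filter.1 hp).2.two_le
          have h5 : c / ((p : ℝ) - 1) ≤ 2 * c * (1 / p) := by
            rw [div_le_iff₀ (by linarith)]
            have : 2 * c * (1 / (p : ℝ)) * ((p : ℝ) - 1) = c * (2 * ((p : ℝ) - 1) / p) := by
              field_simp
            rw [this]
            have h6 : 1 ≤ 2 * ((p : ℝ) - 1) / p := by
              rw [le_div_iff₀ (by linarith)]; linarith
            nlinarith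
          have h7 := Real.add_one_le_exp (2 * c * (1 / (p : ℝ)))
          linarith
    _ = Real.exp (2 * c * ∑ p ∈ (Icc 1 Q).filter Nat.Prime, (1 : ℝ) / p) := by
        rw [← Real.exp_sum, mul_sum]
    _ ≤ Real.exp (2 * c * (Real.log (Real.log Q) + C)) := by
        apply Real.exp_le_exp.2
        apply mul_le_mul_of_nonneg_left _ (by linarith)
        have := (abs_le.1 h1).2
        linarith
    _ = _ := by
        rw [mul_add, Real.exp_add, mul_comm, Real.rpow_def_of_pos hlQ]
        congr 2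
        ring

lemma omega_le {a b : ℕ} (h : a ∣ b) (hb : b ≠ 0) : a.primeFactors.card ≤ b.primeFactors.card :=
  card_le_card (Nat.primeFactors_mono h hb)

lemma inner_bound (c : ℝ) (hc : 1 ≤ c) (m₀ : ℕ) (hm₀ : 1 ≤ m₀) (Q f : ℕ) (hf : 1 ≤ f) :
    ∑ q ∈ ((Icc 1 Q).filter Squarefree).filter (fun q => f ∣ m₀ * q),
      c ^ q.primeFactors.card / (Nat.totient (m₀ * q) : ℝ) ≤
      m₀ * (c ^ f.primeFactors.card / (Nat.totient f : ℝ)) * Sc c Q := by
  set d := Nat.gcd f m₀ with hd
  have hd0 : 0 < d := Nat.gcd_pos_of_pos_left _ hf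
  obtain ⟨g, hg⟩ : d ∣ f := Nat.gcd_dvd_left _ _
  have hg0 : 0 < g := by
    rcases Nat.eq_zero_or_pos g with h | h
    · subst h; omega
    · exact h
  have hc0 : 0 ≤ c := by linarith
  have hgq : ∀ q, f ∣ m₀ * q → g ∣ q := by
    intro q hq
    obtain ⟨e, he⟩ : d ∣ m₀ := Nat.gcd_dvd_right _ _
    have h1 : g.Coprime e := by
      have := Nat.coprime_div_gcd_div_gcd (m := f) (n := m₀) hd0
      rw [← hd] at this
      rwa [hg, he, Nat.mul_div_cancel_left _ hd0, Nat.mul_div_cancel_left _ hd0] at this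
    have h2 : d * g ∣ d * (e * q) := by
      rw [← hg, ← mul_assoc, ← he]; exact hq
    exact h1.dvd_of_dvd_mul_left (Nat.dvd_of_mul_dvd_mul_left hd0 h2)
  have hφg : (0 : ℝ) < Nat.totient g := by exact_mod_cast Nat.totient_pos.2 hg0
  have hφf : (0 : ℝ) < Nat.totient f := by exact_mod_cast Nat.totient_pos.2 hf
  -- termwise
  have h1 : ∀ q ∈ ((Icc 1 Q).filter Squarefree).filter (fun q => f ∣ m₀ * q),
      c ^ q.primeFactors.card / (Nat.totient (m₀ * q) : ℝ) ≤
        (c ^ g.primeFactors.card / (Nat.totient g : ℝ)) *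
          (c ^ (q / g).primeFactors.card / (Nat.totient (q / g) : ℝ)) := by
    intro q hq
    rw [mem_filter, mem_filter, mem_Icc] at hq
    obtain ⟨⟨⟨h2, h3⟩, h4⟩, h5⟩ := hq
    obtain ⟨q', hq'⟩ := hgq q h5
    subst hq'
    rw [Nat.mul_div_cancel_left _ hg0]
    have hq0 : 0 < q' := by
      rcases Nat.eq_zero_or_pos q' with h | h
      · subst h; omega
      · exact h
    have hcop : g.Coprime q' := Nat.coprime_of_squarefree_mul h4
    have h6 : (g * q').primeFactors.card = g.primeFactors.card + q'.primeFactors.card := by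
      rw [hcop.primeFactors_mul, card_union_of_disjoint hcop.disjoint_primeFactors]
    have h7 : (Nat.totient g : ℝ) * Nat.totient q' ≤ Nat.totient (m₀ * (g * q')) := by
      rw [← Nat.cast_mul, ← Nat.totient_mul hcop]
      exact_mod_cast Nat.le_of_dvd (Nat.totient_pos.2 (by positivity))
        (Nat.totient_dvd_of_dvd (Dvd.intro_left m₀ rfl))
    have hφq : (0 : ℝ) < Nat.totient q' := by exact_mod_cast Nat.totient_pos.2 hq0
    rw [h6, pow_add, div_mul_div_comm]
    gcongr
  have h2 : ∑ q ∈ ((Icc 1 Q).filter Squarefree).filter (fun q => f ∣ m₀ * q),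
      (c ^ (q / g).primeFactors.card / (Nat.totient (q / g) : ℝ)) ≤ Sc c Q := by
    unfold Sc
    rw [← sum_image (f := fun q => c ^ q.primeFactors.card / (Nat.totient q : ℝ))
      (g := fun q => q / g)]
    · apply sum_le_sum_of_subset_of_nonneg
      · intro q' hq'
        rw [mem_image] at hq'
        obtain ⟨q, hq, rfl⟩ := hq'
        rw [mem_filter, mem_filter, mem_Icc] at hq
        obtain ⟨⟨⟨h2, h3⟩, h4⟩, h5⟩ := hq
        obtain ⟨q', hq'⟩ := hgq q h5
        subst hq'
        rw [Nat.mul_div_cancel_left _ hg0, mem_filter, mem_Icc]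
        refine ⟨⟨?_, ?_⟩, h4.of_mul_right⟩
        · rcases Nat.eq_zero_or_pos q' with h | h
          · subst h; omega
          · exact h
        · exact (Nat.le_mul_of_pos_left q' hg0).trans h3
      · intro q _ _
        positivity
    · intro q hq q' hq' h
      rw [mem_coe, mem_filter] at hq hq'
      have e1 := hgq q hq.2
      have e2 := hgq q' hq'.2
      simp only at h
      rw [← Nat.div_mul_cancel e1, ← Nat.div_mul_cancel e2, h]
  have hSc : 0 ≤ Sc c Q := by unfold Sc; positivity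
  calc _ ≤ ∑ q ∈ ((Icc 1 Q).filter Squarefree).filter (fun q => f ∣ m₀ * q),
        (c ^ g.primeFactors.card / (Nat.totient g : ℝ)) *
          (c ^ (q / g).primeFactors.card / (Nat.totient (q / g) : ℝ)) := sum_le_sum h1
    _ = (c ^ g.primeFactors.card / (Nat.totient g : ℝ)) *
        ∑ q ∈ ((Icc 1 Q).filter Squarefree).filter (fun q => f ∣ m₀ * q),
          (c ^ (q / g).primeFactors.card / (Nat.totient (q / g) : ℝ)) := by rw [mul_sum]
    _ ≤ (c ^ g.primeFactors.card / (Nat.totient g : ℝ)) * Sc c Q := by gcongr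
    _ ≤ (m₀ * (c ^ f.primeFactors.card / (Nat.totient f : ℝ))) * Sc c Q := by
        apply mul_le_mul_of_nonneg_right _ hSc
        have h3 : c ^ g.primeFactors.card ≤ c ^ f.primeFactors.card := by
          apply pow_le_pow_right₀ hc
          exact omega_le ⟨d, by rw [hg, mul_comm]⟩ (by omega)
        have h4 : (Nat.totient f : ℝ) ≤ m₀ * Nat.totient g := by
          have h5 : Nat.totient f ≤ d * Nat.totient g := by
            rw [hg]
            exact tot_mul_le d g hg0 hd0
          have h6 : d ≤ m₀ := Nat.gcd_le_right _ hm₀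
          have h7 : Nat.totient f ≤ m₀ * Nat.totient g := h5.trans (Nat.mul_le_mul_right _ h6)
          exact_mod_cast h7
        rw [div_le_iff₀ hφg]
        calc c ^ g.primeFactors.card ≤ c ^ f.primeFactors.card := h3
          _ = c ^ f.primeFactors.card / (Nat.totient f : ℝ) * Nat.totient f := by field_simp
          _ ≤ c ^ f.primeFactors.card / (Nat.totient f : ℝ) * (m₀ * Nat.totient g) := by gcongr
          _ = _ := by ring
    _ = _ := by ring


lemma omega_log (n : ℕ) (hn : n ≠ 0) : (n.primeFactors.card : ℝ) ≤ 2 * Real.log n := by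
  have h1 : 2 ^ n.primeFactors.card ≤ n := by
    calc 2 ^ n.primeFactors.card = ∏ _p ∈ n.primeFactors, 2 := by rw [prod_const]
      _ ≤ ∏ p ∈ n.primeFactors, p :=
        prod_le_prod' (fun p hp => (Nat.prime_of_mem_primeFactors hp).two_le)
      _ ≤ n := Nat.le_of_dvd (Nat.pos_of_ne_zero hn) (Nat.prod_primeFactors_dvd n)
  have h2 : (2 : ℝ) ^ n.primeFactors.card ≤ n := by exact_mod_cast h1
  have h3 := Real.log_le_log (by positivity) h2
  rw [Real.log_pow] at h3
  have h4 := Real.log_two_gt_d9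
  have h5 : (0 : ℝ) ≤ n.primeFactors.card := by positivity
  nlinarith

lemma Sc_mono (c : ℝ) (hc : 0 ≤ c) {Q Q' : ℕ} (h : Q ≤ Q') : Sc c Q ≤ Sc c Q' := by
  unfold Sc
  apply sum_le_sum_of_subset_of_nonneg
  · exact filter_subset_filter _ (Icc_subset_Icc_right h)
  · intro q _ _
    positivity

end B2

open B2 in
open Classical in
theorem bvAP (h : BVTotal) : BVAP := by
  intro m₀ hm₀ c hc δ hδ A
  have hc0 : 0 ≤ c := by linarith
  obtain ⟨C, hC, hSc⟩ := Sc_bound c hc0
  set A' : ℕ := A + ⌈2 * c⌉₊ + 1 with hA'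
  obtain ⟨X1, h1⟩ := h c hc (δ / 2) (by positivity) A'
  have hm₀' : (1 : ℝ) ≤ m₀ := by exact_mod_cast hm₀
  have ev1 : ∀ᶠ X : ℝ in Filter.atTop,
      8 * m₀ * C * Real.log X ^ (3 + 2 * c + A) ≤ X ^ (2 * δ) := by
    have h2 := (isLittleO_log_rpow_rpow_atTop (3 + 2 * c + A) (show 0 < 2 * δ by positivity)).bound
      (show 0 < 1 / (8 * m₀ * C) by positivity)
    filter_upwards [h2, Filter.eventually_ge_atTop 1] with X hX hX1
    rw [Real.norm_of_nonneg (Real.rpow_nonneg (Real.log_nonneg hX1) _),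
      Real.norm_of_nonneg (Real.rpow_nonneg (by linarith) _)] at hX
    calc 8 * m₀ * C * Real.log X ^ (3 + 2 * c + A) ≤
        8 * m₀ * C * (1 / (8 * m₀ * C) * X ^ (2 * δ)) := by gcongr
      _ = X ^ (2 * δ) := by field_simp
  have ev2 : ∀ᶠ X : ℝ in Filter.atTop, (m₀ : ℝ) ≤ X ^ (δ / 2) :=
    (tendsto_rpow_atTop (show 0 < δ / 2 by positivity)).eventually_ge_atTop _
  have ev3 : ∀ᶠ X : ℝ in Filter.atTop, 2 * m₀ * C ≤ Real.log X :=
    Real.tendsto_log_atTop.eventually_ge_atTop _
  obtain ⟨X₀, hX₀⟩ := Filter.eventually_atTop.1 (ev1.and (ev2.and (ev3.and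
    ((Filter.eventually_ge_atTop X1).and (Filter.eventually_ge_atTop 3)))))
  refine ⟨X₀, fun X hX r => ?_⟩
  obtain ⟨h3, h4, h5, h6, h7⟩ := hX₀ X hX
  have hX1 : 1 ≤ X := by linarith
  have hX0 : 0 < X := by linarith
  have hlX : 1 ≤ Real.log X := by
    rw [Real.le_log_iff_exp_le hX0]
    exact (Real.exp_one_lt_d9.le.trans (by norm_num)).trans h7
  have hlX0 : 0 < Real.log X := by linarith
  set Q := ⌊X ^ (1 / 2 - δ)⌋₊ with hQ
  have hQX : (Q : ℝ) ≤ X ^ (1 / 2 - δ) := Nat.floor_le (by positivity)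
  have hSQ : Sc c Q ≤ C * Real.log X ^ (2 * c) := by
    have e1 : Sc c Q ≤ Sc c (max Q 3) := Sc_mono c hc0 (le_max_left _ _)
    refine e1.trans ((hSc _ (le_max_right _ _)).trans ?_)
    apply mul_le_mul_of_nonneg_left _ hC.le
    have e2 : (3 : ℝ) ≤ ((max Q 3 : ℕ) : ℝ) := by exact_mod_cast le_max_right Q 3
    apply Real.rpow_le_rpow (Real.log_nonneg (by linarith)) _ (by linarith)
    apply Real.log_le_log (by linarith)
    push_cast
    apply max_le _ h7
    calc (Q : ℝ) ≤ X ^ (1 / 2 - δ) := hQX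
      _ ≤ X ^ (1 : ℝ) := Real.rpow_le_rpow_of_exponent_le hX1 (by linarith)
      _ = X := Real.rpow_one X
  have hSc0 : 0 ≤ Sc c Q := by unfold Sc; positivity
  set QS := (Icc 1 Q).filter Squarefree with hQS
  -- range of moduli
  have hqX : ∀ q ∈ QS, (m₀ : ℝ) * q ≤ X ^ (1 / 2 - δ / 2) := by
    intro q hq
    rw [hQS, mem_filter, mem_Icc] at hq
    have e1 : (q : ℝ) ≤ X ^ (1 / 2 - δ) := (Nat.cast_le.2 hq.1.2).trans hQX
    calc (m₀ : ℝ) * q ≤ X ^ (δ / 2) * X ^ (1 / 2 - δ) := by gcongr
      _ = X ^ (1 / 2 - δ / 2) := by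
        rw [← Real.rpow_add hX0]; congr 1; ring
  -- pointwise
  have p1 : ∑ q ∈ (Icc 1 Q).filter (fun q => Squarefree q ∧ (r q).Coprime (m₀ * q)),
      c ^ q.primeFactors.card *
        |psiLogAP X (m₀ * q) (r q) - psiLog1 X / (Nat.totient (m₀ * q) : ℝ)| ≤
      ∑ q ∈ QS, c ^ q.primeFactors.card * ((1 / (Nat.totient (m₀ * q) : ℝ)) *
        ∑ f ∈ (m₀ * q).divisors.filter (fun f => f ≠ 1), VV X f +
          2 * (m₀ * q : ℕ) * er X (m₀ * q)) := by
    have hsub : (Icc 1 Q).filter (fun q => Squarefree q ∧ (r q).Coprime (m₀ * q)) ⊆ QS := by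
      intro q hq
      rw [mem_filter] at hq
      rw [hQS, mem_filter]
      exact ⟨hq.1, hq.2.1⟩
    refine le_trans (sum_le_sum fun q hq => ?_) (sum_le_sum_of_subset_of_nonneg hsub ?_)
    · rw [mem_filter, mem_Icc] at hq
      apply mul_le_mul_of_nonneg_left _ (by positivity)
      exact AP_bound X hX1 (m₀ * q) (Nat.mul_pos hm₀ hq.1.1) (r q) hq.2.2
    · intro q _ _
      have : 0 ≤ ∑ f ∈ (m₀ * q).divisors.filter (fun f => f ≠ 1), VV X f :=
        sum_nonneg fun f _ => VV_nonneg X f
      have : 0 ≤ er X (m₀ * q) := by unfold er; positivity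
      positivity
  refine p1.trans ?_
  simp_rw [mul_add]
  rw [sum_add_distrib]
  -- first part
  have q1 : ∑ q ∈ QS, c ^ q.primeFactors.card * ((1 / (Nat.totient (m₀ * q) : ℝ)) *
        ∑ f ∈ (m₀ * q).divisors.filter (fun f => f ≠ 1), VV X f) ≤
      X / Real.log X ^ A / 2 := by
    set F := ⌊X ^ (1 / 2 - δ / 2)⌋₊ with hF
    have e1 : ∑ q ∈ QS, c ^ q.primeFactors.card * ((1 / (Nat.totient (m₀ * q) : ℝ)) *
        ∑ f ∈ (m₀ * q).divisors.filter (fun f => f ≠ 1), VV X f) ≤
        ∑ q ∈ QS, ∑ f ∈ Icc 2 F, if f ∣ m₀ * q then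
          VV X f * (c ^ q.primeFactors.card / (Nat.totient (m₀ * q) : ℝ)) else 0 := by
      apply sum_le_sum
      intro q hq
      rw [← sum_filter, mul_sum, mul_sum]
      have hq' := hq
      rw [hQS, mem_filter, mem_Icc] at hq'
      have hpos : 0 < m₀ * q := Nat.mul_pos hm₀ hq'.1.1
      calc _ = ∑ f ∈ (m₀ * q).divisors.filter (fun f => f ≠ 1),
          VV X f * (c ^ q.primeFactors.card / (Nat.totient (m₀ * q) : ℝ)) := by
            apply sum_congr rfl
            intro f _
            ring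
        _ ≤ _ := by
            apply sum_le_sum_of_subset_of_nonneg
            · intro f hf
              rw [mem_filter, Nat.mem_divisors] at hf
              rw [mem_filter, mem_Icc]
              have hfpos := Nat.pos_of_dvd_of_pos hf.1.1 hpos
              refine ⟨⟨by omega, ?_⟩, hf.1.1⟩
              apply Nat.le_floor
              refine le_trans ?_ (hqX q hq)
              exact_mod_cast Nat.le_of_dvd hpos hf.1.1
            · intro f _ _
              have := VV_nonneg X f
              positivity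
    have e2 : ∑ q ∈ QS, ∑ f ∈ Icc 2 F, (if f ∣ m₀ * q then
          VV X f * (c ^ q.primeFactors.card / (Nat.totient (m₀ * q) : ℝ)) else 0) ≤
        ∑ f ∈ Icc 2 F, m₀ * Sc c Q * ((c ^ f.primeFactors.card / (Nat.totient f : ℝ)) * VV X f) := by
      rw [sum_comm]
      apply sum_le_sum
      intro f hf
      rw [mem_Icc] at hf
      rw [← sum_filter, ← mul_sum]
      have := inner_bound c hc m₀ hm₀ Q f (by omega)
      calc _ ≤ VV X f * (m₀ * (c ^ f.primeFactors.card / (Nat.totient f : ℝ)) * Sc c Q) :=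
            mul_le_mul_of_nonneg_left this (VV_nonneg X f)
        _ = _ := by ring
    have e3 : ∑ f ∈ Icc 2 F, (c ^ f.primeFactors.card / (Nat.totient f : ℝ)) * VV X f ≤
        X / Real.log X ^ A' := h1 X h6
    refine (e1.trans e2).trans ?_
    rw [← mul_sum]
    have e30 : 0 ≤ ∑ f ∈ Icc 2 F, (c ^ f.primeFactors.card / (Nat.totient f : ℝ)) * VV X f := by
      apply sum_nonneg
      intro f _
      have := VV_nonneg X f
      positivity
    calc _ ≤ m₀ * (C * Real.log X ^ (2 * c)) * (X / Real.log X ^ A') := by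
          gcongr
      _ ≤ X / Real.log X ^ A / 2 := by
          have g1 : Real.log X ^ (2 * c) ≤ Real.log X ^ ⌈2 * c⌉₊ := by
            rw [← Real.rpow_natCast]
            exact Real.rpow_le_rpow_of_exponent_le hlX (Nat.le_ceil _)
          have g2 : Real.log X ^ A' = Real.log X ^ A * Real.log X ^ ⌈2 * c⌉₊ * Real.log X := by
            rw [hA', pow_add, pow_add, pow_one]
          rw [g2, div_div, mul_div_assoc', div_le_div_iff₀ (by positivity) (by positivity)]
          calc m₀ * (C * Real.log X ^ (2 * c)) * X * (Real.log X ^ A * 2) =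
              (2 * m₀ * C) * Real.log X ^ (2 * c) * X * Real.log X ^ A := by ring
            _ ≤ Real.log X * Real.log X ^ ⌈2 * c⌉₊ * X * Real.log X ^ A := by gcongr
            _ = _ := by ring
  -- second part
  have q2 : ∑ q ∈ QS, c ^ q.primeFactors.card * (2 * (m₀ * q : ℕ) * er X (m₀ * q)) ≤
      X / Real.log X ^ A / 2 := by
    have e1 : ∀ q ∈ QS, c ^ q.primeFactors.card * (2 * (m₀ * q : ℕ) * er X (m₀ * q)) ≤
        4 * m₀ * Real.log X ^ 3 * (Q : ℝ) ^ 2 *
          (c ^ q.primeFactors.card / (Nat.totient q : ℝ)) := by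
      intro q hq
      have hqx := hqX q hq
      rw [hQS, mem_filter, mem_Icc] at hq
      have hpos : 0 < m₀ * q := Nat.mul_pos hm₀ hq.1.1
      have hφ : (0 : ℝ) < Nat.totient q := by exact_mod_cast Nat.totient_pos.2 hq.1.1
      have g1 : ((m₀ * q).primeFactors.card : ℝ) ≤ 2 * Real.log X := by
        refine (omega_log _ hpos.ne').trans ?_
        apply mul_le_mul_of_nonneg_left _ (by norm_num)
        apply Real.log_le_log (by exact_mod_cast hpos)
        push_cast
        refine hqx.trans ?_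
        calc X ^ (1 / 2 - δ / 2) ≤ X ^ (1 : ℝ) :=
              Real.rpow_le_rpow_of_exponent_le hX1 (by linarith)
          _ = X := Real.rpow_one X
      have g2 : (q : ℝ) ≤ (Q : ℝ) ^ 2 / Nat.totient q := by
        rw [le_div_iff₀ hφ]
        have : (Nat.totient q : ℝ) ≤ q := by exact_mod_cast Nat.totient_le q
        have h8 : (q : ℝ) ≤ Q := by exact_mod_cast hq.1.2
        calc (q : ℝ) * Nat.totient q ≤ Q * Q :=
              mul_le_mul h8 (this.trans h8) (by positivity) (by positivity)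
          _ = _ := by ring
      unfold er
      push_cast
      calc c ^ q.primeFactors.card * (2 * (m₀ * q) * ((m₀ * q).primeFactors.card * Real.log X ^ 2)) ≤
          c ^ q.primeFactors.card * (2 * (m₀ * ((Q : ℝ) ^ 2 / Nat.totient q)) *
            ((2 * Real.log X) * Real.log X ^ 2)) := by gcongr
        _ = _ := by ring
    refine (sum_le_sum e1).trans ?_
    rw [← mul_sum]
    have e2 : ∑ q ∈ QS, c ^ q.primeFactors.card / (Nat.totient q : ℝ) = Sc c Q := rfl
    rw [e2]
    have e3 : (Q : ℝ) ^ 2 ≤ X ^ (1 - 2 * δ) := by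
      calc (Q : ℝ) ^ 2 ≤ (X ^ (1 / 2 - δ)) ^ 2 := by gcongr
        _ = X ^ (1 - 2 * δ) := by
          rw [← Real.rpow_natCast, ← Real.rpow_mul hX0.le]; congr 1; push_cast; ring
    calc 4 * m₀ * Real.log X ^ 3 * (Q : ℝ) ^ 2 * Sc c Q ≤
        4 * m₀ * Real.log X ^ 3 * X ^ (1 - 2 * δ) * (C * Real.log X ^ (2 * c)) := by gcongr
      _ ≤ X / Real.log X ^ A / 2 := by
        rw [div_div, le_div_iff₀ (by positivity)]
        calc 4 * m₀ * Real.log X ^ 3 * X ^ (1 - 2 * δ) * (C * Real.log X ^ (2 * c)) *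
            (Real.log X ^ A * 2) =
            (8 * m₀ * C * (Real.log X ^ 3 * Real.log X ^ (2 * c) * Real.log X ^ A)) *
              X ^ (1 - 2 * δ) := by ring
          _ = (8 * m₀ * C * Real.log X ^ (3 + 2 * c + A)) * X ^ (1 - 2 * δ) := by
            rw [Real.rpow_add hlX0, Real.rpow_add hlX0, Real.rpow_natCast]
            norm_num
          _ ≤ X ^ (2 * δ) * X ^ (1 - 2 * δ) := by gcongr
          _ = X := by
            rw [← Real.rpow_add hX0]
            have : 2 * δ + (1 - 2 * δ) = 1 := by ring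
            rw [this, Real.rpow_one]
  linarith

end Pool.Agent.H732R2
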