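import Mathlib

/-! Arithmetic identities behind the divisor problem at squares:
`d(k^2) * 1_square = 1*1*1`, `d^2 * 1_square = d * d`. -/

open Finset ArithmeticFunction
open scoped ArithmeticFunction.sigma ArithmeticFunction.zeta

namespace Pool.Agent.H732R2.Dv

/-- indicator of the positive squares -/
def sqI : ArithmeticFunction ℕ := ⟨fun n => if n ≠ 0 ∧ IsSquare n then 1 else 0, by simp⟩

/-- `d(k²)` -/
def dsq : ArithmeticFunction ℕ := ⟨fun k => σ 0 (k ^ 2), by simp⟩

/-- `d(k)²` -/
def dd : ArithmeticFunction ℕ := ⟨fun k => (σ 0 k) ^ 2, by simp⟩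

lemma sqI_apply (n : ℕ) : sqI n = if n ≠ 0 ∧ IsSquare n then 1 else 0 := rfl
lemma dsq_apply (n : ℕ) : dsq n = σ 0 (n ^ 2) := rfl
lemma dd_apply (n : ℕ) : dd n = (σ 0 n) ^ 2 := rfl

lemma isSquare_of_coprime {m n : ℕ} (h : m.Coprime n) (hs : IsSquare (m * n)) : IsSquare m := by
  obtain ⟨c, hc⟩ := hs
  rw [← sq] at hc
  obtain ⟨d, hd⟩ := exists_eq_pow_of_mul_eq_pow (a := m) (b := n) (c := c) (k := 2) (by
    rw [Nat.isUnit_iff]; exact h) hc
  exact ⟨d, by rw [hd, sq]⟩

lemma sqI_mult : sqI.IsMultiplicative := by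
  rw [IsMultiplicative.iff_ne_zero]
  refine ⟨by simp [sqI_apply], ?_⟩
  intro m n hm hn hmn
  rw [sqI_apply, sqI_apply, sqI_apply]
  by_cases h : IsSquare (m * n)
  · have h1 := isSquare_of_coprime hmn h
    have h2 := isSquare_of_coprime hmn.symm (by rwa [mul_comm])
    rw [if_pos ⟨mul_ne_zero hm hn, h⟩, if_pos ⟨hm, h1⟩, if_pos ⟨hn, h2⟩, mul_one]
  · rw [if_neg (fun hc => h hc.2)]
    by_cases h1 : IsSquare m
    · by_cases h2 : IsSquare n
      · exact absurd (h1.mul h2) h
      · rw [if_neg (c := n ≠ 0 ∧ IsSquare n) (fun hc => h2 hc.2), mul_zero]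
    · rw [if_neg (c := m ≠ 0 ∧ IsSquare m) (fun hc => h1 hc.2), zero_mul]

lemma dsq_mult : dsq.IsMultiplicative := by
  rw [IsMultiplicative.iff_ne_zero]
  refine ⟨by simp [dsq_apply], ?_⟩
  intro m n hm hn hmn
  rw [dsq_apply, dsq_apply, dsq_apply, mul_pow]
  exact isMultiplicative_sigma.map_mul_of_coprime (Nat.Coprime.pow 2 2 hmn)

lemma dd_mult : dd.IsMultiplicative := by
  rw [IsMultiplicative.iff_ne_zero]
  refine ⟨by simp [dd_apply], ?_⟩
  intro m n hm hn hmn
  rw [dd_apply, dd_apply, dd_apply, isMultiplicative_sigma.map_mul_of_coprime hmn, mul_pow]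

lemma mul_prime_pow (f g : ArithmeticFunction ℕ) {p a : ℕ} (hp : p.Prime) :
    (f * g) (p ^ a) = ∑ i ∈ range (a + 1), f (p ^ i) * g (p ^ (a - i)) := by
  rw [mul_apply, Nat.sum_divisorsAntidiagonal (f := fun x y => f x * g y),
    Nat.sum_divisors_prime_pow hp]
  apply sum_congr rfl
  intro i hi
  rw [mem_range] at hi
  rw [Nat.pow_div (by omega) hp.pos]

lemma sigma_prime_pow {p a : ℕ} (hp : p.Prime) : σ 0 (p ^ a) = a + 1 := by
  rw [sigma_zero_apply_prime_pow hp]

lemma sqI_prime_pow {p a : ℕ} (hp : p.Prime) : sqI (p ^ a) = if Even a then 1 else 0 := by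
  rw [sqI_apply]
  have h0 : p ^ a ≠ 0 := pow_ne_zero _ hp.ne_zero
  by_cases h : Even a
  · rw [if_pos ⟨h0, h.isSquare_pow p⟩, if_pos h]
  · rw [if_neg h, if_neg]
    rintro ⟨_, c, hc⟩
    apply h
    have h1 : (p ^ a).factorization p = (c * c).factorization p := by rw [hc]
    rw [Nat.factorization_mul (by rintro rfl; simp at hc; exact h0 (by simpa using hc)) (by rintro rfl; simp at hc; exact h0 (by simpa using hc)),
      hp.factorization_pow] at h1
    simp at h1
    exact ⟨_, h1⟩

lemma key_dd (a : ℕ) : ∑ i ∈ range (a + 1), (i + 1) ^ 2 * (if Even (a - i) then 1 else 0) =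
    ∑ i ∈ range (a + 1), (i + 1) * ((a - i) + 1) := by
  have hT : ∀ a : ℕ, 6 * ∑ i ∈ range (a + 1), (i + 1) * ((a - i) + 1) = (a + 1) * (a + 2) * (a + 3) := by
    intro a
    induction a with
    | zero => simp
    | succ a ih =>
      rw [sum_range_succ]
      have e : ∑ i ∈ range (a + 1), (i + 1) * ((a + 1 - i) + 1) =
          ∑ i ∈ range (a + 1), (i + 1) * ((a - i) + 1) + ∑ i ∈ range (a + 1), (i + 1) := by
        rw [← sum_add_distrib]
        apply sum_congr rfl
        intro i hi
        rw [mem_range] at hi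
        rw [show a + 1 - i = (a - i) + 1 by omega]
        ring
      have e2 : (∑ i ∈ range (a + 1), (i + 1)) * 2 = (a + 1) * (a + 2) := by
        have := Finset.sum_range_id_mul_two (a + 2)
        rw [sum_range_succ'] at this
        simp at this
        rw [this]
        ring
      rw [e]
      have : a + 1 - (a + 1) = 0 := by omega
      rw [this]
      nlinarith
  have hL : ∀ a : ℕ, 6 * ∑ i ∈ range (a + 1), (i + 1) ^ 2 * (if Even (a - i) then 1 else 0) =
      (a + 1) * (a + 2) * (a + 3) := by
    intro a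
    induction a using Nat.strong_induction_on with
    | _ a ih =>
      match a, ih with
      | 0, _ => simp
      | 1, _ => simp [sum_range_succ]
      | a + 2, ih =>
        have h1 := ih a (by omega)
        rw [sum_range_succ, sum_range_succ]
        have e : ∑ i ∈ range (a + 1), (i + 1) ^ 2 * (if Even (a + 2 - i) then 1 else 0) =
            ∑ i ∈ range (a + 1), (i + 1) ^ 2 * (if Even (a - i) then 1 else 0) := by
          apply sum_congr rfl
          intro i hi
          rw [mem_range] at hi
          rw [show a + 2 - i = (a - i) + 2 by omega]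
          simp [Nat.even_add]
        rw [e]
        have e1 : a + 2 - (a + 1) = 1 := by omega
        have e2 : a + 2 - (a + 2) = 0 := by omega
        rw [e1, e2, if_neg (by decide : ¬ Even 1), if_pos (by decide : Even 0), mul_zero, mul_one, add_zero,
          mul_add, h1]
        ring
  have := hT a
  have := hL a
  omega

theorem dd_sqI : dd * sqI = σ 0 * σ 0 := by
  rw [(dd_mult.mul sqI_mult).eq_iff_eq_on_prime_powers _ _ (isMultiplicative_sigma.mul isMultiplicative_sigma)]
  intro p a hp
  rw [mul_prime_pow _ _ hp, mul_prime_pow _ _ hp]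
  have h := key_dd a
  calc _ = ∑ i ∈ range (a + 1), (i + 1) ^ 2 * (if Even (a - i) then 1 else 0) := by
        apply sum_congr rfl
        intro i _
        rw [dd_apply, sigma_prime_pow hp, sqI_prime_pow hp]
    _ = _ := h
    _ = _ := by
        apply sum_congr rfl
        intro i _
        rw [sigma_prime_pow hp, sigma_prime_pow hp]

lemma key_dsq (a : ℕ) : ∑ i ∈ range (a + 1), (2 * i + 1) * (if Even (a - i) then 1 else 0) =
    ∑ i ∈ range (a + 1), (i + 1) := by
  have e2 : ∀ a : ℕ, (∑ i ∈ range (a + 1), (i + 1)) * 2 = (a + 1) * (a + 2) := by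
    intro a
    have := Finset.sum_range_id_mul_two (a + 2)
    rw [sum_range_succ'] at this
    simp at this
    rw [this]
    ring
  have hL : ∀ a : ℕ, 2 * ∑ i ∈ range (a + 1), (2 * i + 1) * (if Even (a - i) then 1 else 0) =
      (a + 1) * (a + 2) := by
    intro a
    induction a using Nat.strong_induction_on with
    | _ a ih =>
      match a, ih with
      | 0, _ => simp
      | 1, _ => simp [sum_range_succ]
      | a + 2, ih =>
        have h1 := ih a (by omega)
        rw [sum_range_succ, sum_range_succ]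
        have e : ∑ i ∈ range (a + 1), (2 * i + 1) * (if Even (a + 2 - i) then 1 else 0) =
            ∑ i ∈ range (a + 1), (2 * i + 1) * (if Even (a - i) then 1 else 0) := by
          apply sum_congr rfl
          intro i hi
          rw [mem_range] at hi
          rw [show a + 2 - i = (a - i) + 2 by omega]
          simp [Nat.even_add]
        rw [e]
        have e1 : a + 2 - (a + 1) = 1 := by omega
        have e2 : a + 2 - (a + 2) = 0 := by omega
        rw [e1, e2, if_neg (by decide : ¬ Even 1), if_pos (by decide : Even 0), mul_zero, mul_one, add_zero,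
          mul_add, h1]
        ring
  have := hL a
  have := e2 a
  omega

theorem dsq_sqI : dsq * sqI = σ 0 * (ζ : ArithmeticFunction ℕ) := by
  rw [(dsq_mult.mul sqI_mult).eq_iff_eq_on_prime_powers _ _ (isMultiplicative_sigma.mul isMultiplicative_zeta)]
  intro p a hp
  rw [mul_prime_pow _ _ hp, mul_prime_pow _ _ hp]
  have h := key_dsq a
  calc _ = ∑ i ∈ range (a + 1), (2 * i + 1) * (if Even (a - i) then 1 else 0) := by
        apply sum_congr rfl
        intro i _
        rw [dsq_apply, ← pow_mul, sigma_prime_pow hp, sqI_prime_pow hp]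
        ring
    _ = _ := h
    _ = _ := by
        apply sum_congr rfl
        intro i _
        rw [sigma_prime_pow hp, zeta_apply_ne (pow_ne_zero _ hp.ne_zero), mul_one]

end Pool.Agent.H732R2.Dv
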