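import Mathlib
import Pool.Agent.H732R2.DivNumA

/-! Real Dirichlet series of natural-valued arithmetic functions. -/

open Finset ArithmeticFunction Filter Topology
open scoped ArithmeticFunction.sigma ArithmeticFunction.zeta

namespace Pool.Agent.H732R2.Dv

/-- terms of the real Dirichlet series -/
noncomputable def tm (f : ArithmeticFunction ℕ) (s : ℝ) (n : ℕ) : ℝ := (f n : ℝ) * (n : ℝ) ^ (-s)

lemma tm_nonneg (f : ArithmeticFunction ℕ) (s : ℝ) (n : ℕ) : 0 ≤ tm f s n := by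
  unfold tm; positivity

lemma term_eq (f : ArithmeticFunction ℕ) (s : ℝ) (n : ℕ) :
    LSeries.term (fun n => ((f n : ℕ) : ℂ)) (s : ℂ) n = ((tm f s n : ℝ) : ℂ) := by
  rcases Nat.eq_zero_or_pos n with rfl | hn
  · simp [tm]
  · rw [LSeries.term_of_ne_zero hn.ne']
    unfold tm
    have hn' : (0 : ℝ) < n := by exact_mod_cast hn
    rw [Real.rpow_neg hn'.le, ← div_eq_mul_inv]
    push_cast
    rw [Complex.ofReal_cpow hn'.le]
    push_cast
    rfl

lemma hasSum_tm_iff (f : ArithmeticFunction ℕ) (s a : ℝ) :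
    HasSum (tm f s) a ↔ LSeriesHasSum (fun n => ((f n : ℕ) : ℂ)) (s : ℂ) (a : ℂ) := by
  unfold LSeriesHasSum
  rw [show LSeries.term (fun n => ((f n : ℕ) : ℂ)) (s : ℂ) = fun n => ((tm f s n : ℝ) : ℂ) from
    funext (term_eq f s)]
  exact (Complex.hasSum_ofReal).symm

theorem hasSum_mul {f g : ArithmeticFunction ℕ} {s a b : ℝ} (hf : HasSum (tm f s) a)
    (hg : HasSum (tm g s) b) : HasSum (tm (f * g) s) (a * b) := by
  rw [hasSum_tm_iff] at hf hg ⊢
  have h := hf.convolution hg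
  have e : (fun n => (((f * g) n : ℕ) : ℂ)) =
      LSeries.convolution (fun n => ((f n : ℕ) : ℂ)) (fun n => ((g n : ℕ) : ℂ)) := by
    funext n
    rw [LSeries.convolution_def, mul_apply]
    push_cast
    rfl
  rw [e]
  push_cast
  exact h

/-- the zeta value -/
noncomputable def Z (s : ℝ) : ℝ := ∑' n : ℕ, (n : ℝ) ^ (-s)

lemma Z_hasSum {s : ℝ} (hs : 1 < s) : HasSum (fun n : ℕ => (n : ℝ) ^ (-s)) (Z s) := by
  have : Summable (fun n : ℕ => (n : ℝ) ^ (-s)) := by
    rw [Real.summable_nat_rpow]; linarith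
  exact this.hasSum

lemma zeta_hasSum {s : ℝ} (hs : 1 < s) : HasSum (tm ζ s) (Z s) := by
  have h := Z_hasSum hs
  have e : tm ζ s = fun n : ℕ => (n : ℝ) ^ (-s) := by
    funext n
    rcases Nat.eq_zero_or_pos n with rfl | hn
    · simp only [tm, ArithmeticFunction.map_zero, Nat.cast_zero, zero_mul]
      rw [Real.zero_rpow (by linarith)]
    · rw [tm, zeta_apply_ne hn.ne', Nat.cast_one, one_mul]
  rw [e]; exact h

lemma sqI_hasSum {s : ℝ} (hs : 1 < s) : HasSum (tm sqI s) (Z (2 * s)) := by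
  have hinj : Function.Injective (fun j : ℕ => j ^ 2) := fun a b h =>
    Nat.pow_left_injective (by norm_num) h
  rw [← hinj.hasSum_iff]
  · have h := Z_hasSum (s := 2 * s) (by linarith)
    have e : (tm sqI s ∘ fun j : ℕ => j ^ 2) = fun n : ℕ => (n : ℝ) ^ (-(2 * s)) := by
      funext j
      simp only [Function.comp]
      rcases Nat.eq_zero_or_pos j with rfl | hj
      · simp only [tm, sqI_apply, Nat.cast_zero]
        rw [Real.zero_rpow (by linarith : -(2 * s) ≠ 0)]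
        simp
      · have hj' : (0 : ℝ) < j := by exact_mod_cast hj
        rw [tm, sqI_apply, if_pos ⟨(pow_pos hj 2).ne', ⟨j, sq j⟩⟩, Nat.cast_one, one_mul]
        push_cast
        rw [← Real.rpow_natCast, ← Real.rpow_mul hj'.le]
        congr 1
        push_cast; ring
    rw [e]; exact h
  · intro n hn
    rw [tm, sqI_apply, if_neg, Nat.cast_zero, zero_mul]
    rintro ⟨_, c, hc⟩
    exact hn ⟨c, by simp only [hc, sq]⟩

lemma sigma_hasSum {s : ℝ} (hs : 1 < s) : HasSum (tm (σ 0) s) (Z s * Z s) := by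
  have h := hasSum_mul (zeta_hasSum hs) (zeta_hasSum hs)
  have e : (ζ : ArithmeticFunction ℕ) * ζ = σ 0 := by
    have := @zeta_mul_pow_eq_sigma 0
    rwa [pow_zero_eq_zeta] at this
  rwa [e] at h

lemma le_mul_sqI (f : ArithmeticFunction ℕ) (n : ℕ) : f n ≤ (f * sqI) n := by
  rcases Nat.eq_zero_or_pos n with rfl | hn
  · simp
  · rw [mul_apply]
    have h1 : (n, 1) ∈ n.divisorsAntidiagonal := by
      rw [Nat.mem_divisorsAntidiagonal]; exact ⟨mul_one n, hn.ne'⟩
    calc f n = f (n, 1).1 * sqI (n, 1).2 := by simp [sqI_apply]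
      _ ≤ _ := Finset.single_le_sum (f := fun x : ℕ × ℕ => f x.1 * sqI x.2) (fun _ _ => Nat.zero_le _) h1

lemma summable_of_mul {f : ArithmeticFunction ℕ} {s : ℝ} (h : Summable (tm (f * sqI) s)) :
    Summable (tm f s) := by
  apply Summable.of_nonneg_of_le (tm_nonneg f s) _ h
  intro n
  unfold tm
  have : (f n : ℝ) ≤ ((f * sqI) n : ℝ) := by exact_mod_cast le_mul_sqI f n
  gcongr

/-- `∑ d(k²) k^(-s) = ζ(s)³/ζ(2s)` -/
theorem dsq_hasSum {s : ℝ} (hs : 1 < s) :
    ∃ S, HasSum (tm dsq s) S ∧ S * Z (2 * s) = Z s ^ 3 := by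
  have h1 : HasSum (tm (dsq * sqI) s) (Z s * Z s * Z s) := by
    rw [dsq_sqI]; exact hasSum_mul (sigma_hasSum hs) (zeta_hasSum hs)
  have h2 := (summable_of_mul h1.summable).hasSum
  refine ⟨_, h2, ?_⟩
  have h3 := hasSum_mul h2 (sqI_hasSum hs)
  rw [h3.unique h1]; ring

/-- `∑ d(m)² m^(-s) = ζ(s)⁴/ζ(2s)` -/
theorem dd_hasSum {s : ℝ} (hs : 1 < s) :
    ∃ T, HasSum (tm dd s) T ∧ T * Z (2 * s) = Z s ^ 4 := by
  have h1 : HasSum (tm (dd * sqI) s) (Z s * Z s * (Z s * Z s)) := by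
    rw [dd_sqI]; exact hasSum_mul (sigma_hasSum hs) (sigma_hasSum hs)
  have h2 := (summable_of_mul h1.summable).hasSum
  refine ⟨_, h2, ?_⟩
  have h3 := hasSum_mul h2 (sqI_hasSum hs)
  rw [h3.unique h1]; ring

end Pool.Agent.H732R2.Dv
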