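import Mathlib
import Pool.Agent.H732R2.DivNumB

/-! Numerical bounds for `ζ(3/2)` and `ζ(3)`. -/

open Finset Filter Topology

namespace Pool.Agent.H732R2.Dv

lemma tsum_le_tele {f g : ℕ → ℝ} {N : ℕ} (hf : ∀ n, 0 ≤ f n) (h : ∀ n, N ≤ n → f n ≤ g n - g (n + 1))
    (hg : ∀ n, N ≤ n → 0 ≤ g n) : ∑' n, f n ≤ ∑ n ∈ range N, f n + g N := by
  have key : ∀ M, ∑ n ∈ range (N + M), f n ≤ ∑ n ∈ range N, f n + g N - g (N + M) := by
    intro M
    induction M with
    | zero => simp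
    | succ M ih =>
      rw [← add_assoc, sum_range_succ]
      have := h (N + M) (by omega)
      linarith
  apply Real.tsum_le_of_sum_range_le hf
  intro M
  have h1 : ∑ n ∈ range M, f n ≤ ∑ n ∈ range (N + M), f n :=
    sum_le_sum_of_subset_of_nonneg (by intro i; simp; omega) (fun i _ _ => hf i)
  have h2 := key M
  have h3 := hg (N + M) (by omega)
  linarith

lemma le_tsum_tele {f g : ℕ → ℝ} {N : ℕ} (hs : Summable f) (h : ∀ n, N ≤ n → g n - g (n + 1) ≤ f n)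
    (hg : Tendsto g atTop (𝓝 0)) : ∑ n ∈ range N, f n + g N ≤ ∑' n, f n := by
  have key : ∀ M, ∑ n ∈ range N, f n + g N - g (N + M) ≤ ∑ n ∈ range (N + M), f n := by
    intro M
    induction M with
    | zero => simp
    | succ M ih =>
      rw [← add_assoc, sum_range_succ]
      have := h (N + M) (by omega)
      linarith
  have hadd : Tendsto (fun M : ℕ => N + M) atTop atTop :=
    tendsto_atTop_mono (fun M => Nat.le_add_left M N) tendsto_id
  have h1 : Tendsto (fun M => ∑ n ∈ range N, f n + g N - g (N + M)) atTop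
      (𝓝 (∑ n ∈ range N, f n + g N - 0)) :=
    tendsto_const_nhds.sub (hg.comp hadd)
  have h2 : Tendsto (fun M => ∑ n ∈ range (N + M), f n) atTop (𝓝 (∑' n, f n)) :=
    hs.hasSum.tendsto_sum_nat.comp hadd
  have := le_of_tendsto_of_tendsto' h1 h2 key
  simpa using this

/-- table of `⌊10^7 n^(-3/2)⌋` -/
def tb : List ℕ := [0, 10000000, 3535533, 1924500, 1250000, 894427, 680413, 539949, 441941, 370370, 316227, 274101, 240562, 213346, 190900, 172132, 156250, 142668, 130945, 120745, 111803, 103913, 96909, 90658, 85051, 80000, 75429, 71277, 67493, 64032, 60858, 57937, 55242, 52750, 50440, 48294, 46296, 44432, 42689, 41058, 39528, 38091, 36738, 35464, 34262, 33126, 32052, 31035, 30070, 29154, 28284, 27456, 26668, 25917, 25200, 24516, 23862, 23237, 22639, 22065, 21516, 20989, 20483, 19998, 19531, 19082, 18650, 18234, 17833, 17447, 17074, 16715, 16368, 16033, 15709, 15396, 15093, 14800, 14516, 14241, 13975, 13717, 13467,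 13224, 12989, 12760, 12538, 12323, 12113, 11910, 11712, 11519, 11332, 11150, 10972, 10799, 10631, 10467, 10307, 10151, 10000]

lemma tb_check : ∀ n ∈ Icc 1 100, (tb.getD n 0) ^ 2 * n ^ 3 ≤ 10 ^ 14 ∧
    10 ^ 14 ≤ (tb.getD n 0 + 1) ^ 2 * n ^ 3 := by decide +kernel

lemma tb_sum : ∑ n ∈ Icc 1 100, tb.getD n 0 = 24128698 := by decide +kernel

lemma y_sq {n : ℕ} (hn : 1 ≤ n) : ((n : ℝ) ^ (-(3 / 2 : ℝ))) ^ 2 * (n : ℝ) ^ 3 = 1 := by
  have h : (0 : ℝ) < n := by exact_mod_cast hn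
  rw [← Real.rpow_natCast, ← Real.rpow_mul h.le, ← Real.rpow_natCast, ← Real.rpow_add h]
  norm_num

lemma y_bounds {n : ℕ} (hn : n ∈ Icc 1 100) :
    ((tb.getD n 0 : ℕ) : ℝ) / 10 ^ 7 ≤ (n : ℝ) ^ (-(3 / 2 : ℝ)) ∧
    (n : ℝ) ^ (-(3 / 2 : ℝ)) ≤ ((tb.getD n 0 : ℕ) : ℝ) / 10 ^ 7 + 1 / 10 ^ 7 := by
  have h1 := tb_check n hn
  rw [mem_Icc] at hn
  have hy := y_sq hn.1
  have h0 : (0 : ℝ) < n := by exact_mod_cast hn.1
  have hy0 : 0 < (n : ℝ) ^ (-(3 / 2 : ℝ)) := by positivity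
  set y := (n : ℝ) ^ (-(3 / 2 : ℝ)) with hydef
  obtain ⟨h2, h3⟩ := h1
  have h2' : ((tb.getD n 0 : ℕ) : ℝ) ^ 2 * (n : ℝ) ^ 3 ≤ 10 ^ 14 := by exact_mod_cast h2
  have h3' : (10 : ℝ) ^ 14 ≤ (((tb.getD n 0 : ℕ) : ℝ) + 1) ^ 2 * (n : ℝ) ^ 3 := by exact_mod_cast h3
  have hn3 : (0 : ℝ) < (n : ℝ) ^ 3 := by positivity
  have ht0 : (0 : ℝ) ≤ ((tb.getD n 0 : ℕ) : ℝ) := Nat.cast_nonneg _
  constructor
  · apply le_of_sq_le_sq _ hy0.le
    have : (((tb.getD n 0 : ℕ) : ℝ) / 10 ^ 7) ^ 2 * (n : ℝ) ^ 3 ≤ y ^ 2 * (n : ℝ) ^ 3 := by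
      rw [hy, div_pow]
      rw [div_mul_eq_mul_div, div_le_one (by positivity)]
      calc _ ≤ _ := h2'
        _ = _ := by norm_num
    exact le_of_mul_le_mul_right this hn3
  · apply le_of_sq_le_sq _ (by positivity)
    have : y ^ 2 * (n : ℝ) ^ 3 ≤ (((tb.getD n 0 : ℕ) : ℝ) / 10 ^ 7 + 1 / 10 ^ 7) ^ 2 * (n : ℝ) ^ 3 := by
      rw [hy, ← add_div, div_pow, div_mul_eq_mul_div, one_le_div (by positivity)]
      calc _ = (10 : ℝ) ^ 14 := by norm_num
        _ ≤ _ := h3'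
    exact le_of_mul_le_mul_right this hn3

lemma part_bounds : (24128698 : ℝ) / 10 ^ 7 ≤ ∑ n ∈ range 101, (n : ℝ) ^ (-(3 / 2 : ℝ)) ∧
    ∑ n ∈ range 101, (n : ℝ) ^ (-(3 / 2 : ℝ)) ≤ (24128698 : ℝ) / 10 ^ 7 + 100 / 10 ^ 7 := by
  have e : ∑ n ∈ range 101, (n : ℝ) ^ (-(3 / 2 : ℝ)) = ∑ n ∈ Icc (1 : ℕ) 100, (n : ℝ) ^ (-(3 / 2 : ℝ)) := by
    have : range 101 = insert 0 (Icc 1 100) := by decide +kernel
    rw [this, sum_insert (by simp), Nat.cast_zero, Real.zero_rpow (by norm_num), zero_add]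
  have hS : (∑ n ∈ Icc 1 100, ((tb.getD n 0 : ℕ) : ℝ)) = 24128698 := by
    exact_mod_cast tb_sum
  rw [e]
  constructor
  · rw [← hS, sum_div]
    exact sum_le_sum fun n hn => (y_bounds hn).1
  · rw [← hS, sum_div]
    have h : (100 : ℝ) / 10 ^ 7 = ∑ n ∈ Icc 1 100, (1 : ℝ) / 10 ^ 7 := by
      rw [sum_const, Nat.card_Icc]; norm_num
    rw [h, ← sum_add_distrib]
    exact sum_le_sum fun n hn => (y_bounds hn).2

lemma y_eq {n : ℕ} (hn : 1 ≤ n) : (n : ℝ) ^ (-(3 / 2 : ℝ)) = 1 / (n * √(n : ℝ)) := by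
  have h0 : (0 : ℝ) < n := by exact_mod_cast hn
  rw [Real.rpow_neg h0.le, show (3 / 2 : ℝ) = 1 + 1 / 2 by norm_num, Real.rpow_add h0, Real.rpow_one,
    ← Real.sqrt_eq_rpow, one_div]

theorem Z32_upper : Z (3 / 2) ≤ 2.6124 := by
  unfold Z
  have h := tsum_le_tele (f := fun n : ℕ => (n : ℝ) ^ (-(3 / 2 : ℝ)))
    (g := fun n : ℕ => 2 / √((n : ℝ) - 1 / 2)) (N := 101) (fun n => by positivity) (by
      intro n hn
      have hn' : (101 : ℝ) ≤ n := by exact_mod_cast hn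
      rw [y_eq (by omega)]
      set a := √((n : ℝ) - 1 / 2) with ha
      have e : ((n + 1 : ℕ) : ℝ) - 1 / 2 = (n : ℝ) + 1 / 2 := by push_cast; ring
      rw [e]
      set b := √((n : ℝ) + 1 / 2) with hb
      set c := √(n : ℝ) with hc
      have ha2 : a ^ 2 = (n : ℝ) - 1 / 2 := Real.sq_sqrt (by linarith)
      have hb2 : b ^ 2 = (n : ℝ) + 1 / 2 := Real.sq_sqrt (by linarith)
      have hc2 : c ^ 2 = (n : ℝ) := Real.sq_sqrt (by linarith)
      have ha0 : 0 < a := Real.sqrt_pos.2 (by linarith)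
      have hb0 : 0 < b := Real.sqrt_pos.2 (by linarith)
      have hc0 : 0 < c := Real.sqrt_pos.2 (by linarith)
      have hab : a * b ≤ n := by nlinarith [sq_nonneg (a - b)]
      have hab2 : a + b ≤ 2 * c := by
        apply le_of_sq_le_sq _ (by positivity)
        nlinarith [sq_nonneg (a - b)]
      rw [div_sub_div _ _ ha0.ne' hb0.ne', div_le_div_iff₀ (by positivity) (by positivity)]
      have h1 : (b - a) * (a + b) = 1 := by nlinarith
      have h2 : 0 < b - a := by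
        by_contra hcon
        push Not at hcon
        nlinarith [mul_nonneg (sub_nonneg.2 (sub_nonpos.1 hcon)) (by positivity : 0 ≤ a + b)]
      calc 1 * (a * b) = (b - a) * (a + b) * (a * b) := by rw [h1]
        _ ≤ (b - a) * (2 * c) * (n : ℝ) := by gcongr
        _ = _ := by ring) (fun n _ => by positivity)
  refine h.trans ?_
  have h1 := part_bounds.2
  have h2 : 2 / √(((101 : ℕ) : ℝ) - 1 / 2) ≤ 0.199504 := by
    have h3 : (10.0249 : ℝ) ≤ √(((101 : ℕ) : ℝ) - 1 / 2) := by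
      apply Real.le_sqrt_of_sq_le
      norm_num
    rw [div_le_iff₀ (by linarith)]
    nlinarith
  calc _ ≤ ((24128698 : ℝ) / 10 ^ 7 + 100 / 10 ^ 7) + 0.199504 := add_le_add h1 h2
    _ ≤ _ := by norm_num

theorem Z32_lower : 2.6118 ≤ Z (3 / 2) := by
  unfold Z
  have h := le_tsum_tele (f := fun n : ℕ => (n : ℝ) ^ (-(3 / 2 : ℝ)))
    (g := fun n : ℕ => 2 / √(n : ℝ)) (N := 101) (Z_hasSum (by norm_num)).summable (by
      intro n hn
      have hn' : (101 : ℝ) ≤ n := by exact_mod_cast hn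
      rw [y_eq (by omega)]
      push_cast
      set a := √(n : ℝ) with ha
      set b := √((n : ℝ) + 1) with hb
      have ha2 : a ^ 2 = (n : ℝ) := Real.sq_sqrt (by linarith)
      have hb2 : b ^ 2 = (n : ℝ) + 1 := Real.sq_sqrt (by linarith)
      have ha0 : 0 < a := Real.sqrt_pos.2 (by linarith)
      have hb0 : 0 < b := Real.sqrt_pos.2 (by linarith)
      have hab : a ≤ b := Real.sqrt_le_sqrt (by linarith)
      have h1 : (b - a) * (a + b) = 1 := by nlinarith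
      rw [div_sub_div _ _ ha0.ne' hb0.ne', div_le_div_iff₀ (by positivity) (by positivity)]
      calc (2 * b - a * 2) * (n * a) = (b - a) * (2 * a) * (a * a) := by rw [← ha2]; ring
        _ ≤ (b - a) * (a + b) * (a * b) := by
            have : 0 ≤ b - a := by linarith
            gcongr
            linarith
        _ = 1 * (a * b) := by rw [h1]) (by
      have h1 : Tendsto (fun n : ℕ => √(n : ℝ)) atTop atTop :=
        Real.tendsto_sqrt_atTop.comp tendsto_natCast_atTop_atTop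
      exact h1.const_div_atTop 2)
  refine le_trans ?_ h
  have h1 := part_bounds.1
  have h2 : (0.199 : ℝ) ≤ 2 / √((101 : ℕ) : ℝ) := by
    have h3 : √((101 : ℕ) : ℝ) ≤ 10.05 := by
      apply Real.sqrt_le_iff.2
      norm_num
    rw [le_div_iff₀ (by positivity)]
    nlinarith
  calc _ ≤ (24128698 : ℝ) / 10 ^ 7 + 0.199 := by norm_num
    _ ≤ _ := add_le_add h1 h2

lemma y3_eq (n : ℕ) : (n : ℝ) ^ (-(3 : ℝ)) = 1 / (n : ℝ) ^ 3 := by
  rw [Real.rpow_neg (Nat.cast_nonneg n), show (3 : ℝ) = ((3 : ℕ) : ℝ) by norm_num, Real.rpow_natCast, one_div]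

theorem Z3_upper : Z 3 ≤ 1.2021 := by
  unfold Z
  have h := tsum_le_tele (f := fun n : ℕ => (n : ℝ) ^ (-(3 : ℝ)))
    (g := fun n : ℕ => 1 / (2 * ((n : ℝ) - 1 / 2) ^ 2)) (N := 31) (fun n => by positivity) (by
      intro n hn
      have hn' : (31 : ℝ) ≤ n := by exact_mod_cast hn
      rw [y3_eq]
      push_cast
      have e1 : (0 : ℝ) < (n : ℝ) - 1 / 2 := by linarith
      have e2 : (0 : ℝ) < (n : ℝ) + 1 - 1 / 2 := by linarith
      rw [div_sub_div _ _ (by positivity) (by positivity), div_le_div_iff₀ (by positivity) (by positivity)]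
      nlinarith [sq_nonneg (n : ℝ), mul_pos e1 e2]) (fun n _ => by positivity)
  refine h.trans ?_
  simp only [y3_eq, sum_range_succ, range_zero, sum_empty]
  norm_num

theorem Z3_lower : 1.2020 ≤ Z 3 := by
  unfold Z
  have h := le_tsum_tele (f := fun n : ℕ => (n : ℝ) ^ (-(3 : ℝ)))
    (g := fun n : ℕ => 1 / (2 * (n : ℝ) ^ 2)) (N := 31) (Z_hasSum (by norm_num)).summable (by
      intro n hn
      have hn' : (31 : ℝ) ≤ n := by exact_mod_cast hn
      rw [y3_eq]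
      push_cast
      rw [div_sub_div _ _ (by positivity) (by positivity), div_le_div_iff₀ (by positivity) (by positivity)]
      have h0 : (0 : ℝ) < n := by linarith
      have : (1 * (2 * ((n : ℝ) + 1) ^ 2) - 2 * (n : ℝ) ^ 2 * 1) * (n : ℝ) ^ 3 ≤
          1 * (2 * (n : ℝ) ^ 2 * (2 * ((n : ℝ) + 1) ^ 2)) := by
        have e1 : 1 * (2 * (n : ℝ) ^ 2 * (2 * ((n : ℝ) + 1) ^ 2)) -
            (1 * (2 * ((n : ℝ) + 1) ^ 2) - 2 * (n : ℝ) ^ 2 * 1) * (n : ℝ) ^ 3 =
            (n : ℝ) ^ 2 * (6 * n + 4) := by ring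
        have e2 : 0 ≤ (n : ℝ) ^ 2 * (6 * n + 4) := by positivity
        linarith
      exact this) (by
      have h1 : Tendsto (fun n : ℕ => 2 * (n : ℝ) ^ 2) atTop atTop := by
        apply Tendsto.const_mul_atTop (by norm_num)
        exact (tendsto_pow_atTop (by norm_num)).comp tendsto_natCast_atTop_atTop
      exact h1.const_div_atTop 1)
  refine le_trans ?_ h
  simp only [y3_eq, sum_range_succ, range_zero, sum_empty]
  norm_num

end Pool.Agent.H732R2.Dv
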