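import Mathlib
import Pool.Agent.H732R2.DivNumC

/-! Numerics for the divisor problem at integer squares. -/

open Finset Filter Topology ArithmeticFunction
open scoped ArithmeticFunction.sigma ArithmeticFunction.zeta

namespace Pool.Agent.H732R2.Dv

/-- the divisor function, as a real number -/
noncomputable def dr (m : ℕ) : ℝ := ((Nat.divisors m).card : ℝ)

/-- the sum over squares -/
noncomputable def SD (M : ℕ) : ℝ := ∑ k ∈ Icc 1 M, dr (k ^ 2) * (k : ℝ) ^ (-(3 / 2) : ℝ)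

open Classical in
noncomputable def NSq (M : ℕ) : Finset ℕ := (Icc 1 (M ^ 2)).filter (fun m => ¬ IsSquare m)

/-- the sum over non-squares -/
noncomputable def TD (M : ℕ) : ℝ := ∑ m ∈ NSq M, (dr m) ^ 2 * (m : ℝ) ^ (-(3 / 2) : ℝ)

noncomputable def Sv : ℝ := Z (3 / 2) ^ 3 / Z 3
noncomputable def Tv : ℝ := Z (3 / 2) ^ 4 / Z 3

lemma dr_nonneg (m : ℕ) : 0 ≤ dr m := Nat.cast_nonneg _

lemma tm_dsq (k : ℕ) : tm dsq (3 / 2) k = dr (k ^ 2) * (k : ℝ) ^ (-(3 / 2) : ℝ) := by
  rw [tm, dsq_apply, sigma_zero_apply]; rfl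

lemma tm_dd (k : ℕ) : tm dd (3 / 2) k = (dr k) ^ 2 * (k : ℝ) ^ (-(3 / 2) : ℝ) := by
  rw [tm, dd_apply, sigma_zero_apply]; push_cast; rfl

lemma Z3_pos : 0 < Z 3 := by have := Z3_lower; linarith

lemma S_hasSum : HasSum (fun k : ℕ => dr (k ^ 2) * (k : ℝ) ^ (-(3 / 2) : ℝ)) Sv := by
  obtain ⟨S, h, e⟩ := dsq_hasSum (s := 3 / 2) (by norm_num)
  rw [show (2 : ℝ) * (3 / 2) = 3 by norm_num] at e
  have : S = Sv := by
    rw [Sv, eq_div_iff Z3_pos.ne', e]
  rw [this] at h
  rwa [show tm dsq (3 / 2) = _ from funext tm_dsq] at h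

lemma T_hasSum : HasSum (fun k : ℕ => (dr k) ^ 2 * (k : ℝ) ^ (-(3 / 2) : ℝ)) Tv := by
  obtain ⟨S, h, e⟩ := dd_hasSum (s := 3 / 2) (by norm_num)
  rw [show (2 : ℝ) * (3 / 2) = 3 by norm_num] at e
  have : S = Tv := by
    rw [Tv, eq_div_iff Z3_pos.ne', e]
  rw [this] at h
  rwa [show tm dd (3 / 2) = _ from funext tm_dd] at h

lemma SD_eq_range (M : ℕ) : SD M = ∑ k ∈ range (M + 1), dr (k ^ 2) * (k : ℝ) ^ (-(3 / 2) : ℝ) := by
  have : range (M + 1) = insert 0 (Icc 1 M) := by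
    ext x; simp; omega
  rw [this, sum_insert (by simp)]
  simp only [Nat.cast_zero]
  rw [Real.zero_rpow (by norm_num), mul_zero, zero_add]
  rfl

/-- the partial sums over squares converge -/
theorem SD_tendsto : Tendsto SD atTop (𝓝 Sv) := by
  have h := S_hasSum.tendsto_sum_nat
  exact (h.comp (tendsto_add_atTop_nat 1)).congr fun M => (SD_eq_range M).symm

theorem SD_le (M : ℕ) : SD M ≤ Sv := by
  rw [SD_eq_range]
  exact sum_le_hasSum _ (fun k _ => mul_nonneg (dr_nonneg _) (by positivity)) S_hasSum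

/-- `S = ζ(3/2)³/ζ(3) ≥ 14.82` -/
theorem Sv_lower : 14.82 ≤ Sv := by
  have h1 := Z32_lower
  have h2 := Z3_upper
  have h3 := Z3_pos
  rw [Sv, le_div_iff₀ h3]
  calc (14.82 : ℝ) * Z 3 ≤ 14.82 * 1.2021 := by gcongr
    _ ≤ 2.6118 ^ 3 := by norm_num
    _ ≤ _ := by gcongr

theorem Tv_upper : Tv ≤ 38.7485 := by
  have h1 := Z32_upper
  have h2 := Z3_lower
  have h3 := Z3_pos
  have h4 := Z32_lower
  rw [Tv, div_le_iff₀ h3]
  calc Z (3 / 2) ^ 4 ≤ 2.6124 ^ 4 := by
        apply pow_le_pow_left₀ (by linarith) h1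
    _ ≤ 38.7485 * 1.2020 := by norm_num
    _ ≤ _ := by gcongr

/-- for `M ≥ 12` the sum over the non-squares up to `M²` is at most `35.08` -/
theorem TD_le {M : ℕ} (hM : 12 ≤ M) : TD M ≤ 35.08 := by
  classical
  have h1 : ∑ m ∈ Icc 1 (M ^ 2), (dr m) ^ 2 * (m : ℝ) ^ (-(3 / 2) : ℝ) ≤ Tv :=
    sum_le_hasSum _ (fun k _ => mul_nonneg (sq_nonneg _) (by positivity)) T_hasSum
  have h2 := sum_filter_add_sum_filter_not (Icc 1 (M ^ 2)) (fun m => IsSquare m)
    (fun m => (dr m) ^ 2 * (m : ℝ) ^ (-(3 / 2) : ℝ))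
  have h3 : TD M = ∑ m ∈ (Icc 1 (M ^ 2)).filter (fun m => ¬ IsSquare m),
      (dr m) ^ 2 * (m : ℝ) ^ (-(3 / 2) : ℝ) := by
    unfold TD NSq
    congr!
  have hval : (3.67 : ℝ) ≤ ∑ k ∈ Icc 1 12, (dr (k ^ 2)) ^ 2 * (1 / (k : ℝ) ^ 3) := by
    have c : ∀ k : ℕ, dr k = ((Nat.divisors k).card : ℝ) := fun k => rfl
    have hs : (Icc 1 12 : Finset ℕ) = {1, 2, 3, 4, 5, 6, 7, 8, 9, 10, 11, 12} := by decide
    have e1 : (Nat.divisors (1 ^ 2)).card = 1 := by decide +kernel
    have e2 : (Nat.divisors (2 ^ 2)).card = 3 := by decide +kernel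
    have e3 : (Nat.divisors (3 ^ 2)).card = 3 := by decide +kernel
    have e4 : (Nat.divisors (4 ^ 2)).card = 5 := by decide +kernel
    have e5 : (Nat.divisors (5 ^ 2)).card = 3 := by decide +kernel
    have e6 : (Nat.divisors (6 ^ 2)).card = 9 := by decide +kernel
    have e7 : (Nat.divisors (7 ^ 2)).card = 3 := by decide +kernel
    have e8 : (Nat.divisors (8 ^ 2)).card = 7 := by decide +kernel
    have e9 : (Nat.divisors (9 ^ 2)).card = 5 := by decide +kernel
    have e10 : (Nat.divisors (10 ^ 2)).card = 9 := by decide +kernel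
    have e11 : (Nat.divisors (11 ^ 2)).card = 3 := by decide +kernel
    have e12 : (Nat.divisors (12 ^ 2)).card = 15 := by decide +kernel
    rw [hs]
    rw [sum_insert (by decide), sum_insert (by decide), sum_insert (by decide), sum_insert (by decide),
      sum_insert (by decide), sum_insert (by decide), sum_insert (by decide), sum_insert (by decide),
      sum_insert (by decide), sum_insert (by decide), sum_insert (by decide), sum_singleton]
    rw [c, c, c, c, c, c, c, c, c, c, c, c, e1, e2, e3, e4, e5, e6, e7, e8, e9, e10, e11, e12]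
    norm_num
  have hsub : ∑ k ∈ Icc 1 12, (dr (k ^ 2)) ^ 2 * (1 / (k : ℝ) ^ 3) ≤
      ∑ m ∈ (Icc 1 (M ^ 2)).filter (fun m => IsSquare m), (dr m) ^ 2 * (m : ℝ) ^ (-(3 / 2) : ℝ) := by
    have hinj : Set.InjOn (fun k : ℕ => k ^ 2) (Icc 1 12 : Finset ℕ) := fun a _ b _ h =>
      Nat.pow_left_injective (by norm_num) h
    calc _ = ∑ m ∈ (Icc 1 12).image (fun k : ℕ => k ^ 2), (dr m) ^ 2 * (m : ℝ) ^ (-(3 / 2) : ℝ) := by
          rw [sum_image hinj]
          apply sum_congr rfl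
          intro k hk
          rw [mem_Icc] at hk
          have hk0 : (0 : ℝ) < k := by exact_mod_cast hk.1
          congr 1
          push_cast
          rw [← Real.rpow_natCast (k : ℝ) 2, ← Real.rpow_mul hk0.le, one_div, ← Real.rpow_natCast,
            ← Real.rpow_neg hk0.le]
          norm_num
      _ ≤ _ := by
          apply sum_le_sum_of_subset_of_nonneg
          · intro m hm
            rw [mem_image] at hm
            obtain ⟨k, hk, rfl⟩ := hm
            rw [mem_Icc] at hk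
            rw [mem_filter, mem_Icc]
            refine ⟨⟨Nat.one_le_pow _ _ hk.1, Nat.pow_le_pow_left (by omega) 2⟩, ⟨k, sq k⟩⟩
          · intro m _ _
            exact mul_nonneg (sq_nonneg _) (by positivity)
  have h4 := Tv_upper
  rw [h3]
  linarith

/-- `S² ≥ 6.26 T` -/
theorem ratio {M : ℕ} (hM : 12 ≤ M) : 6.26 * TD M ≤ Sv ^ 2 := by
  have h1 := TD_le hM
  have h2 := Sv_lower
  nlinarith

end Pool.Agent.H732R2.Dv
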