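import Pool.Agent.H387R2.VorK

set_option autoImplicit false

open Filter Topology MeasureTheory Set

namespace Pool.Agent.H387R2.Vor

noncomputable section

/-- the integrand on the line `Re z = 1` -/
def Fz (a R δ θ τ : ℝ) : ℂ :=
  Complex.Gamma (1 + τ * Complex.I) *
    Complex.exp ((1 + τ * Complex.I) * (-(Real.log a : ℂ) + θ * Complex.I)) * KA R δ (1 + τ * Complex.I)

lemma rho_cont {R δ : ℝ} : Continuous (rho R δ) := by
  unfold rho; fun_prop

lemma rho_zero {R δ : ℝ} {x : ℝ} (hx : x ∉ Icc R (R + 2 * δ)) : rho R δ x = 0 := by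
  unfold rho
  have : δ - |x - (R + δ)| ≤ 0 := by
    rw [mem_Icc, not_and_or, not_le, not_le] at hx
    rcases hx with h | h
    · have := neg_abs_le (x - (R + δ)); linarith
    · have := le_abs_self (x - (R + δ)); linarith
  rw [max_eq_left this, zero_div]

lemma rho_integrable {R δ : ℝ} : Integrable (rho R δ) := by
  apply rho_cont.integrable_of_hasCompactSupport
  apply HasCompactSupport.intro (isCompact_Icc (a := R) (b := R + 2 * δ))
  intro x hx
  exact rho_zero hx

lemma laplace_gamma {z : ℂ} (hz : 0 < z.re) :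
    ∀ ω : ℂ, 0 < ω.re → ∫ t in Ioi (0 : ℝ), (t : ℂ) ^ (z - 1) * Complex.exp (-(ω * t)) = (1 / ω) ^ z * Complex.Gamma z := by
  have hopen : IsOpen {ω : ℂ | 0 < ω.re} := isOpen_lt continuous_const Complex.continuous_re
  have hconv : Convex ℝ {ω : ℂ | 0 < ω.re} := convex_halfSpace_re_gt 0
  -- differentiability of the left side
  have hint : ∀ (c : ℝ) (s : ℝ), 0 < c → -1 < s → IntegrableOn (fun t : ℝ => t ^ s * Real.exp (-c * t)) (Ioi 0) := by
    intro c s hc hs
    have := integrableOn_rpow_mul_exp_neg_mul_rpow (p := 1) (s := s) (b := c) hs one_pos hc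
    simpa using this
  have hL : DifferentiableOn ℂ (fun ω : ℂ => ∫ t in Ioi (0 : ℝ), (t : ℂ) ^ (z - 1) * Complex.exp (-(ω * t)))
      {ω : ℂ | 0 < ω.re} := by
    intro ω₀ hω₀
    have hω₀' : 0 < ω₀.re := hω₀
    apply DifferentiableAt.differentiableWithinAt
    have hcpow : ContinuousOn (fun t : ℝ => (t : ℂ) ^ (z - 1)) (Ioi 0) := by
      intro t ht
      have ht0 : (0 : ℝ) < t := ht
      apply ContinuousAt.continuousWithinAt
      apply ContinuousAt.cpow (by fun_prop) continuousAt_const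
      exact Complex.ofReal_mem_slitPlane.2 ht0
    have h := hasDerivAt_integral_of_dominated_loc_of_deriv_le
      (F := fun (ω : ℂ) (t : ℝ) => (t : ℂ) ^ (z - 1) * Complex.exp (-(ω * t)))
      (F' := fun (ω : ℂ) (t : ℝ) => (t : ℂ) ^ (z - 1) * (Complex.exp (-(ω * t)) * (-t)))
      (x₀ := ω₀) (s := Metric.ball ω₀ (ω₀.re / 2)) (μ := volume.restrict (Ioi 0))
      (bound := fun t : ℝ => t ^ z.re * Real.exp (-(ω₀.re / 2) * t))
      (Metric.ball_mem_nhds _ (by positivity)) ?_ ?_ ?_ ?_ ?_ ?_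
    · exact h.2.differentiableAt
    · filter_upwards with ω
      apply ContinuousOn.aestronglyMeasurable _ measurableSet_Ioi
      exact hcpow.mul (by fun_prop)
    · refine Integrable.mono' (hint ω₀.re (z.re - 1) hω₀' (by linarith)) ?_ ?_
      · apply ContinuousOn.aestronglyMeasurable _ measurableSet_Ioi
        exact hcpow.mul (by fun_prop)
      · filter_upwards [ae_restrict_mem measurableSet_Ioi] with t ht
        have ht0 : (0 : ℝ) < t := ht
        rw [norm_mul, Complex.norm_cpow_eq_rpow_re_of_pos ht0, Complex.norm_exp]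
        simp
    · apply ContinuousOn.aestronglyMeasurable _ measurableSet_Ioi
      exact hcpow.mul (by fun_prop)
    · filter_upwards [ae_restrict_mem measurableSet_Ioi] with t ht ω hω
      have ht0 : (0 : ℝ) < t := ht
      have hre : ω₀.re / 2 ≤ ω.re := by
        rw [Metric.mem_ball, Complex.dist_eq] at hω
        have := (Complex.abs_re_le_norm (ω - ω₀)).trans hω.le
        rw [Complex.sub_re] at this
        have := (abs_le.1 this).1
        linarith
      rw [norm_mul, norm_mul, Complex.norm_cpow_eq_rpow_re_of_pos ht0, Complex.norm_exp, norm_neg, Complex.norm_real,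
        Real.norm_of_nonneg ht0.le]
      have e1 : (-(ω * (t : ℂ))).re = -(ω.re * t) := by
        rw [Complex.neg_re, Complex.re_mul_ofReal]
      have e2 : t ^ z.re = t ^ (z - 1).re * t := by
        rw [Complex.sub_re, Complex.one_re]
        nth_rewrite 3 [← Real.rpow_one t]
        rw [← Real.rpow_add ht0]; congr 1; ring
      rw [e1, e2]
      have e3 : Real.exp (-(ω.re * t)) ≤ Real.exp (-(ω₀.re / 2) * t) := by
        apply Real.exp_le_exp.2
        nlinarith
      calc t ^ (z - 1).re * (Real.exp (-(ω.re * t)) * t) ≤ t ^ (z - 1).re * (Real.exp (-(ω₀.re / 2) * t) * t) := by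
            gcongr
        _ = _ := by ring
    · exact hint _ _ (by positivity) (by linarith)
    · filter_upwards with t ω _
      have h1 : HasDerivAt (fun ω : ℂ => -(ω * t)) (-t : ℂ) ω := by
        simpa using ((hasDerivAt_id ω).mul_const (t : ℂ)).fun_neg
      exact (h1.cexp).const_mul _
  have hR : DifferentiableOn ℂ (fun ω : ℂ => (1 / ω) ^ z * Complex.Gamma z) {ω : ℂ | 0 < ω.re} := by
    intro ω hω
    have hω' : 0 < ω.re := hω
    have hne : ω ≠ 0 := by rintro rfl; simp at hω'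
    apply DifferentiableAt.differentiableWithinAt
    apply DifferentiableAt.mul_const
    apply DifferentiableAt.cpow_const (by fun_prop (disch := exact hne))
    left
    rw [one_div, Complex.inv_re]
    have := Complex.normSq_pos.2 hne
    positivity
  have hLa := hL.analyticOnNhd hopen
  have hRa := hR.analyticOnNhd hopen
  have h1 : (1 : ℂ) ∈ {ω : ℂ | 0 < ω.re} := by simp
  have key := hLa.eqOn_of_preconnected_of_frequently_eq hRa hconv.isPreconnected h1 (by
    have hfr : ∃ᶠ r : ℝ in 𝓝[≠] (1 : ℝ), 0 < r := by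
      apply Filter.Eventually.frequently
      exact (lt_mem_nhds one_pos).filter_mono nhdsWithin_le_nhds
    have ht : Tendsto (fun r : ℝ => (r : ℂ)) (𝓝[≠] (1 : ℝ)) (𝓝[≠] (1 : ℂ)) := by
      apply tendsto_nhdsWithin_of_tendsto_nhds_of_eventually_within
      · exact (Complex.continuous_ofReal.tendsto' 1 1 (by simp)).mono_left nhdsWithin_le_nhds
      · filter_upwards [self_mem_nhdsWithin] with r hr
        intro h
        apply hr
        simpa using h
    refine ht.frequently (hfr.mono fun r hr => ?_)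
    exact Complex.integral_cpow_mul_exp_neg_mul_Ioi hz hr)
  intro ω hω
  exact key hω

lemma mellin_exp {ω : ℂ} (hω : 0 < ω.re) {z : ℂ} (hz : 0 < z.re) :
    mellin (fun x : ℝ => Complex.exp (-(ω * x))) z = (1 / ω) ^ z * Complex.Gamma z := by
  rw [← laplace_gamma hz ω hω]
  unfold mellin
  simp only [smul_eq_mul]

lemma mellinConv_exp {ω : ℂ} (hω : 0 < ω.re) :
    MellinConvergent (fun x : ℝ => Complex.exp (-(ω * x))) ((1 : ℝ) : ℂ) := by
  unfold MellinConvergent
  have h : IntegrableOn (fun x : ℝ => Real.exp (-ω.re * x)) (Ioi 0) :=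
    integrableOn_exp_mul_Ioi (by linarith) 0
  refine Integrable.mono' h ?_ ?_
  · apply ContinuousOn.aestronglyMeasurable _ measurableSet_Ioi
    apply Continuous.continuousOn
    have e : (fun t : ℝ => (t : ℂ) ^ ((((1 : ℝ) : ℂ)) - 1) • Complex.exp (-(ω * t))) =
        fun t : ℝ => Complex.exp (-(ω * t)) := by
      funext t
      simp
    rw [e]
    fun_prop
  · filter_upwards [ae_restrict_mem measurableSet_Ioi] with x hx
    have : (((1 : ℝ) : ℂ)) - 1 = 0 := by simp
    rw [this, Complex.cpow_zero, one_smul, Complex.norm_exp]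
    simp

lemma one_div_omega {a θ : ℝ} (ha : 0 < a) (hθ : |θ| < Real.pi / 2) (z : ℂ) :
    (1 / ((a : ℂ) * Complex.exp (-(θ * Complex.I)))) ^ z =
      Complex.exp (z * (-(Real.log a : ℂ) + θ * Complex.I)) := by
  have hpi := Real.pi_pos
  have e1 : 1 / ((a : ℂ) * Complex.exp (-(θ * Complex.I))) =
      Complex.exp (-(Real.log a : ℂ) + θ * Complex.I) := by
    rw [Complex.exp_add, Complex.exp_neg (θ * Complex.I : ℂ), Complex.exp_neg, ← Complex.ofReal_exp,
      Real.exp_log ha]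
    have : (a : ℂ) ≠ 0 := by exact_mod_cast ha.ne'
    field_simp
  have h2 := abs_lt.1 hθ
  rw [e1, Complex.cpow_def_of_ne_zero (Complex.exp_ne_zero _), Complex.log_exp, mul_comm]
  · simp; linarith
  · simp; linarith

lemma omega_re {a θ : ℝ} : ((a : ℂ) * Complex.exp (-(θ * Complex.I))).re = a * Real.cos θ := by
  rw [Complex.re_ofReal_mul, ← neg_mul, ← Complex.ofReal_neg, Complex.exp_ofReal_mul_I_re, Real.cos_neg]

lemma line {a R δ θ : ℝ} (ha : 0 < a) (hR : 0 < R) (hδ : 0 < δ) (hθ : |θ| < Real.pi / 2) :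
    ∫ τ : ℝ, Fz a R δ θ τ = 2 * Real.pi * ∫ x in Ioi (0 : ℝ), (rho R δ x : ℂ) *
      Complex.exp (-(((a : ℂ) * Complex.exp (-(θ * Complex.I))) * x)) := by
  have hω : 0 < ((a : ℂ) * Complex.exp (-(θ * Complex.I))).re := by
    rw [omega_re]
    have := Real.cos_pos_of_mem_Ioo (x := θ) (by rw [mem_Ioo]; exact abs_lt.1 hθ)
    positivity
  have h := parseval (c := 1) hR hδ (by norm_num) (mellinConv_exp hω)
  rw [← h]
  apply integral_congr_ae
  filter_upwards with τ
  have hz : (0 : ℝ) < (((1 : ℝ) : ℂ) + τ * Complex.I).re := by simp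
  rw [mellin_exp hω hz, one_div_omega ha hθ]
  unfold Fz
  push_cast
  ring

lemma Fz_cont {a R δ θ : ℝ} (hR : 0 < R) (hδ : 0 < δ) : Continuous (Fz a R δ θ) := by
  unfold Fz
  have h1 : Continuous fun τ : ℝ => Complex.Gamma (1 + τ * Complex.I) := by
    rw [continuous_iff_continuousAt]
    intro τ
    have h2 : DifferentiableAt ℂ Complex.Gamma (1 + τ * Complex.I) := by
      apply Complex.differentiableAt_Gamma
      intro n h
      have := congrArg Complex.re h
      simp at this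
      have h3 : (0 : ℝ) ≤ n := Nat.cast_nonneg n
      linarith
    exact ContinuousAt.comp (f := fun τ : ℝ => (1 + τ * Complex.I : ℂ)) h2.continuousAt (by fun_prop)
  have h2 : Continuous fun τ : ℝ => KA R δ (1 + τ * Complex.I) :=
    (differentiable_KA hR hδ).continuous.comp (by fun_prop)
  exact (h1.mul (by fun_prop)).mul h2

lemma Fz_bound {a R δ : ℝ} (ha : 0 < a) (hR : 0 < R) (hδ : 0 < δ) :
    ∃ C : ℝ, 0 < C ∧ ∀ θ τ : ℝ, |θ| ≤ Real.pi / 2 → ‖Fz a R δ θ τ‖ ≤ C * (1 + |τ|) ^ (-(3 / 2) : ℝ) := by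
  obtain ⟨B, hB, hKA⟩ := KA_bound hR hδ
  have hpi := Real.pi_pos
  have hpi4 := Real.pi_le_four
  refine ⟨3 * a⁻¹ * B, by positivity, fun θ τ hθ => ?_⟩
  have ht := abs_nonneg τ
  unfold Fz
  rw [norm_mul, norm_mul, Complex.norm_exp]
  have h1 : ((1 + τ * Complex.I) * (-(Real.log a : ℂ) + θ * Complex.I)).re = -Real.log a - τ * θ := by
    simp
  have h2 : Real.exp (-Real.log a - τ * θ) ≤ a⁻¹ * Real.exp (Real.pi / 2 * |τ|) := by
    rw [sub_eq_add_neg, Real.exp_add, Real.exp_neg, Real.exp_log ha]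
    gcongr
    calc -(τ * θ) ≤ |τ * θ| := neg_le_abs _
      _ = |θ| * |τ| := by rw [abs_mul, mul_comm]
      _ ≤ _ := by gcongr
  have h3 := norm_Gamma_one τ
  have h4 : ‖Complex.Gamma (1 + τ * Complex.I)‖ * Real.exp (Real.pi / 2 * |τ|) ≤ 3 * (1 + |τ|) ^ (1 / 2 : ℝ) := by
    apply le_of_sq_le_sq _ (by positivity)
    rw [mul_pow]
    calc ‖Complex.Gamma (1 + τ * Complex.I)‖ ^ 2 * Real.exp (Real.pi / 2 * |τ|) ^ 2
        ≤ ((1 + 2 * Real.pi * |τ|) * Real.exp (-(Real.pi * |τ|))) * Real.exp (Real.pi / 2 * |τ|) ^ 2 := by gcongr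
      _ = (1 + 2 * Real.pi * |τ|) * (Real.exp (-(Real.pi * |τ|)) * Real.exp (Real.pi / 2 * |τ|) ^ 2) := by ring
      _ = 1 + 2 * Real.pi * |τ| := by
          rw [← Real.exp_nat_mul, ← Real.exp_add]
          have : -(Real.pi * |τ|) + ((2 : ℕ) : ℝ) * (Real.pi / 2 * |τ|) = 0 := by push_cast; ring
          rw [this, Real.exp_zero, mul_one]
      _ ≤ 9 * (1 + |τ|) := by nlinarith
      _ = _ := by
          rw [mul_pow, ← Real.rpow_natCast ((1 + |τ|) ^ (1 / 2 : ℝ)), ← Real.rpow_mul (by positivity)]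
          norm_num
  have h5 := hKA (1 + τ * Complex.I) (by simp)
  have h6 : (1 + τ * Complex.I : ℂ).im = τ := by simp
  rw [h6] at h5
  rw [h1]
  calc ‖Complex.Gamma (1 + τ * Complex.I)‖ * Real.exp (-Real.log a - τ * θ) * ‖KA R δ (1 + τ * Complex.I)‖
      ≤ ‖Complex.Gamma (1 + τ * Complex.I)‖ * (a⁻¹ * Real.exp (Real.pi / 2 * |τ|)) * (B / (1 + |τ|) ^ 2) := by gcongr
    _ = (‖Complex.Gamma (1 + τ * Complex.I)‖ * Real.exp (Real.pi / 2 * |τ|)) * (a⁻¹ * (B / (1 + |τ|) ^ 2)) := by ring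
    _ ≤ (3 * (1 + |τ|) ^ (1 / 2 : ℝ)) * (a⁻¹ * (B / (1 + |τ|) ^ 2)) := by gcongr
    _ = 3 * a⁻¹ * B * ((1 + |τ|) ^ (1 / 2 : ℝ) * (1 / (1 + |τ|) ^ 2)) := by ring
    _ = _ := by
        congr 1
        have e9 : 1 / (1 + |τ|) ^ 2 = (1 + |τ|) ^ (-(2 : ℝ)) := by
          rw [Real.rpow_neg (by positivity), one_div]
          congr 1
          exact (Real.rpow_natCast _ 2).symm
        rw [e9, ← Real.rpow_add (by positivity)]
        norm_num

lemma dom_integrable (C : ℝ) : Integrable (fun τ : ℝ => C * (1 + |τ|) ^ (-(3 / 2) : ℝ)) := by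
  have h := integrable_one_add_norm (E := ℝ) (μ := volume) (r := 3 / 2) (by simp; norm_num)
  simpa using h.const_mul C

lemma Fz_integrable {a R δ θ : ℝ} (ha : 0 < a) (hR : 0 < R) (hδ : 0 < δ) (hθ : |θ| ≤ Real.pi / 2) :
    Integrable (Fz a R δ θ) := by
  obtain ⟨C, hC, h⟩ := Fz_bound ha hR hδ
  exact Integrable.mono' (dom_integrable C) (Fz_cont hR hδ).aestronglyMeasurable
    (Filter.Eventually.of_forall fun τ => h θ τ hθ)

/-- the limiting case `θ = s π / 2` -/
lemma edge {a R δ s : ℝ} (ha : 0 < a) (hR : 0 < R) (hδ : 0 < δ) (hs : s = 1 ∨ s = -1) :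
    ∫ τ : ℝ, Fz a R δ (s * (Real.pi / 2)) τ = 2 * Real.pi * ∫ x in Ioi (0 : ℝ), (rho R δ x : ℂ) *
      Complex.exp (((s * a * x : ℝ) : ℂ) * Complex.I) := by
  have hpi := Real.pi_pos
  have hsabs : |s| = 1 := by rcases hs with rfl | rfl <;> simp
  obtain ⟨C, hC, hb⟩ := Fz_bound ha hR hδ
  have hev : ∀ᶠ φ : ℝ in 𝓝[<] (Real.pi / 2), |s * φ| < Real.pi / 2 := by
    filter_upwards [Ioo_mem_nhdsLT (show (0 : ℝ) < Real.pi / 2 by positivity)] with φ hφ
    rw [abs_mul, hsabs, one_mul, abs_of_pos hφ.1]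
    exact hφ.2
  have hL : Tendsto (fun φ : ℝ => ∫ τ : ℝ, Fz a R δ (s * φ) τ) (𝓝[<] (Real.pi / 2))
      (𝓝 (∫ τ : ℝ, Fz a R δ (s * (Real.pi / 2)) τ)) := by
    apply tendsto_integral_filter_of_dominated_convergence (fun τ : ℝ => C * (1 + |τ|) ^ (-(3 / 2) : ℝ))
    · filter_upwards with φ
      exact (Fz_cont hR hδ).aestronglyMeasurable
    · filter_upwards [hev] with φ hφ
      filter_upwards with τ
      exact hb _ _ hφ.le
    · exact dom_integrable C
    · filter_upwards with τ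
      have : Continuous fun φ : ℝ => Fz a R δ (s * φ) τ := by
        unfold Fz
        fun_prop
      exact (this.tendsto (Real.pi / 2)).mono_left nhdsWithin_le_nhds
  have hRt : Tendsto (fun φ : ℝ => 2 * Real.pi * ∫ x in Ioi (0 : ℝ), (rho R δ x : ℂ) *
      Complex.exp (-(((a : ℂ) * Complex.exp (-((s * φ : ℝ) * Complex.I))) * x))) (𝓝[<] (Real.pi / 2))
      (𝓝 (2 * Real.pi * ∫ x in Ioi (0 : ℝ), (rho R δ x : ℂ) *
        Complex.exp (-(((a : ℂ) * Complex.exp (-((s * (Real.pi / 2) : ℝ) * Complex.I))) * x)))) := by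
    apply Tendsto.const_mul
    apply tendsto_integral_filter_of_dominated_convergence (fun x : ℝ => rho R δ x)
    · filter_upwards with φ
      apply Continuous.aestronglyMeasurable
      exact (Complex.continuous_ofReal.comp rho_cont).mul (by fun_prop)
    · filter_upwards [hev] with φ hφ
      filter_upwards [ae_restrict_mem measurableSet_Ioi] with x hx
      rw [norm_mul, Complex.norm_real, Real.norm_of_nonneg (rho_nonneg R δ x), Complex.norm_exp]
      have e : (-(((a : ℂ) * Complex.exp (-((s * φ : ℝ) * Complex.I))) * x)).re =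
          -((a * Real.cos (s * φ)) * x) := by
        rw [Complex.neg_re, Complex.re_mul_ofReal, omega_re]
      rw [e]
      have hc := Real.cos_pos_of_mem_Ioo (x := s * φ) (by rw [mem_Ioo]; exact abs_lt.1 hφ)
      have hx0 : (0 : ℝ) < x := hx
      have : Real.exp (-((a * Real.cos (s * φ)) * x)) ≤ 1 := by
        rw [Real.exp_le_one_iff]
        have : 0 ≤ (a * Real.cos (s * φ)) * x := by positivity
        linarith
      calc rho R δ x * Real.exp (-((a * Real.cos (s * φ)) * x)) ≤ rho R δ x * 1 :=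
            mul_le_mul_of_nonneg_left this (rho_nonneg R δ x)
        _ = _ := mul_one _
    · exact rho_integrable.integrableOn
    · filter_upwards with x
      have : Continuous fun φ : ℝ => (rho R δ x : ℂ) *
          Complex.exp (-(((a : ℂ) * Complex.exp (-((s * φ : ℝ) * Complex.I))) * x)) := by
        fun_prop
      exact (this.tendsto (Real.pi / 2)).mono_left nhdsWithin_le_nhds
  have heq : (fun φ : ℝ => ∫ τ : ℝ, Fz a R δ (s * φ) τ) =ᶠ[𝓝[<] (Real.pi / 2)]
      fun φ : ℝ => 2 * Real.pi * ∫ x in Ioi (0 : ℝ), (rho R δ x : ℂ) *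
      Complex.exp (-(((a : ℂ) * Complex.exp (-((s * φ : ℝ) * Complex.I))) * x)) := by
    filter_upwards [hev] with φ hφ
    exact line ha hR hδ hφ
  have huniq := tendsto_nhds_unique (hL.congr' heq) hRt
  rw [huniq]
  congr 2
  funext x
  congr 2
  have h2 : Complex.exp (-((s * (Real.pi / 2) : ℝ) * Complex.I)) = -(s * Complex.I) := by
    rcases hs with rfl | rfl
    · rw [one_mul, ← neg_mul, ← Complex.ofReal_neg, Complex.exp_mul_I, ← Complex.ofReal_cos,
        ← Complex.ofReal_sin, Real.cos_neg, Real.sin_neg, Real.cos_pi_div_two, Real.sin_pi_div_two]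
      push_cast; ring
    · rw [← neg_mul, ← Complex.ofReal_neg, Complex.exp_mul_I, ← Complex.ofReal_cos,
        ← Complex.ofReal_sin]
      have : -(-1 * (Real.pi / 2)) = Real.pi / 2 := by ring
      rw [this, Real.cos_pi_div_two, Real.sin_pi_div_two]
      push_cast; ring
  rw [h2]
  push_cast
  ring

/-- the average of `e^{iaZ}` -/
lemma av_exp {R δ : ℝ} (hR : 0 < R) (hδ : 0 < δ) {y : ℝ} (hy : 0 < y) :
    ∫ x in Ioi (0 : ℝ), (rho R δ x : ℂ) * ex (y * x) = ex (y * R) * cf (y * δ) ^ 2 := by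
  have hpi := Real.pi_pos
  have hcont : Continuous fun x : ℝ => ex (y * x) := by unfold ex; fun_prop
  rw [← av_eq hR hδ (hcont.intervalIntegrable _ _)]
  have hadd : ∀ p q : ℝ, ex (p + q) = ex p * ex q := by
    intro p q
    unfold ex
    rw [← Complex.exp_add]
    congr 1
    push_cast; ring
  have hint : ∫ v in (0 : ℝ)..δ, ex (y * v) = δ * cf (y * δ) := by
    have hc : (((2 * Real.pi * y : ℝ) : ℂ) * Complex.I) ≠ 0 := by
      apply mul_ne_zero _ Complex.I_ne_zero
      exact_mod_cast (by positivity : (2 * Real.pi * y : ℝ) ≠ 0)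
    have h1 : (fun v : ℝ => ex (y * v)) = fun v : ℝ => Complex.exp ((((2 * Real.pi * y : ℝ) : ℂ) * Complex.I) * v) := by
      funext v
      unfold ex
      congr 1
      push_cast; ring
    rw [h1, integral_exp_mul_complex hc]
    unfold cf ex
    have hδc : (δ : ℂ) ≠ 0 := by exact_mod_cast hδ.ne'
    have e1 : (((2 * Real.pi * y : ℝ) : ℂ) * Complex.I) * ((0 : ℝ) : ℂ) = 0 := by simp
    have e2 : (((2 * Real.pi * y : ℝ) : ℂ) * Complex.I) * (δ : ℂ) =
        ((2 * Real.pi * (y * δ) : ℝ) : ℂ) * Complex.I := by push_cast; ring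
    rw [e1, e2, Complex.exp_zero]
    have e3 : ((2 * Real.pi * (y * δ) : ℝ) : ℂ) * Complex.I =
        (δ : ℂ) * (((2 * Real.pi * y : ℝ) : ℂ) * Complex.I) := by push_cast; ring
    have hc2 : (((2 * Real.pi * (y * δ) : ℝ) : ℂ) * Complex.I) ≠ 0 := by
      rw [e3]; exact mul_ne_zero hδc hc
    rw [mul_div_assoc', div_eq_div_iff hc hc2, e3]
    ring
  have h2 : ∀ u : ℝ, ∫ v in (0 : ℝ)..δ, ex (y * (R + u + v)) = ex (y * R) * ex (y * u) * (δ * cf (y * δ)) := by
    intro u
    rw [← hint, ← intervalIntegral.integral_const_mul]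
    congr 1
    funext v
    rw [mul_add, mul_add, hadd, hadd]
  simp_rw [h2]
  have h3 : ∫ u in (0 : ℝ)..δ, ex (y * R) * ex (y * u) * (δ * cf (y * δ)) =
      ex (y * R) * (δ * cf (y * δ)) ^ 2 := by
    have : (fun u : ℝ => ex (y * R) * ex (y * u) * (δ * cf (y * δ))) =
        fun u : ℝ => (ex (y * R) * (δ * cf (y * δ))) * ex (y * u) := by
      funext u; ring
    rw [this, intervalIntegral.integral_const_mul, hint]
    ring
  rw [h3]
  have hδc : (δ : ℂ) ≠ 0 := by exact_mod_cast hδ.ne'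
  push_cast
  field_simp

lemma conj_av {R δ : ℝ} (b : ℝ) :
    ∫ x in Ioi (0 : ℝ), (rho R δ x : ℂ) * Complex.exp (((-1 * b * x : ℝ) : ℂ) * Complex.I) =
    (starRingEnd ℂ) (∫ x in Ioi (0 : ℝ), (rho R δ x : ℂ) * Complex.exp (((1 * b * x : ℝ) : ℂ) * Complex.I)) := by
  rw [← integral_conj]
  congr 1
  funext x
  rw [map_mul, Complex.conj_ofReal, ← Complex.exp_conj, map_mul, Complex.conj_ofReal, Complex.conj_I]
  congr 2
  push_cast; ring

theorem cos_term {R δ : ℝ} (hR : 1 ≤ R) (hδ : 0 < δ) (m : ℕ) (hm : 1 ≤ m) :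
    (dv m : ℂ) * (∫ t : ℝ, -2 * Qw (wl t) * (m : ℂ) ^ (-(wl t)) * KA R δ (1 + (2 * t : ℝ) * Complex.I)) =
      2 * Real.pi * (vt R δ m : ℂ) := by
  have hpi := Real.pi_pos
  have hR0 : 0 < R := by linarith
  have hm0 : (0 : ℝ) < m := by exact_mod_cast hm
  set a : ℝ := 4 * Real.pi * √(m : ℝ) with ha
  have hsm : 0 < √(m : ℝ) := Real.sqrt_pos.2 hm0
  have ha0 : 0 < a := by positivity
  set E : ℂ := Complex.exp ((3 * Real.pi / 4 : ℝ) * Complex.I) with hE
  set E' : ℂ := Complex.exp (-((3 * Real.pi / 4 : ℝ) * Complex.I)) with hE'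
  set K : ℝ := m ^ (-(3 / 4) : ℝ) * (1 / (Real.pi * √2)) with hK
  -- the integrand
  have hKreal : (2 : ℝ) ^ (5 / 2 : ℝ) * √Real.pi * Real.exp (-(3 / 2) * Real.log a) = K := by
    have h1 : Real.exp (-(3 / 2) * Real.log a) = a ^ (-(3 / 2) : ℝ) := by
      rw [Real.rpow_def_of_pos ha0]; congr 1; ring
    have h2 : a ^ (-(3 / 2) : ℝ) = (1 / 8) * Real.pi ^ (-(3 / 2) : ℝ) * (m : ℝ) ^ (-(3 / 4) : ℝ) := by
      rw [ha, Real.mul_rpow (by positivity) hsm.le, Real.mul_rpow (by norm_num) hpi.le,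
        Real.sqrt_eq_rpow, ← Real.rpow_mul hm0.le]
      have e1 : (4 : ℝ) ^ (-(3 / 2) : ℝ) = 1 / 8 := by
        rw [show (4 : ℝ) = 2 ^ (2 : ℝ) by norm_num, ← Real.rpow_mul (by norm_num)]
        norm_num
      rw [e1]
      norm_num
    have h3 : (2 : ℝ) ^ (5 / 2 : ℝ) = 4 * √2 := by
      rw [Real.sqrt_eq_rpow, show (5 / 2 : ℝ) = 2 + 1 / 2 by norm_num, Real.rpow_add (by norm_num)]
      norm_num
    have h4 : Real.pi ^ (-(3 / 2) : ℝ) * √Real.pi = 1 / Real.pi := by
      rw [Real.sqrt_eq_rpow, ← Real.rpow_add hpi]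
      norm_num
      rw [Real.rpow_neg_one]
    rw [h1, h2, h3, hK]
    have h5 : (√2) * √2 = 2 := Real.mul_self_sqrt (by norm_num)
    have h2p : (0 : ℝ) < √2 := by positivity
    calc 4 * √2 * √Real.pi * (1 / 8 * Real.pi ^ (-(3 / 2) : ℝ) * (m : ℝ) ^ (-(3 / 4) : ℝ))
        = (m : ℝ) ^ (-(3 / 4) : ℝ) * (Real.pi ^ (-(3 / 2) : ℝ) * √Real.pi) * (√2 / 2) := by ring
      _ = (m : ℝ) ^ (-(3 / 4) : ℝ) * (1 / Real.pi) * (√2 / 2) := by rw [h4]
      _ = (m : ℝ) ^ (-(3 / 4) : ℝ) * (1 / Real.pi) * (1 / √2) := by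
          congr 1
          rw [div_eq_div_iff (by norm_num) h2p.ne', h5]; norm_num
      _ = _ := by field_simp
  have hint : ∀ t : ℝ, -2 * Qw (wl t) * (m : ℂ) ^ (-(wl t)) * KA R δ (1 + (2 * t : ℝ) * Complex.I) =
      -(K : ℂ) * (E * Fz a R δ (1 * (Real.pi / 2)) (2 * t) + E' * Fz a R δ (-1 * (Real.pi / 2)) (2 * t)) := by
    intro t
    set z : ℂ := 1 + ((2 * t : ℝ) : ℂ) * Complex.I with hz
    have hw : 2 * wl t = z + 3 / 2 := by rw [hz]; unfold wl; push_cast; ring
    have hw' : wl t = z / 2 + 3 / 4 := by rw [hz]; unfold wl; push_cast; ring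
    have hmc : (m : ℂ) ≠ 0 := by exact_mod_cast hm0.ne'
    -- the exponentials
    have hpow : (4 * Real.pi : ℂ) ^ (-(2 * wl t)) * (m : ℂ) ^ (-(wl t)) =
        Complex.exp (-(z * (Real.log a : ℂ))) * (Real.exp (-(3 / 2) * Real.log a) : ℂ) := by
      have h4p : (4 * Real.pi : ℂ) = ((4 * Real.pi : ℝ) : ℂ) := by push_cast; ring
      have h4pne : ((4 * Real.pi : ℝ) : ℂ) ≠ 0 := by exact_mod_cast (by positivity : (4 * Real.pi : ℝ) ≠ 0)
      have hmr : (m : ℂ) = ((m : ℝ) : ℂ) := by push_cast; rfl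
      have hla : Real.log a = Real.log (4 * Real.pi) + Real.log m / 2 := by
        rw [ha, Real.log_mul (by positivity) hsm.ne', Real.log_sqrt hm0.le]
      rw [h4p, hmr, Complex.cpow_def_of_ne_zero h4pne, Complex.cpow_def_of_ne_zero (by rw [← hmr]; exact hmc),
        ← Complex.ofReal_log (by positivity), ← Complex.ofReal_log hm0.le, ← Complex.exp_add,
        Complex.ofReal_exp, ← Complex.exp_add, hw, hw', hla]
      congr 1
      push_cast
      ring
    have hQ : -2 * Qw (wl t) * (m : ℂ) ^ (-(wl t)) =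
        -2 * (K : ℂ) * Complex.exp (-(z * (Real.log a : ℂ))) * Complex.cos (Real.pi * wl t) * Complex.Gamma z := by
      unfold Qw
      have e1 : (2 : ℂ) ^ (5 / 2 : ℂ) = (((2 : ℝ) ^ (5 / 2 : ℝ) : ℝ) : ℂ) := by
        rw [Complex.ofReal_cpow (by norm_num)]; push_cast; rfl
      have e2 : 2 * wl t - 3 / 2 = z := by rw [hw]; ring
      rw [e1, e2, ← hKreal]
      push_cast
      push_cast at hpow
      linear_combination (-2 * ((2 : ℝ) ^ (5 / 2 : ℝ) : ℝ) * (√Real.pi : ℝ) * Complex.cos (Real.pi * wl t) * Complex.Gamma z : ℂ) * hpow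
    have hcos : 2 * Complex.cos (Real.pi * wl t) * Complex.exp (-(z * (Real.log a : ℂ))) =
        E * Complex.exp (z * (-(Real.log a : ℂ) + ((1 * (Real.pi / 2) : ℝ) : ℂ) * Complex.I)) +
        E' * Complex.exp (z * (-(Real.log a : ℂ) + ((-1 * (Real.pi / 2) : ℝ) : ℂ) * Complex.I)) := by
      rw [hE, hE', ← Complex.exp_add, ← Complex.exp_add, Complex.cos, hw']
      rw [mul_div_cancel₀ _ (two_ne_zero), add_mul, ← Complex.exp_add, ← Complex.exp_add]
      congr 2
      · push_cast; ring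
      · push_cast; ring
    unfold Fz
    rw [← hz, hQ]
    linear_combination (-(K : ℂ) * Complex.Gamma z * KA R δ z) * hcos
  -- integrate
  have hF1 := Fz_integrable (θ := 1 * (Real.pi / 2)) ha0 hR0 hδ (by rw [one_mul, abs_of_pos (by positivity)])
  have hF2 := Fz_integrable (θ := -1 * (Real.pi / 2)) ha0 hR0 hδ (by
    rw [abs_mul, abs_neg, abs_one, one_mul, abs_of_pos (by positivity)])
  have hc1 : Integrable fun t : ℝ => Fz a R δ (1 * (Real.pi / 2)) (2 * t) := hF1.comp_mul_left' (by norm_num)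
  have hc2 : Integrable fun t : ℝ => Fz a R δ (-1 * (Real.pi / 2)) (2 * t) := hF2.comp_mul_left' (by norm_num)
  set A : ℂ := ∫ x in Ioi (0 : ℝ), (rho R δ x : ℂ) * Complex.exp (((1 * a * x : ℝ) : ℂ) * Complex.I) with hA
  have hI1 : ∫ t : ℝ, Fz a R δ (1 * (Real.pi / 2)) (2 * t) = Real.pi * A := by
    rw [Measure.integral_comp_mul_left (fun τ => Fz a R δ (1 * (Real.pi / 2)) τ) 2, edge ha0 hR0 hδ (Or.inl rfl), ← hA]
    rw [abs_of_pos (by norm_num), Complex.real_smul]
    push_cast; ring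
  have hI2 : ∫ t : ℝ, Fz a R δ (-1 * (Real.pi / 2)) (2 * t) = Real.pi * (starRingEnd ℂ) A := by
    rw [Measure.integral_comp_mul_left (fun τ => Fz a R δ (-1 * (Real.pi / 2)) τ) 2, edge ha0 hR0 hδ (Or.inr rfl),
      conj_av, ← hA]
    rw [abs_of_pos (by norm_num), Complex.real_smul]
    push_cast; ring
  have hAval : A = ex (2 * √(m : ℝ) * R) * cf (2 * √(m : ℝ) * δ) ^ 2 := by
    rw [← av_exp hR0 hδ (by positivity : 0 < 2 * √(m : ℝ)), hA]
    congr 1
    funext x
    unfold ex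
    congr 4
    rw [ha]; ring
  simp_rw [hint]
  rw [integral_const_mul, integral_add (hc1.const_mul E) (hc2.const_mul E'), integral_const_mul, integral_const_mul,
    hI1, hI2]
  have hEc : E' = (starRingEnd ℂ) E := by
    rw [hE, hE', ← Complex.exp_conj, map_mul, Complex.conj_ofReal, Complex.conj_I]
    congr 1; ring
  have hEneg : E = -Complex.exp (-((Real.pi / 4 : ℝ) : ℂ) * Complex.I) := by
    rw [hE, ← Complex.ofReal_neg, Complex.exp_mul_I, Complex.exp_mul_I, ← Complex.ofReal_cos, ← Complex.ofReal_sin,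
      ← Complex.ofReal_cos, ← Complex.ofReal_sin, Real.cos_neg, Real.sin_neg]
    have e1 : 3 * Real.pi / 4 = Real.pi - Real.pi / 4 := by ring
    rw [e1, Real.cos_pi_sub, Real.sin_pi_sub]
    push_cast; ring
  have hre : E * (Real.pi * A) + E' * (Real.pi * (starRingEnd ℂ) A) = ((2 * Real.pi * (E * A).re : ℝ) : ℂ) := by
    have h1 : E * A + (starRingEnd ℂ) (E * A) = ((2 * (E * A).re : ℝ) : ℂ) := by
      rw [Complex.add_conj]
    rw [hEc]
    rw [map_mul] at h1
    push_cast at h1 ⊢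
    linear_combination (Real.pi : ℂ) * h1
  rw [hre]
  have hre2 : (E * A).re = -(Complex.exp (-((Real.pi / 4 : ℝ) : ℂ) * Complex.I) * ex (2 * √(m : ℝ) * R) *
      cf (2 * √(m : ℝ) * δ) ^ 2).re := by
    rw [hEneg, hAval, neg_mul, Complex.neg_re, ← mul_assoc]
  rw [hre2]
  unfold vt
  rw [hK]
  push_cast
  ring

end

end Pool.Agent.H387R2.Vor
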