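import Mathlib
import Pool.Agent.H361R2.GFinI
import Pool.Agent.H361R2.Ana
import Pool.Agent.H361R2.T1

/-! FB : contribution of the `n` having a small prime factor, general profile (port of MFin3). -/

namespace Pool.Agent.H361R2.GM

open Finset Filter Topology
open Pool.Agent.H410R2 hiding GP GP_prof GP_cut_some GP_cut_none GP_lip gg_pos gg_le_one gg_anti ee_bound ee_nonneg gg_lip LB_gg LB_ee Sums exists_sums yx wx wxi Br sum_GP_none sum_GP_some sum_GP_some_ee sum_GP_some_one sum_GPr_none sum_GPr_some S1_final QI_final S2_final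

variable {k : ℕ}

theorem NR_one (Q : SPar) (hT1 : S1Upper) {a b : Fin k → ℕ} {D v : ℕ} (hc : Ctx a b D v) (ε : ℝ)
    (hε : 0 < ε) (hI2 : 0 < Q.I2) (x : ℝ) (hx : 1 < x)
    (hS : Sums Q D ε (k + 1) (Lx x) (Lx x / 48) (Px D x)) (r : ℕ) (hr : r ∈ Px D x)
    (v' : ℕ) (hv' : r ∣ v') :
    ∑ n ∈ (Icc 1 ⌊x⌋₊).filter (fun n => n ≡ v' [MOD (r * WW D)]),
        Real.log (x / n) * (wx Q a b D x n) ^ 2 ≤
      (Real.log r / (Lx x / 48) + ((k + 1 : ℕ) : ℝ) / ((r : ℝ) - 1)) ^ 2 *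
        ((1 / (r : ℝ)) * (Q0 k D x * ((1 + ε) * (Q.I2 + ε) ^ k)) + E0 k D x) := by
  have hL := Lx_pos hx
  have hL0 : 0 < Lx x / 48 := by positivity
  have hprof := GP_prof Q k (Lx x) (Lx x / 48) hL hL0
  have hsd := hc.sd (Px D x) (Px_prime D x)
  have h := nonrough_one hT1 (prx D x) (LF a b) (WW D) v' hc.hW hsd ⟨r, hr⟩ none
    (fun n => rfl) hv' (GP Q k (Lx x) (Lx x / 48)) hprof (Lx x) (Lx x / 48) hL0
    (fun s u hs hu => GP_lip Q k _ _ hL0 s u hs hu)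
    (fun s hs hs' => GP_cut_none Q k _ _ s hs hs') x hx.le
  refine le_trans h ?_
  rw [prod_none_some _ _ _ (sum_GPr_none Q D x h1) (fun i => sum_GPr_some Q D x i h1), cardJ]
  apply mul_le_mul_of_nonneg_left _ (sq_nonneg _)
  apply add_le_add _ (le_of_eq rfl)
  have hB := hc.BDpos
  have hWpos : (0 : ℝ) < WW D := by exact_mod_cast hc.hW
  have hh1 : ∀ p ∈ Px D x, 0 ≤ h1 p := by
    intro p hp
    unfold h1
    positivity
  have hp0 : ∀ p ∈ Px D x, 0 < p := fun p hp => (Px_prime D x p hp).1.pos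
  have hr0 : (0 : ℝ) < r := by exact_mod_cast hp0 r hr
  have n2 : 0 ≤ SS (Px D x) h1 Q.c (Lx x) (fun t => Q.gg t ^ 2) :=
    SS_nonneg _ _ _ _ _ hh1 hp0 hL fun t _ => sq_nonneg _
  have n1 : 0 ≤ SS (Px D x) h1 1 (Lx x / 48) (fun _ => 1) :=
    SS_nonneg _ _ _ _ _ hh1 hp0 hL0 fun t _ => zero_le_one
  calc x / ((r : ℝ) * WW D) * (SS (Px D x) h1 1 (Lx x / 48) (fun _ => 1) *
        SS (Px D x) h1 Q.c (Lx x) (fun t => Q.gg t ^ 2) ^ k)
      ≤ x / ((r : ℝ) * WW D) * ((BD D * (Lx x / 48) * (1 + ε)) * (BD D * Lx x * (Q.I2 + ε)) ^ k) := by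
        have := hS.c
        have := hS.b
        gcongr
    _ = _ := by
        unfold Q0
        rw [mul_pow (BD D * Lx x) (Q.I2 + ε) k]
        field_simp

theorem sum_biUnion_le' {α β : Type*} [DecidableEq α] [DecidableEq β] (s : Finset α)
    (t : α → Finset β) (f : β → ℝ) (h : ∀ r ∈ s, ∀ n ∈ t r, 0 ≤ f n) :
    ∑ n ∈ s.biUnion t, f n ≤ ∑ r ∈ s, ∑ n ∈ t r, f n := by
  induction s using Finset.induction_on with
  | empty => simp
  | insert a s ha ih =>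
    rw [Finset.biUnion_insert, Finset.sum_insert ha]
    have h1 := ih fun r hr => h r (Finset.mem_insert_of_mem hr)
    have h2 := Finset.sum_union_inter (s₁ := t a) (s₂ := s.biUnion t) (f := f)
    have h3 : 0 ≤ ∑ n ∈ t a ∩ s.biUnion t, f n := by
      apply Finset.sum_nonneg
      intro n hn
      exact h a (Finset.mem_insert_self _ _) n (Finset.mem_inter.1 hn).1
    linarith

open Classical in
theorem NR_final (Q : SPar) (hT1 : S1Upper) {a b : Fin k → ℕ} {D v : ℕ} (hc : Ctx a b D v) (ε : ℝ)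
    (hε : 0 < ε) (hI2 : 0 < Q.I2) (η δ : ℝ) (hδ' : δ ≤ 24 / 100) (x : ℝ) (hx : 1 < x)
    (hS : Sums Q D ε (k + 1) (Lx x) (Lx x / 48) (Px D x))
    (hη : ∑ r ∈ PW D (x ^ δ), (1 / (r : ℝ)) *
      (Real.log r / ((1 / 200) * Real.log x) + ((k + 1 : ℕ) : ℝ) / ((r : ℝ) - 1)) ^ 2 ≤ η) :
    ∑ n ∈ (Icc 1 ⌊x⌋₊).filter
        (fun n => n ≡ v [MOD (WW D)] ∧ ∃ p : ℕ, p.Prime ∧ p ∣ n ∧ (p : ℝ) ≤ x ^ δ),
        Real.log (x / n) * (wx Q a b D x n) ^ 2 ≤
      η * (Q0 k D x * ((1 + ε) * (Q.I2 + ε) ^ k)) + x ^ δ * η * E0 k D x := by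
  classical
  have hx0 : 0 < x := by linarith
  have hL := Lx_pos hx
  have hLeq : Lx x / 48 = (1 / 200) * Real.log x := by unfold Lx; ring
  have hsub : PW D (x ^ δ) ⊆ Px D x := by
    intro p hp
    unfold Px
    unfold PW at hp ⊢
    rw [Finset.mem_filter, Finset.mem_Icc] at hp ⊢
    refine ⟨⟨hp.1.1, hp.1.2.trans ?_⟩, hp.2⟩
    apply Nat.floor_le_floor
    rw [exp_Lx' x hx0]
    exact Real.rpow_le_rpow_of_exponent_le hx.le hδ'
  have hcop : ∀ r ∈ PW D (x ^ δ), Nat.Coprime r (WW D) := by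
    intro r hr
    exact (hc.sd (Px D x) (Px_prime D x)).cop ⟨r, hsub hr⟩
  -- residue classes
  have hex : ∀ r ∈ PW D (x ^ δ), ∃ v' : ℕ, r ∣ v' ∧ ∀ n, n ≡ v [MOD (WW D)] → r ∣ n →
      n ≡ v' [MOD (r * WW D)] := by
    intro r hr
    obtain ⟨v', h1, h2⟩ := Nat.chineseRemainder (hcop r hr) 0 v
    refine ⟨v', (Nat.modEq_zero_iff_dvd.1 h1), fun n hn hrn => ?_⟩
    rw [← Nat.modEq_and_modEq_iff_modEq_mul (hcop r hr)]
    exact ⟨((Nat.modEq_zero_iff_dvd.2 hrn).trans h1.symm), hn.trans h2.symm⟩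
  choose! v' hv1 hv2 using hex
  have hnn : ∀ n ∈ Icc 1 ⌊x⌋₊, 0 ≤ Real.log (x / n) * (wx Q a b D x n) ^ 2 := by
    intro n hn
    rw [Finset.mem_Icc] at hn
    apply mul_nonneg _ (sq_nonneg _)
    apply Real.log_nonneg
    have h1 : (0 : ℝ) < n := by exact_mod_cast (by omega : 0 < n)
    rw [one_le_div h1]
    exact (Nat.cast_le.2 hn.2).trans (Nat.floor_le hx0.le)
  have hcov : ∑ n ∈ (Icc 1 ⌊x⌋₊).filter
        (fun n => n ≡ v [MOD (WW D)] ∧ ∃ p : ℕ, p.Prime ∧ p ∣ n ∧ (p : ℝ) ≤ x ^ δ),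
        Real.log (x / n) * (wx Q a b D x n) ^ 2 ≤
      ∑ r ∈ PW D (x ^ δ), ∑ n ∈ (Icc 1 ⌊x⌋₊).filter (fun n => n ≡ v' r [MOD (r * WW D)]),
        Real.log (x / n) * (wx Q a b D x n) ^ 2 := by
    calc _ ≤ ∑ n ∈ (PW D (x ^ δ)).biUnion (fun r =>
          (Icc 1 ⌊x⌋₊).filter (fun n => n ≡ v' r [MOD (r * WW D)])),
          Real.log (x / n) * (wx Q a b D x n) ^ 2 := by
          apply Finset.sum_le_sum_of_subset_of_nonneg
          · intro n hn
            rw [Finset.mem_filter] at hn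
            obtain ⟨hn1, hn2, p, hp, hpn, hpx⟩ := hn
            rw [Finset.mem_biUnion]
            have hpD : D < p := by
              by_contra hcon
              have h1 : p ∣ WW D := hc.hdvd p hp (not_lt.1 hcon)
              have h2 : n ≡ v [MOD p] := hn2.of_dvd h1
              have h3 : p ∣ v := (Nat.ModEq.dvd_iff h2 dvd_rfl).1 hpn
              have h4 : p ∣ Nat.gcd v (WW D) := Nat.dvd_gcd h3 h1
              rw [hc.vcop] at h4
              exact hp.one_lt.ne' (Nat.dvd_one.1 h4)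
            have hpP : p ∈ PW D (x ^ δ) := by
              unfold PW
              rw [Finset.mem_filter, Finset.mem_Icc]
              exact ⟨⟨hpD, Nat.le_floor hpx⟩, hp⟩
            exact ⟨p, hpP, Finset.mem_filter.2 ⟨hn1, hv2 p hpP n hn2 hpn⟩⟩
          · intro n hn _
            rw [Finset.mem_biUnion] at hn
            obtain ⟨r, _, hn⟩ := hn
            exact hnn n (Finset.mem_filter.1 hn).1
      _ ≤ _ := by
          apply sum_biUnion_le'
          intro r _ n hn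
          exact hnn n (Finset.mem_filter.1 hn).1
  refine le_trans hcov ?_
  have hE0 : 0 ≤ E0 k D x := by
    unfold E0
    have := Real.log_nonneg hx.le
    positivity
  have hterm : ∀ r ∈ PW D (x ^ δ), ∑ n ∈ (Icc 1 ⌊x⌋₊).filter (fun n => n ≡ v' r [MOD (r * WW D)]),
        Real.log (x / n) * (wx Q a b D x n) ^ 2 ≤
      ((1 / (r : ℝ)) * (Real.log r / ((1 / 200) * Real.log x) +
        ((k + 1 : ℕ) : ℝ) / ((r : ℝ) - 1)) ^ 2) *
        (Q0 k D x * ((1 + ε) * (Q.I2 + ε) ^ k) + x ^ δ * E0 k D x) := by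
    intro r hr
    have h1 := NR_one Q hT1 hc ε hε hI2 x hx hS r (hsub hr) (v' r) (hv1 r hr)
    rw [hLeq] at h1
    refine le_trans h1 ?_
    have hrp : (0 : ℝ) < r := by exact_mod_cast (Px_prime D x r (hsub hr)).1.pos
    have hrx : (r : ℝ) ≤ x ^ δ := by
      unfold PW at hr
      rw [Finset.mem_filter, Finset.mem_Icc] at hr
      exact (Nat.cast_le.2 hr.1.2).trans (Nat.floor_le (by positivity))
    have h2 : E0 k D x ≤ (1 / (r : ℝ)) * (x ^ δ * E0 k D x) := by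
      have : 1 ≤ (1 / (r : ℝ)) * x ^ δ := by
        rw [one_div, inv_mul_eq_div, one_le_div hrp]
        exact hrx
      nlinarith
    have h3 : 0 ≤ (Real.log r / ((1 / 200) * Real.log x) +
        ((k + 1 : ℕ) : ℝ) / ((r : ℝ) - 1)) ^ 2 := sq_nonneg _
    calc _ ≤ (Real.log r / ((1 / 200) * Real.log x) +
        ((k + 1 : ℕ) : ℝ) / ((r : ℝ) - 1)) ^ 2 * ((1 / (r : ℝ)) *
          (Q0 k D x * ((1 + ε) * (Q.I2 + ε) ^ k)) + (1 / (r : ℝ)) * (x ^ δ * E0 k D x)) := by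
          apply mul_le_mul_of_nonneg_left _ h3
          linarith
      _ = _ := by ring
  refine le_trans (Finset.sum_le_sum hterm) ?_
  rw [← Finset.sum_mul]
  have hQ : 0 ≤ Q0 k D x * ((1 + ε) * (Q.I2 + ε) ^ k) + x ^ δ * E0 k D x := by
    have hB := hc.BDpos
    unfold Q0
    positivity
  calc _ ≤ η * (Q0 k D x * ((1 + ε) * (Q.I2 + ε) ^ k) + x ^ δ * E0 k D x) :=
        mul_le_mul_of_nonneg_right hη hQ
    _ = _ := by ring

open Classical in
theorem fb : FB := by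
  intro Q k η hη
  obtain ⟨De, δ₀, hδ₀, hE⟩ := roughBound (1 / 200) (by norm_num) ((k + 1 : ℕ) : ℝ)
    (Nat.cast_nonneg _) η hη
  refine ⟨De, min δ₀ (1 / 100), lt_min hδ₀ (by norm_num), ?_⟩
  intro a b D v hD hctx ε hε hI2 δ hδ hδ1 hSums
  have hδ2 : δ ≤ 1 / 100 := hδ1.trans (min_le_right _ _)
  obtain ⟨xE, hxE⟩ := hE δ hδ (hδ1.trans (min_le_left _ _))
  filter_upwards [hSums, eventually_ge_atTop xE, E0_le prodBound k D,
    eventually_ge_atTop (Real.exp 1), ev_polylog η 0 (6 / 10) (3 / 4) (by norm_num)]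
    with x g2 g3 g4 g10 g11
  have hx0 : 0 < x := lt_of_lt_of_le (Real.exp_pos _) g10
  have hx1 : 1 < x := by
    have := Real.add_one_le_exp (1 : ℝ)
    linarith
  have hηb := hxE x g3 (PW D (x ^ δ)) (by
    intro p hp
    unfold PW at hp
    rw [Finset.mem_filter, Finset.mem_Icc] at hp
    exact ⟨hp.2, by omega, (Nat.cast_le.2 hp.1.2).trans (Nat.floor_le (by positivity))⟩)
  have hNR := NR_final Q s1Upper hctx ε hε hI2 η δ (by linarith) x hx1 g2 hηb
  refine hNR.trans ?_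
  have hE0' : (0 : ℝ) ≤ E0 k D x := by
    unfold E0
    have := Real.log_nonneg hx1.le
    positivity
  have hxd : x ^ δ * x ^ (1 / 2 : ℝ) ≤ x ^ (6 / 10 : ℝ) := by
    rw [← Real.rpow_add hx0]
    exact Real.rpow_le_rpow_of_exponent_le hx1.le (by linarith only [hδ2])
  have h4 : x ^ δ * E0 k D x ≤ x ^ (6 / 10 : ℝ) :=
    le_trans (mul_le_mul_of_nonneg_left g4 (Real.rpow_nonneg hx0.le δ)) hxd
  have h5 : x ^ δ * η * E0 k D x ≤ x ^ (3 / 4 : ℝ) := by
    have e : x ^ δ * η * E0 k D x = η * (x ^ δ * E0 k D x) := by ring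
    rw [e]
    refine (mul_le_mul_of_nonneg_left h4 hη.le).trans ?_
    simpa using g11
  have e2 : η * (Q0 k D x * ((1 + ε) * (Q.I2 + ε) ^ k)) =
      η * Q0 k D x * ((1 + ε) * (Q.I2 + ε) ^ k) := by ring
  rw [e2]
  linarith

end Pool.Agent.H361R2.GM
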