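import Pool.Agent.H345R2.Defs

/-! TEAM AH, module Gram, part A: the closed form of `JJ`. -/

open Complex Filter Topology Set MeasureTheory

namespace H345

lemma gr_int_pow (k : ℕ) (R : ℂ) (hR : 0 < R.re) :
    IntegrableOn (fun y : ℝ => (y : ℂ) ^ k * cexp (-(R * y))) (Ioi 0) := by
  have h := integrableOn_rpow_mul_exp_neg_mul_rpow (p := 1) (s := (k : ℝ)) (b := R.re)
    (by have : (0 : ℝ) ≤ k := Nat.cast_nonneg k
        linarith) one_pos hR
  refine Integrable.mono' h ?_ ?_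
  · exact (by fun_prop : Continuous (fun y : ℝ => (y : ℂ) ^ k * cexp (-(R * y)))).aestronglyMeasurable
  · refine (ae_restrict_iff' measurableSet_Ioi).mpr (ae_of_all _ fun y hy => ?_)
    have hy' : (0 : ℝ) < y := hy
    rw [norm_mul, norm_pow, Complex.norm_real, Complex.norm_exp, Real.norm_of_nonneg hy'.le,
      Real.rpow_natCast, Real.rpow_one]
    simp

lemma gr_tendsto (k : ℕ) (R : ℂ) (hR : 0 < R.re) :
    Tendsto (fun y : ℝ => (y : ℂ) ^ k * cexp (-(R * y))) atTop (𝓝 0) := by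
  rw [tendsto_zero_iff_norm_tendsto_zero]
  have h := tendsto_rpow_mul_exp_neg_mul_atTop_nhds_zero (k : ℝ) R.re hR
  refine h.congr' ?_
  filter_upwards [eventually_gt_atTop (0 : ℝ)] with y hy
  rw [norm_mul, norm_pow, Complex.norm_real, Complex.norm_exp, Real.norm_of_nonneg hy.le,
      Real.rpow_natCast]
  simp

lemma gr_gamma (k : ℕ) (R : ℂ) (hR : 0 < R.re) :
    ∫ y in Ioi (0 : ℝ), (y : ℂ) ^ k * cexp (-(R * y)) = (k.factorial : ℂ) / R ^ (k + 1) := by
  have hR0 : R ≠ 0 := by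
    rintro rfl
    simp at hR
  have hexp : ∀ y : ℝ, HasDerivAt (fun y : ℝ => cexp (-(R * y))) (-R * cexp (-(R * y))) y := by
    intro y
    have h1 : HasDerivAt (fun y : ℝ => -(R * (y : ℂ))) (-R) y := by
      have := (Complex.ofRealCLM.hasDerivAt (x := y)).const_mul R
      simpa using this.fun_neg
    have := h1.cexp
    rw [mul_comm] at this
    exact this
  induction k with
  | zero =>
    have h1 : ∀ y ∈ Ici (0 : ℝ), HasDerivAt (fun y : ℝ => -(cexp (-(R * y))) / R)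
        ((y : ℂ) ^ 0 * cexp (-(R * y))) y := by
      intro y _
      refine ((hexp y).neg.div_const R).congr_deriv ?_
      field_simp
    have h2 : Tendsto (fun y : ℝ => -(cexp (-(R * y))) / R) atTop (𝓝 0) := by
      have := ((gr_tendsto 0 R hR).neg.div_const R)
      simpa using this
    rw [integral_Ioi_of_hasDerivAt_of_tendsto' h1 (gr_int_pow 0 R hR) h2]
    simp [neg_div]
  | succ k ih =>
    have h1 : ∀ y ∈ Ici (0 : ℝ), HasDerivAt (fun y : ℝ => (y : ℂ) ^ (k + 1) * cexp (-(R * y)))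
        (((k + 1 : ℕ) : ℂ) * ((y : ℂ) ^ k * cexp (-(R * y))) -
          R * ((y : ℂ) ^ (k + 1) * cexp (-(R * y)))) y := by
      intro y _
      have hp : HasDerivAt (fun y : ℝ => (y : ℂ) ^ (k + 1)) (((k + 1 : ℕ) : ℂ) * (y : ℂ) ^ k) y := by
        have := (Complex.ofRealCLM.hasDerivAt (x := y)).fun_pow (k + 1)
        simpa using this
      refine (hp.mul (hexp y)).congr_deriv ?_
      ring
    have hi : IntegrableOn (fun y : ℝ => ((k + 1 : ℕ) : ℂ) * ((y : ℂ) ^ k * cexp (-(R * y))) -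
          R * ((y : ℂ) ^ (k + 1) * cexp (-(R * y)))) (Ioi 0) :=
      ((gr_int_pow k R hR).const_mul _).sub ((gr_int_pow (k + 1) R hR).const_mul _)
    have h3 := integral_Ioi_of_hasDerivAt_of_tendsto' h1 hi (gr_tendsto (k + 1) R hR)
    rw [integral_sub ((gr_int_pow k R hR).const_mul _) ((gr_int_pow (k + 1) R hR).const_mul _),
      integral_const_mul, integral_const_mul, ih] at h3
    simp only [ofReal_zero, ne_eq, Nat.add_eq_zero_iff, one_ne_zero, and_false, not_false_eq_true,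
      zero_pow, zero_mul, sub_self] at h3
    have h4 : R * ∫ y in Ioi (0 : ℝ), (y : ℂ) ^ (k + 1) * cexp (-(R * y)) =
        ((k + 1 : ℕ) : ℂ) * ((k.factorial : ℂ) / R ^ (k + 1)) := by
      linear_combination -h3
    rw [Nat.factorial_succ]
    field_simp at h4 ⊢
    push_cast at h4 ⊢
    linear_combination h4

/-- the summand of `DD` on the curve -/
noncomputable def gaa (c : ℝ) (A : ℕ) (y : ℝ) (n : ℕ) : ℂ :=
  (ArithmeticFunction.moebius n : ℂ) * (n : ℂ) ^ (-(1 / 2 : ℂ) - ((y / c : ℝ) : ℂ) * I) *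
    (ker true A (y / n) : ℂ)

/-- the complex frequency -/
noncomputable def gRR (c : ℝ) (A : ℕ) (Y : ℝ) (n m : ℕ) : ℂ :=
  ((A / n + A / m + 1 / Y : ℝ) : ℂ) - ((Real.log m - Real.log n) / c : ℝ) * I

/-- the kernel of the quadratic form -/
noncomputable def gZZ (c : ℝ) (A : ℕ) (Y : ℝ) (n m : ℕ) : ℂ :=
  (Real.sqrt (n * m) : ℂ) * gRR c A Y n m / (2 * A)

noncomputable def gpf (A : ℕ) : ℝ :=
  Real.exp (2 * A) * (2 * A).factorial / (2 * A : ℝ) ^ (2 * A + 1)

lemma gr_kap (A : ℕ) (y : ℝ) (n : ℕ) :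
    ker true A (y / n) = Real.exp A * (y / n) ^ A * Real.exp (-(A / n * y)) := by
  unfold ker kap
  simp only [if_true]
  rw [mul_pow, ← Real.exp_nat_mul]
  have : (A : ℝ) * (1 - y / n) = A + (-(A / n * y)) := by ring
  rw [this, Real.exp_add]
  ring

lemma gaa_zero (c : ℝ) (A : ℕ) (y : ℝ) : gaa c A y 0 = 0 := by
  simp [gaa]

lemma gr_cpow (n : ℕ) (hn : 0 < n) (T : ℝ) :
    (n : ℂ) ^ (-(1 / 2 : ℂ) - (T : ℂ) * I) =
      cexp (((-(Real.log n) / 2 : ℝ) : ℂ) - (T * Real.log n : ℝ) * I) := by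
  rw [Complex.cpow_def_of_ne_zero (by exact_mod_cast hn.ne'), ← Complex.natCast_log]
  congr 1
  push_cast
  ring

lemma gr_prod (c : ℝ) (A : ℕ) (Y y : ℝ) (n m : ℕ) (hn : 0 < n) (hm : 0 < m) :
    gaa c A y n * (starRingEnd ℂ) (gaa c A y m) * (Real.exp (-y / Y) : ℂ) =
      ((ArithmeticFunction.moebius n * ArithmeticFunction.moebius m : ℤ) : ℂ) *
      ((Real.exp (2 * A) * ((1 / n) ^ A * (1 / m) ^ A) *
        Real.exp (-(Real.log n + Real.log m) / 2) : ℝ) : ℂ) *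
      ((y : ℂ) ^ (2 * A) * cexp (-(gRR c A Y n m * y))) := by
  unfold gaa
  rw [gr_cpow n hn, gr_cpow m hm, gr_kap, gr_kap]
  have e1 : cexp (-(gRR c A Y n m * y)) =
      cexp (((-(A / n * y) : ℝ) : ℂ)) * cexp (((-(A / m * y) : ℝ) : ℂ)) *
      cexp (((-y / Y : ℝ) : ℂ)) * cexp (-((y / c * Real.log n : ℝ) * I)) *
      cexp ((y / c * Real.log m : ℝ) * I) := by
    rw [← Complex.exp_add, ← Complex.exp_add, ← Complex.exp_add, ← Complex.exp_add]
    congr 1
    unfold gRR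
    push_cast
    ring
  have e2 : cexp (((-(Real.log n) / 2 : ℝ) : ℂ) - (y / c * Real.log n : ℝ) * I) =
      cexp ((-(Real.log n) / 2 : ℝ) : ℂ) * cexp (-((y / c * Real.log n : ℝ) * I)) := by
    rw [← Complex.exp_add]; congr 1
  have e3 : (starRingEnd ℂ) (cexp (((-(Real.log m) / 2 : ℝ) : ℂ) - (y / c * Real.log m : ℝ) * I)) =
      cexp ((-(Real.log m) / 2 : ℝ) : ℂ) * cexp ((y / c * Real.log m : ℝ) * I) := by
    rw [← Complex.exp_conj, ← Complex.exp_add]
    congr 1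
    simp only [map_sub, map_mul, conj_ofReal, conj_I]
    ring
  have e4 : ((Real.exp (-(Real.log n + Real.log m) / 2) : ℝ) : ℂ) =
      cexp ((-(Real.log n) / 2 : ℝ) : ℂ) * cexp ((-(Real.log m) / 2 : ℝ) : ℂ) := by
    rw [← Complex.exp_add, Complex.ofReal_exp]
    congr 1
    push_cast; ring
  rw [map_mul, map_mul, e2, e3, e1]
  have e5 : ((Real.exp (2 * A) * ((1 / n) ^ A * (1 / m) ^ A) *
        Real.exp (-(Real.log n + Real.log m) / 2) : ℝ) : ℂ) =
      (Real.exp A : ℂ) * (Real.exp A : ℂ) * ((1 / n : ℂ) ^ A * (1 / m : ℂ) ^ A) *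
      (cexp ((-(Real.log n) / 2 : ℝ) : ℂ) * cexp ((-(Real.log m) / 2 : ℝ) : ℂ)) := by
    rw [← e4]
    have : Real.exp (2 * A) = Real.exp A * Real.exp A := by rw [← Real.exp_add]; congr 1; ring
    rw [this]
    push_cast
    ring
  rw [e5]
  simp only [map_intCast, conj_ofReal]
  push_cast
  rw [div_eq_mul_one_div (y : ℂ) (n : ℂ), div_eq_mul_one_div (y : ℂ) (m : ℂ), mul_pow, mul_pow]
  ring

lemma gaa_norm_le (c : ℝ) (A : ℕ) (y : ℝ) (hy : 0 < y) (n : ℕ) :
    ‖gaa c A y n‖ ≤ Real.exp A * y ^ A * (1 / n) ^ A * Real.exp (-(A / n * y)) := by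
  rcases Nat.eq_zero_or_pos n with rfl | hn
  · rw [gaa_zero, norm_zero]; positivity
  have hn' : (0 : ℝ) < n := by exact_mod_cast hn
  have hn1 : (1 : ℝ) ≤ n := by exact_mod_cast hn
  unfold gaa
  rw [gr_cpow n hn, gr_kap, norm_mul, norm_mul, Complex.norm_exp, Complex.norm_real,
    Real.norm_of_nonneg (by positivity)]
  have h1 : ‖((ArithmeticFunction.moebius n : ℤ) : ℂ)‖ ≤ 1 := by
    rw [Complex.norm_intCast]
    exact_mod_cast ArithmeticFunction.abs_moebius_le_one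
  have h2 : Real.exp ((((-(Real.log n) / 2 : ℝ) : ℂ) - (y / c * Real.log n : ℝ) * I).re) ≤ 1 := by
    rw [Real.exp_le_one_iff]
    have := Real.log_nonneg hn1
    simp only [sub_re, ofReal_re, mul_re, ofReal_im, I_re, I_im]
    linarith
  calc _ ≤ 1 * 1 * (Real.exp A * (y / n) ^ A * Real.exp (-(A / n * y))) := by gcongr
    _ = Real.exp A * y ^ A * (1 / n) ^ A * Real.exp (-(A / n * y)) := by
        rw [div_eq_mul_one_div, mul_pow]; ring

lemma gaa_norm_le' (c : ℝ) (A : ℕ) (y : ℝ) (hy : 0 < y) (n : ℕ) :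
    ‖gaa c A y n‖ ≤ Real.exp A * y ^ A * (1 / n) ^ A := by
  refine (gaa_norm_le c A y hy n).trans ?_
  have : Real.exp (-(A / n * y)) ≤ 1 := by
    rw [Real.exp_le_one_iff]
    have : 0 ≤ (A : ℝ) / n * y := by positivity
    linarith
  calc _ ≤ Real.exp A * y ^ A * (1 / n) ^ A * 1 := by gcongr
    _ = _ := mul_one _

lemma gaa_summable (c : ℝ) (A : ℕ) (hA : 2 ≤ A) (y : ℝ) (hy : 0 < y) :
    Summable (fun n => ‖gaa c A y n‖) := by
  refine Summable.of_nonneg_of_le (fun _ => norm_nonneg _) (gaa_norm_le' c A y hy) ?_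
  have : Summable (fun n : ℕ => (1 / (n : ℝ)) ^ A) := by
    have := Real.summable_one_div_nat_pow (p := A)
    simp only [one_div, inv_pow] at this ⊢
    exact this.mpr (by omega)
  exact this.mul_left _

lemma DD_eq (c : ℝ) (A : ℕ) (y : ℝ) : DD true A y (y / c) = ∑' n, gaa c A y n := rfl

noncomputable def gF (c : ℝ) (A : ℕ) (Y : ℝ) (p : ℕ × ℕ) (y : ℝ) : ℂ :=
  gaa c A y p.1 * (starRingEnd ℂ) (gaa c A y p.2) * (Real.exp (-y / Y) : ℂ)

lemma gF_sum (c : ℝ) (A : ℕ) (hA : 2 ≤ A) (Y y : ℝ) (hy : 0 < y) :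
    ∑' p, gF c A Y p y = ((‖DD true A y (y / c)‖ ^ 2 * Real.exp (-y / Y) : ℝ) : ℂ) := by
  have hs := gaa_summable c A hA y hy
  have h1 := tsum_mul_tsum_of_summable_norm hs
    (g := fun n => (starRingEnd ℂ) (gaa c A y n)) (by simpa using hs)
  unfold gF
  rw [tsum_mul_right, ← h1, ← Complex.conj_tsum, ← DD_eq, Complex.mul_conj, Complex.normSq_eq_norm_sq]
  push_cast
  ring

lemma gRR_re_pos (c : ℝ) (A : ℕ) (Y : ℝ) (hY : 0 < Y) (n m : ℕ) : 0 < (gRR c A Y n m).re := by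
  unfold gRR
  simp only [sub_re, ofReal_re, mul_re, ofReal_im, I_re, I_im]
  have : 0 < (A : ℝ) / n + A / m + 1 / Y := by positivity
  linarith

lemma gF_int (c : ℝ) (A : ℕ) (Y : ℝ) (hY : 0 < Y) (p : ℕ × ℕ) :
    IntegrableOn (gF c A Y p) (Ioi 0) := by
  obtain ⟨n, m⟩ := p
  rcases Nat.eq_zero_or_pos n with rfl | hn
  · have : gF c A Y (0, m) = fun _ => 0 := by
      ext y; simp [gF, gaa_zero]
    rw [this]
    exact integrableOn_zero
  rcases Nat.eq_zero_or_pos m with rfl | hm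
  · have : gF c A Y (n, 0) = fun _ => 0 := by
      ext y; simp [gF, gaa_zero]
    rw [this]
    exact integrableOn_zero
  have : gF c A Y (n, m) = fun y : ℝ =>
      ((ArithmeticFunction.moebius n * ArithmeticFunction.moebius m : ℤ) : ℂ) *
      ((Real.exp (2 * A) * ((1 / n) ^ A * (1 / m) ^ A) *
        Real.exp (-(Real.log n + Real.log m) / 2) : ℝ) : ℂ) *
      ((y : ℂ) ^ (2 * A) * cexp (-(gRR c A Y n m * y))) := by
    ext y
    exact gr_prod c A Y y n m hn hm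
  rw [this]
  exact (gr_int_pow _ _ (gRR_re_pos c A Y hY n m)).const_mul _

lemma gF_norm_le (c : ℝ) (A : ℕ) (Y : ℝ) (p : ℕ × ℕ) (y : ℝ) (hy : 0 < y) :
    ‖gF c A Y p y‖ ≤ Real.exp (2 * A) * ((1 / p.1) ^ A * (1 / p.2) ^ A) *
      (y ^ (2 * A) * Real.exp (-(1 / Y * y))) := by
  unfold gF
  rw [norm_mul, norm_mul, RCLike.norm_conj, Complex.norm_real, Real.norm_of_nonneg (Real.exp_nonneg _)]
  have h1 := gaa_norm_le' c A y hy p.1
  have h2 := gaa_norm_le' c A y hy p.2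
  calc _ ≤ (Real.exp A * y ^ A * (1 / p.1) ^ A) * (Real.exp A * y ^ A * (1 / p.2) ^ A) *
        Real.exp (-y / Y) := by gcongr
    _ = _ := by
        have : Real.exp (2 * A) = Real.exp A * Real.exp A := by rw [← Real.exp_add]; congr 1; ring
        rw [this, pow_mul', pow_two]
        have : -y / Y = -(1 / Y * y) := by ring
        rw [this]
        ring

lemma gr_real_int (k : ℕ) (r : ℝ) (hr : 0 < r) :
    IntegrableOn (fun y : ℝ => y ^ k * Real.exp (-(r * y))) (Ioi 0) := by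
  have h := integrableOn_rpow_mul_exp_neg_mul_rpow (p := 1) (s := (k : ℝ)) (b := r)
    (by have : (0 : ℝ) ≤ k := Nat.cast_nonneg k
        linarith) one_pos hr
  refine h.congr_fun (fun y hy => ?_) measurableSet_Ioi
  simp

lemma gF_summable (c : ℝ) (A : ℕ) (hA : 2 ≤ A) (Y : ℝ) (hY : 0 < Y) :
    Summable (fun p => ∫ y in Ioi (0 : ℝ), ‖gF c A Y p y‖) := by
  have hb : ∀ p : ℕ × ℕ, ∫ y in Ioi (0 : ℝ), ‖gF c A Y p y‖ ≤
      ((1 / p.1) ^ A * (1 / p.2) ^ A) *
      (Real.exp (2 * A) * ∫ y in Ioi (0 : ℝ), (y ^ (2 * A) * Real.exp (-(1 / Y * y)))) := by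
    intro p
    have h1 : ((1 / (p.1 : ℝ)) ^ A * (1 / (p.2 : ℝ)) ^ A) *
      (Real.exp (2 * A) * ∫ y in Ioi (0 : ℝ), (y ^ (2 * A) * Real.exp (-(1 / Y * y)))) =
      ∫ y in Ioi (0 : ℝ), Real.exp (2 * A) * ((1 / p.1) ^ A * (1 / p.2) ^ A) *
      (y ^ (2 * A) * Real.exp (-(1 / Y * y))) := by
      rw [integral_const_mul]; ring
    rw [h1]
    refine setIntegral_mono_on (gF_int c A Y hY p).norm
      ((gr_real_int _ _ (by positivity)).const_mul _) measurableSet_Ioi (fun y hy => ?_)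
    exact gF_norm_le c A Y p y hy
  refine Summable.of_nonneg_of_le (fun p => integral_nonneg fun _ => norm_nonneg _) hb ?_
  have h2 : Summable (fun n : ℕ => (1 / (n : ℝ)) ^ A) := by
    have := Real.summable_one_div_nat_pow (p := A)
    simp only [one_div, inv_pow] at this ⊢
    exact this.mpr (by omega)
  have h3 : Summable (fun p : ℕ × ℕ => (1 / (p.1 : ℝ)) ^ A * (1 / (p.2 : ℝ)) ^ A) :=
    h2.mul_of_nonneg h2 (fun _ => by positivity) (fun _ => by positivity)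
  exact h3.mul_right _

lemma gr_coeff (c : ℝ) (A : ℕ) (hA : 1 ≤ A) (Y : ℝ) (hY : 0 < Y) (n m : ℕ) (hn : 0 < n) (hm : 0 < m) :
    ((Real.exp (2 * A) * ((1 / n) ^ A * (1 / m) ^ A) *
        Real.exp (-(Real.log n + Real.log m) / 2) : ℝ) : ℂ) *
      (((2 * A).factorial : ℂ) / (gRR c A Y n m) ^ (2 * A + 1)) =
    (gpf A : ℂ) * ((gZZ c A Y n m) ^ (2 * A + 1))⁻¹ := by
  have hn' : (0 : ℝ) < n := by exact_mod_cast hn
  have hm' : (0 : ℝ) < m := by exact_mod_cast hm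
  have hR : gRR c A Y n m ≠ 0 := by
    intro h
    have := gRR_re_pos c A Y hY n m
    rw [h] at this; simp at this
  have hsq : (Real.sqrt (n * m)) ^ (2 * A + 1) = (n : ℝ) ^ A * (m : ℝ) ^ A * Real.sqrt (n * m) := by
    rw [pow_succ, pow_mul, Real.sq_sqrt (by positivity), mul_pow]
  have hex : Real.exp (-(Real.log n + Real.log m) / 2) = (Real.sqrt (n * m))⁻¹ := by
    rw [← Real.log_mul hn'.ne' hm'.ne', neg_div, Real.exp_neg, Real.exp_half,
      Real.exp_log (by positivity)]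
  have hs0 : Real.sqrt (n * m) ≠ 0 := by positivity
  have hA0 : (A : ℂ) ≠ 0 := by exact_mod_cast (by omega : A ≠ 0)
  have hn0 : (n : ℂ) ≠ 0 := by exact_mod_cast hn.ne'
  have hm0 : (m : ℂ) ≠ 0 := by exact_mod_cast hm.ne'
  have hs0' : ((Real.sqrt (n * m) : ℝ) : ℂ) ≠ 0 := by exact_mod_cast hs0
  have hsq' : ((Real.sqrt (n * m) : ℝ) : ℂ) ^ (2 * A + 1) =
      (n : ℂ) ^ A * (m : ℂ) ^ A * ((Real.sqrt (n * m) : ℝ) : ℂ) := by exact_mod_cast hsq
  unfold gpf gZZ
  rw [hex]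
  have e : (((Real.sqrt (n * m) : ℝ) : ℂ) * gRR c A Y n m / (2 * A)) ^ (2 * A + 1) =
      ((n : ℂ) ^ A * (m : ℂ) ^ A * ((Real.sqrt (n * m) : ℝ) : ℂ)) *
      gRR c A Y n m ^ (2 * A + 1) / (2 * A : ℂ) ^ (2 * A + 1) := by
    rw [div_pow, mul_pow, hsq']
  rw [e]
  push_cast
  generalize ((Real.sqrt (n * m) : ℝ) : ℂ) = q at *
  generalize gRR c A Y n m = R at *
  simp only [one_div, inv_pow]
  field_simp

lemma JJ_hasSum (c : ℝ) (A : ℕ) (hA : 2 ≤ A) (Y : ℝ) (hY : 0 < Y) :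
    HasSum (fun p : ℕ × ℕ =>
      ((ArithmeticFunction.moebius p.1 * ArithmeticFunction.moebius p.2 : ℤ) : ℂ) *
      ((gpf A : ℂ) * ((gZZ c A Y p.1 p.2) ^ (2 * A + 1))⁻¹)) (JJ c A Y : ℂ) := by
  have h := hasSum_integral_of_summable_integral_norm (fun p => gF_int c A Y hY p)
    (gF_summable c A hA Y hY)
  have h1 : ∫ y in Ioi (0 : ℝ), ∑' p, gF c A Y p y = (JJ c A Y : ℂ) := by
    unfold JJ
    rw [← integral_complex_ofReal]
    refine setIntegral_congr_fun measurableSet_Ioi (fun y hy => ?_)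
    exact gF_sum c A hA Y y hy
  rw [h1] at h
  have h2 : (fun p : ℕ × ℕ =>
      ((ArithmeticFunction.moebius p.1 * ArithmeticFunction.moebius p.2 : ℤ) : ℂ) *
      ((gpf A : ℂ) * ((gZZ c A Y p.1 p.2) ^ (2 * A + 1))⁻¹)) =
      fun p => ∫ y in Ioi (0 : ℝ), gF c A Y p y := by
    ext p
    obtain ⟨n, m⟩ := p
    rcases Nat.eq_zero_or_pos n with rfl | hn
    · have : gF c A Y (0, m) = fun _ => 0 := by
        ext y; simp [gF, gaa_zero]
      rw [this]; simp
    rcases Nat.eq_zero_or_pos m with rfl | hm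
    · have : gF c A Y (n, 0) = fun _ => 0 := by
        ext y; simp [gF, gaa_zero]
      rw [this]; simp
    have : gF c A Y (n, m) = fun y : ℝ =>
        ((ArithmeticFunction.moebius n * ArithmeticFunction.moebius m : ℤ) : ℂ) *
        ((Real.exp (2 * A) * ((1 / n) ^ A * (1 / m) ^ A) *
          Real.exp (-(Real.log n + Real.log m) / 2) : ℝ) : ℂ) *
        ((y : ℂ) ^ (2 * A) * cexp (-(gRR c A Y n m * y))) := by
      ext y
      exact gr_prod c A Y y n m hn hm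
    rw [this, integral_const_mul, gr_gamma _ _ (gRR_re_pos c A Y hY n m), mul_assoc,
      gr_coeff c A (by omega) Y hY n m hn hm]
  rw [h2]
  exact h

end H345
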