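import Pool.Agent.H345R2.Defs

/-! TEAM AH, module Gram, part B: the key exponential approximation. -/

open Complex Filter Topology Set MeasureTheory

namespace H345

lemma gr_exp_sub (a b : ℂ) (M : ℝ) (ha : a.re ≤ M) (hb : b.re ≤ M) :
    ‖cexp a - cexp b‖ ≤ Real.exp M * ‖a - b‖ := by
  have hconv : Convex ℝ {z : ℂ | z.re ≤ M} := convex_halfSpace_re_le M
  refine hconv.norm_image_sub_le_of_norm_hasDerivWithin_le (f := cexp) (f' := cexp)
    (fun z _ => (Complex.hasDerivAt_exp z).hasDerivWithinAt) (fun z hz => ?_) hb ha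
  rw [Complex.norm_exp]
  exact Real.exp_le_exp.mpr hz

lemma gr_log (u : ℂ) (hu : 0 ≤ u.re) : ‖Complex.log (1 + u) - u + u ^ 2 / 2‖ ≤ ‖u‖ ^ 3 := by
  have hconv : Convex ℝ (segment ℝ (0 : ℂ) u) := convex_segment _ _
  have hseg : ∀ z ∈ segment ℝ (0 : ℂ) u, 0 ≤ z.re ∧ ‖z‖ ≤ ‖u‖ := by
    intro z hz
    rw [segment_eq_image] at hz
    obtain ⟨θ, ⟨h0, h1⟩, rfl⟩ := hz
    simp only [smul_zero, zero_add]
    constructor
    · simp only [real_smul, mul_re, ofReal_re, ofReal_im, zero_mul, sub_zero]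
      positivity
    · rw [norm_smul, Real.norm_of_nonneg h0]
      nlinarith [norm_nonneg u]
  have hd : ∀ z ∈ segment ℝ (0 : ℂ) u, HasDerivWithinAt
      (fun z : ℂ => Complex.log (1 + z) - z + z ^ 2 / 2) (z ^ 2 / (1 + z)) (segment ℝ (0 : ℂ) u) z := by
    intro z hz
    have hz' := (hseg z hz).1
    have hs : (1 + z) ∈ slitPlane := by
      left; simp; linarith
    have hne : (1 + z) ≠ 0 := slitPlane_ne_zero hs
    have h1 : HasDerivAt (fun z : ℂ => 1 + z) 1 z := by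
      simpa using (hasDerivAt_id z).const_add 1
    have h2 := h1.clog hs
    have h3 : HasDerivAt (fun z : ℂ => z ^ 2 / 2) z z := by
      have := ((hasDerivAt_id z).fun_pow 2).div_const 2
      refine this.congr_deriv ?_
      simp
    have h4 := (h2.fun_sub (hasDerivAt_id z)).fun_add h3
    refine (h4.congr_deriv ?_).hasDerivWithinAt
    field_simp
    ring
  have hb : ∀ z ∈ segment ℝ (0 : ℂ) u, ‖z ^ 2 / (1 + z)‖ ≤ ‖u‖ ^ 2 := by
    intro z hz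
    obtain ⟨h0, h1⟩ := hseg z hz
    have h2 : 1 ≤ ‖1 + z‖ := by
      calc (1 : ℝ) ≤ (1 + z).re := by simp; linarith
        _ ≤ ‖1 + z‖ := Complex.re_le_norm _
    rw [norm_div, norm_pow]
    calc ‖z‖ ^ 2 / ‖1 + z‖ ≤ ‖z‖ ^ 2 / 1 := by gcongr
      _ ≤ ‖u‖ ^ 2 := by rw [div_one]; gcongr
  have := hconv.norm_image_sub_le_of_norm_hasDerivWithin_le hd hb (left_mem_segment ℝ _ _)
    (right_mem_segment ℝ _ _)
  simp only [add_zero, Complex.log_one, sub_zero, ne_eq, OfNat.ofNat_ne_zero, not_false_eq_true,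
    zero_pow, zero_div] at this
  calc _ ≤ ‖u‖ ^ 2 * ‖u‖ := this
    _ = ‖u‖ ^ 3 := by ring

lemma gr_pow7 (A : ℕ) (hA : 7 ≤ A) (z : ℝ) (hz : 0 ≤ z) : (1 + z / 7) ^ 7 ≤ (1 + z / A) ^ A := by
  have hA' : (7 : ℝ) ≤ A := by exact_mod_cast hA
  have h1 := one_add_mul_self_le_rpow_one_add (s := z / A) (by have : 0 ≤ z / A := by positivity
                                                               linarith)
    (p := A / 7) (by linarith)
  have h2 : 1 + (A : ℝ) / 7 * (z / A) = 1 + z / 7 := by field_simp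
  rw [h2] at h1
  calc (1 + z / 7) ^ 7 ≤ ((1 + z / A) ^ ((A : ℝ) / 7)) ^ 7 := by gcongr
    _ = (1 + z / A) ^ A := by
        rw [← Real.rpow_natCast, ← Real.rpow_mul (by positivity), ← Real.rpow_natCast]
        congr 1
        push_cast
        ring

lemma gr_exp7 (z : ℝ) (hz : 0 ≤ z) : (1 + z / 7) ^ 7 ≤ Real.exp z := by
  have h := Real.add_one_le_exp (z / 7)
  calc (1 + z / 7) ^ 7 ≤ (Real.exp (z / 7)) ^ 7 := by gcongr; linarith
    _ = Real.exp z := by rw [← Real.exp_nat_mul]; congr 1; push_cast; ring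

lemma gr_key (A : ℕ) (hA : 7 ≤ A) (t κ : ℝ) (ht : 0 ≤ t) :
    ‖((1 + ((t : ℂ) - (κ : ℂ) * I) / (2 * A)) ^ (2 * A + 1))⁻¹ -
      cexp (-(((t + κ ^ 2 / (4 * A) : ℝ) : ℂ) - (κ : ℂ) * I))‖ ≤
      30 * 7 ^ 7 / Real.sqrt A * ((1 + (t + κ ^ 2 / (4 * A))) ^ 4)⁻¹ := by
  have hA7 : (7 : ℝ) ≤ A := by exact_mod_cast hA
  have hA0 : (0 : ℝ) < A := by linarith
  set z : ℝ := t + κ ^ 2 / (4 * A) with hzdef
  have hz : 0 ≤ z := by positivity
  set x : ℂ := (t : ℂ) - (κ : ℂ) * I with hx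
  set u : ℂ := x / (2 * A) with hu
  have hure : u.re = t / (2 * A) := by
    rw [hu, hx]
    have : (2 * (A : ℂ)) = ((2 * A : ℝ) : ℂ) := by push_cast; rfl
    rw [this, Complex.div_ofReal_re]
    simp
  have huim : u.im = -κ / (2 * A) := by
    rw [hu, hx]
    have : (2 * (A : ℂ)) = ((2 * A : ℝ) : ℂ) := by push_cast; rfl
    rw [this, Complex.div_ofReal_im]
    simp
  have hu0 : 0 ≤ u.re := by rw [hure]; positivity
  have hslit : (1 + u) ∈ slitPlane := by left; simp; linarith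
  have hne : (1 + u) ≠ 0 := slitPlane_ne_zero hslit
  set L : ℂ := ((2 * A + 1 : ℕ) : ℂ) * Complex.log (1 + u) with hL
  set E : ℂ := ((z : ℝ) : ℂ) - (κ : ℂ) * I with hE
  have hpow : ((1 + u) ^ (2 * A + 1))⁻¹ = cexp (-L) := by
    rw [Complex.exp_neg, hL, Complex.exp_nat_mul, Complex.exp_log hne]
  -- norm of `1 + u`
  have hnsq : 1 + z / A ≤ ‖1 + u‖ ^ 2 := by
    rw [← Complex.normSq_eq_norm_sq, Complex.normSq_apply]
    simp only [add_re, one_re, add_im, one_im, zero_add]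
    rw [hure, huim, hzdef]
    have : (1 + t / (2 * A)) * (1 + t / (2 * A)) + -κ / (2 * A) * (-κ / (2 * A)) =
      1 + (t + κ ^ 2 / (4 * A)) / A + (t / (2 * A)) ^ 2 := by field_simp; ring
    rw [this]
    nlinarith [sq_nonneg (t / (2 * A))]
  have hn1 : 1 ≤ ‖1 + u‖ := by
    calc (1 : ℝ) ≤ (1 + u).re := by simp; linarith
      _ ≤ ‖1 + u‖ := Complex.re_le_norm _
  set M : ℝ := -Real.log ((1 + z / 7) ^ 7) with hM
  have hexpM : Real.exp M = ((1 + z / 7) ^ 7)⁻¹ := by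
    rw [hM, Real.exp_neg, Real.exp_log (by positivity)]
  have hb1 : (-L).re ≤ M := by
    rw [← Real.exp_le_exp, ← Complex.norm_exp, ← hpow, hexpM, norm_inv, norm_pow]
    apply inv_anti₀ (by positivity)
    calc (1 + z / 7) ^ 7 ≤ (1 + z / A) ^ A := gr_pow7 A hA z hz
      _ ≤ (‖1 + u‖ ^ 2) ^ A := by gcongr
      _ = ‖1 + u‖ ^ (2 * A) * 1 := by rw [pow_mul, mul_one]
      _ ≤ ‖1 + u‖ ^ (2 * A) * ‖1 + u‖ := by gcongr
      _ = ‖1 + u‖ ^ (2 * A + 1) := by rw [pow_succ]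
  have hb2 : (-E).re ≤ M := by
    have : (-E).re = -z := by rw [hE]; simp
    rw [← Real.exp_le_exp, this, hexpM, Real.exp_neg]
    exact inv_anti₀ (by positivity) (gr_exp7 z hz)
  rw [hpow]
  have hmain := gr_exp_sub (-L) (-E) M hb1 hb2
  -- size of `L - E`
  set ζ : ℝ := 1 + z with hζ
  have hζ1 : 1 ≤ ζ := by rw [hζ]; linarith
  set a : ℝ := Real.sqrt A with ha
  have ha0 : 0 < a := Real.sqrt_pos.mpr hA0
  have ha2 : a ^ 2 = A := Real.sq_sqrt hA0.le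
  have ha1 : 1 ≤ a := by nlinarith
  have hκ : |κ| ≤ 2 * a * ζ := by
    have h1 : κ ^ 2 ≤ 4 * A * z := by
      rw [hzdef]
      have : 4 * A * (t + κ ^ 2 / (4 * A)) = 4 * A * t + κ ^ 2 := by field_simp
      rw [this]
      have : 0 ≤ 4 * A * t := by positivity
      linarith
    have h2 : κ ^ 2 ≤ (2 * a * ζ) ^ 2 := by
      calc κ ^ 2 ≤ 4 * A * z := h1
        _ ≤ 4 * A * ζ ^ 2 := by
            gcongr
            nlinarith
        _ = (2 * a * ζ) ^ 2 := by rw [← ha2]; ring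
    exact abs_le_of_sq_le_sq h2 (by positivity)
  have htz : t ≤ ζ := by
    rw [hζ, hzdef]
    have : 0 ≤ κ ^ 2 / (4 * A) := by positivity
    linarith
  have hun : ‖u‖ ≤ 2 * ζ / a := by
    have h1 : ‖u‖ = ‖x‖ / (2 * A) := by
      rw [hu, norm_div]; simp
    have h2 : ‖x‖ ≤ t + |κ| := by
      rw [hx]
      calc ‖(t : ℂ) - κ * I‖ ≤ ‖(t : ℂ)‖ + ‖(κ : ℂ) * I‖ := norm_sub_le _ _
        _ = t + |κ| := by simp [abs_of_nonneg ht]
    rw [h1, ← ha2]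
    rw [div_le_div_iff₀ (by positivity) ha0]
    have : t + |κ| ≤ ζ + 2 * a * ζ := by linarith
    calc ‖x‖ * a ≤ (ζ + 2 * a * ζ) * a := by gcongr; linarith
      _ ≤ (a * ζ + 2 * a * ζ) * a := by
          gcongr
          exact le_mul_of_one_le_left (by positivity) ha1
      _ = 3 * (ζ * a ^ 2) := by ring
      _ ≤ 4 * (ζ * a ^ 2) := by
          have : 0 ≤ ζ * a ^ 2 := by positivity
          linarith
      _ = 2 * ζ * (2 * a ^ 2) := by ring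
  have hdecomp : L - E = ((2 * A + 1 : ℕ) : ℂ) * (Complex.log (1 + u) - u + u ^ 2 / 2) +
      (u - ((t ^ 2 : ℝ) - (2 * t * κ : ℝ) * I) / (4 * A) - u ^ 2 / 2) := by
    have hAc : (A : ℂ) ≠ 0 := by exact_mod_cast hA0.ne'
    have hI : I ^ 2 = -1 := Complex.I_sq
    rw [hL, hE, hu, hx, hzdef]
    push_cast
    field_simp
    ring_nf
    rw [hI]
    ring
  have hLE : ‖L - E‖ ≤ 30 * ζ ^ 3 / a := by
    rw [hdecomp]
    have h1 : ‖((2 * A + 1 : ℕ) : ℂ) * (Complex.log (1 + u) - u + u ^ 2 / 2)‖ ≤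
        24 * ζ ^ 3 / a := by
      rw [norm_mul, Complex.norm_natCast]
      calc ((2 * A + 1 : ℕ) : ℝ) * ‖Complex.log (1 + u) - u + u ^ 2 / 2‖
          ≤ (3 * a ^ 2) * (2 * ζ / a) ^ 3 := by
            have h3 : ((2 * A + 1 : ℕ) : ℝ) ≤ 3 * a ^ 2 := by
              rw [ha2]; push_cast; linarith
            have h4 := (gr_log u hu0).trans (by gcongr : ‖u‖ ^ 3 ≤ (2 * ζ / a) ^ 3)
            gcongr
        _ = 24 * ζ ^ 3 / a := by field_simp; ring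
    have h2 : ‖((t ^ 2 : ℝ) - (2 * t * κ : ℝ) * I : ℂ) / (4 * A)‖ ≤ 2 * ζ ^ 3 / a := by
      have h3 : ‖((t ^ 2 : ℝ) - (2 * t * κ : ℝ) * I : ℂ)‖ ≤ t ^ 2 + 2 * t * |κ| := by
        calc ‖((t ^ 2 : ℝ) - (2 * t * κ : ℝ) * I : ℂ)‖ ≤ ‖((t ^ 2 : ℝ) : ℂ)‖ + ‖((2 * t * κ : ℝ) : ℂ) * I‖ :=
              norm_sub_le _ _
          _ = t ^ 2 + 2 * t * |κ| := by
              rw [norm_mul, Complex.norm_real, Complex.norm_real, Complex.norm_I, mul_one,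
                Real.norm_of_nonneg (by positivity), Real.norm_eq_abs, abs_mul,
                abs_of_nonneg (by positivity : 0 ≤ 2 * t)]
      have h4 : t ^ 2 + 2 * t * |κ| ≤ 5 * a * ζ ^ 2 := by
        calc t ^ 2 + 2 * t * |κ| ≤ ζ ^ 2 + 2 * ζ * (2 * a * ζ) := by gcongr
          _ ≤ a * ζ ^ 2 + 2 * ζ * (2 * a * ζ) := by
              gcongr
              exact le_mul_of_one_le_left (by positivity) ha1
          _ = 5 * a * ζ ^ 2 := by ring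
      rw [norm_div]
      have h5 : ‖(4 * (A : ℂ))‖ = 4 * a ^ 2 := by rw [ha2]; simp
      rw [h5, div_le_div_iff₀ (by positivity) ha0]
      calc ‖((t ^ 2 : ℝ) - (2 * t * κ : ℝ) * I : ℂ)‖ * a ≤ (5 * a * ζ ^ 2) * a := by
            gcongr; exact h3.trans h4
        _ = 5 * (a ^ 2 * ζ ^ 2) := by ring
        _ ≤ 5 * (a ^ 2 * ζ ^ 3) := by
            have : ζ ^ 2 ≤ ζ ^ 3 := pow_le_pow_right₀ hζ1 (by norm_num)
            gcongr
        _ ≤ 8 * (a ^ 2 * ζ ^ 3) := by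
            have : 0 ≤ a ^ 2 * ζ ^ 3 := by positivity
            linarith
        _ = 2 * ζ ^ 3 * (4 * a ^ 2) := by ring
    have h3 : ‖u ^ 2 / 2‖ ≤ 2 * ζ ^ 3 / a := by
      rw [norm_div, norm_pow]
      have : ‖(2 : ℂ)‖ = 2 := by simp
      rw [this]
      calc ‖u‖ ^ 2 / 2 ≤ (2 * ζ / a) ^ 2 / 2 := by gcongr
        _ = 2 * ζ ^ 2 / (a * a) := by field_simp
        _ ≤ 2 * ζ ^ 3 / (a * 1) := by
            have : ζ ^ 2 ≤ ζ ^ 3 := pow_le_pow_right₀ hζ1 (by norm_num)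
            gcongr
        _ = 2 * ζ ^ 3 / a := by rw [mul_one]
    have h4 : ‖u‖ ≤ 2 * ζ ^ 3 / a := by
      refine hun.trans ?_
      have : ζ ≤ ζ ^ 3 := by
        calc ζ = ζ ^ 1 := (pow_one _).symm
          _ ≤ ζ ^ 3 := pow_le_pow_right₀ hζ1 (by norm_num)
      gcongr
    calc _ ≤ ‖((2 * A + 1 : ℕ) : ℂ) * (Complex.log (1 + u) - u + u ^ 2 / 2)‖ +
          ‖u - ((t ^ 2 : ℝ) - (2 * t * κ : ℝ) * I) / (4 * A) - u ^ 2 / 2‖ := norm_add_le _ _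
      _ ≤ ‖((2 * A + 1 : ℕ) : ℂ) * (Complex.log (1 + u) - u + u ^ 2 / 2)‖ +
          (‖u - ((t ^ 2 : ℝ) - (2 * t * κ : ℝ) * I) / (4 * A)‖ + ‖u ^ 2 / 2‖) := by
            gcongr; exact norm_sub_le _ _
      _ ≤ ‖((2 * A + 1 : ℕ) : ℂ) * (Complex.log (1 + u) - u + u ^ 2 / 2)‖ +
          ((‖u‖ + ‖((t ^ 2 : ℝ) - (2 * t * κ : ℝ) * I : ℂ) / (4 * A)‖) + ‖u ^ 2 / 2‖) := by
            gcongr; exact norm_sub_le _ _
      _ ≤ 24 * ζ ^ 3 / a + ((2 * ζ ^ 3 / a + 2 * ζ ^ 3 / a) + 2 * ζ ^ 3 / a) := by gcongr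
      _ = 30 * ζ ^ 3 / a := by ring
  have hdiff : ‖-L - -E‖ ≤ 30 * ζ ^ 3 / a := by
    have : -L - -E = -(L - E) := by ring
    rw [this, norm_neg]; exact hLE
  have h7 : Real.exp M ≤ 7 ^ 7 * (ζ ^ 7)⁻¹ := by
    rw [hexpM]
    have h8 : ζ / 7 ≤ 1 + z / 7 := by rw [hζ]; linarith
    have h9 : (ζ / 7) ^ 7 ≤ (1 + z / 7) ^ 7 := by gcongr
    calc ((1 + z / 7) ^ 7)⁻¹ ≤ ((ζ / 7) ^ 7)⁻¹ := inv_anti₀ (by positivity) h9
      _ = 7 ^ 7 * (ζ ^ 7)⁻¹ := by rw [div_pow, inv_div]; ring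
  calc ‖cexp (-L) - cexp (-E)‖ ≤ Real.exp M * ‖-L - -E‖ := hmain
    _ ≤ (7 ^ 7 * (ζ ^ 7)⁻¹) * (30 * ζ ^ 3 / a) := by gcongr
    _ = 30 * 7 ^ 7 / a * (ζ ^ 4)⁻¹ := by field_simp

end H345
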