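import Pool.Agent.H732R2.GramA
import Pool.Agent.H732R2.GramB

/-! TEAM AH, module Gram, part C: summation lemmas and estimates for the kernel. -/

open Complex Filter Topology Set MeasureTheory

namespace H345

lemma gr_sum_range (s : ℝ) (hs : 0 < s) (n : ℕ) :
    ∑ j ∈ Finset.range (n + 1), ((1 + (j : ℝ) / s) ^ 2)⁻¹ ≤ 1 + s - s * (1 + (n : ℝ) / s)⁻¹ := by
  induction n with
  | zero => simp
  | succ n ih =>
    rw [Finset.sum_range_succ]
    have h1 : ((1 + ((n + 1 : ℕ) : ℝ) / s) ^ 2)⁻¹ ≤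
        s * (1 + (n : ℝ) / s)⁻¹ - s * (1 + ((n + 1 : ℕ) : ℝ) / s)⁻¹ := by
      have hA : 0 < 1 + (n : ℝ) / s := by positivity
      have hB : 0 < 1 + ((n + 1 : ℕ) : ℝ) / s := by positivity
      have hAB : 1 + (n : ℝ) / s ≤ 1 + ((n + 1 : ℕ) : ℝ) / s := by
        push_cast; gcongr; linarith
      have h2 : s * (1 + (n : ℝ) / s)⁻¹ - s * (1 + ((n + 1 : ℕ) : ℝ) / s)⁻¹ =
          ((1 + (n : ℝ) / s) * (1 + ((n + 1 : ℕ) : ℝ) / s))⁻¹ := by
        have hs0 : s ≠ 0 := hs.ne'
        have hA' : (s + (n : ℝ)) ≠ 0 := by positivity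
        have hB' : (s + ((n : ℝ) + 1)) ≠ 0 := by positivity
        push_cast
        field_simp
        ring
      rw [h2, pow_two]
      apply inv_anti₀ (by positivity)
      gcongr
    linarith

lemma gr_sum_one (s : ℝ) (hs : 0 < s) :
    ∑' j : ℕ, ENNReal.ofReal (((1 + (j : ℝ) / s) ^ 2)⁻¹) ≤ ENNReal.ofReal (1 + s) := by
  refine ENNReal.tsum_le_of_sum_range_le (fun n => ?_)
  rw [← ENNReal.ofReal_sum_of_nonneg (fun _ _ => by positivity)]
  apply ENNReal.ofReal_le_ofReal
  have h := gr_sum_range s hs n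
  have h1 : ∑ j ∈ Finset.range n, ((1 + (j : ℝ) / s) ^ 2)⁻¹ ≤
      ∑ j ∈ Finset.range (n + 1), ((1 + (j : ℝ) / s) ^ 2)⁻¹ := by
    rw [Finset.sum_range_succ]
    have : 0 ≤ ((1 + (n : ℝ) / s) ^ 2)⁻¹ := by positivity
    linarith
  have h2 : 0 ≤ s * (1 + (n : ℝ) / s)⁻¹ := by positivity
  linarith

lemma gr_sum_abs (s : ℝ) (hs : 0 < s) (n : ℕ) :
    ∑' m : ℕ, ENNReal.ofReal (((1 + |(m : ℝ) - n| / s) ^ 2)⁻¹) ≤ ENNReal.ofReal (2 * (1 + s)) := by
  set g : ℕ → ENNReal := fun j => ENNReal.ofReal (((1 + (j : ℝ) / s) ^ 2)⁻¹) with hg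
  have h1 : ∀ m : ℕ, ENNReal.ofReal (((1 + |(m : ℝ) - n| / s) ^ 2)⁻¹) ≤
      (if n ≤ m then g (m - n) else 0) + (if m ≤ n then g (n - m) else 0) := by
    intro m
    rcases le_total n m with h | h
    · rw [if_pos h]
      refine le_trans (le_of_eq ?_) le_self_add
      have h' : (n : ℝ) ≤ m := by exact_mod_cast h
      rw [hg]
      simp only
      rw [Nat.cast_sub h, abs_of_nonneg (by linarith)]
    · rw [if_pos h]
      refine le_trans (le_of_eq ?_) le_add_self
      have h' : (m : ℝ) ≤ n := by exact_mod_cast h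
      rw [hg]
      simp only
      rw [Nat.cast_sub h, abs_sub_comm, abs_of_nonneg (by linarith)]
  have h2 : ∑' m : ℕ, (if n ≤ m then g (m - n) else 0) = ∑' j, g j := by
    have := (add_left_injective n).tsum_eq (f := fun m => if n ≤ m then g (m - n) else 0) ?_
    · rw [← this]
      congr 1
      ext j
      simp
    · intro m hm
      simp only [Function.mem_support, ne_eq, ite_eq_right_iff, not_forall] at hm
      obtain ⟨h, _⟩ := hm
      exact ⟨m - n, by simp only; omega⟩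
  have h3 : ∑' m : ℕ, (if m ≤ n then g (n - m) else 0) ≤ ∑' j, g j := by
    rw [tsum_eq_sum (s := Finset.range (n + 1)) (fun m hm => by
      rw [Finset.mem_range] at hm
      rw [if_neg (by omega)])]
    have h4 : ∑ m ∈ Finset.range (n + 1), (if m ≤ n then g (n - m) else 0) =
        ∑ m ∈ Finset.range (n + 1), g m := by
      rw [← Finset.sum_range_reflect]
      refine Finset.sum_congr rfl (fun m hm => ?_)
      rw [Finset.mem_range] at hm
      rw [if_pos (by omega)]
      congr 1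
      omega
    rw [h4]
    exact ENNReal.sum_le_tsum _
  calc ∑' m : ℕ, ENNReal.ofReal (((1 + |(m : ℝ) - n| / s) ^ 2)⁻¹)
      ≤ ∑' m : ℕ, ((if n ≤ m then g (m - n) else 0) + (if m ≤ n then g (n - m) else 0)) :=
        ENNReal.tsum_le_tsum h1
    _ = ∑' m : ℕ, (if n ≤ m then g (m - n) else 0) +
        ∑' m : ℕ, (if m ≤ n then g (n - m) else 0) := ENNReal.tsum_add
    _ ≤ ENNReal.ofReal (1 + s) + ENNReal.ofReal (1 + s) := by
        gcongr
        · rw [h2]; exact gr_sum_one s hs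
        · exact h3.trans (gr_sum_one s hs)
    _ = ENNReal.ofReal (2 * (1 + s)) := by
        rw [← ENNReal.ofReal_add (by positivity) (by positivity)]
        congr 1
        ring

lemma gr_double (F : ℕ → ℝ) (hF : ∀ n, 0 ≤ F n) (B : ℝ) (hB : 0 ≤ B)
    (h : ∑' n, ENNReal.ofReal (F n) ≤ ENNReal.ofReal B) (s : ℝ) (hs : 0 < s) :
    ∑' p : ℕ × ℕ, ENNReal.ofReal (F p.1 * ((1 + |(p.2 : ℝ) - p.1| / s) ^ 2)⁻¹) ≤
      ENNReal.ofReal (B * (2 * (1 + s))) := by
  rw [ENNReal.tsum_prod']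
  calc ∑' (n : ℕ) (m : ℕ), ENNReal.ofReal (F n * ((1 + |(m : ℝ) - n| / s) ^ 2)⁻¹)
      = ∑' n : ℕ, ENNReal.ofReal (F n) *
        ∑' m : ℕ, ENNReal.ofReal (((1 + |(m : ℝ) - n| / s) ^ 2)⁻¹) := by
        congr 1
        ext n
        rw [← ENNReal.tsum_mul_left]
        congr 1
        ext m
        rw [ENNReal.ofReal_mul (hF n)]
    _ ≤ ∑' n : ℕ, ENNReal.ofReal (F n) * ENNReal.ofReal (2 * (1 + s)) := by
        gcongr with n
        exact gr_sum_abs s hs n
    _ = (∑' n : ℕ, ENNReal.ofReal (F n)) * ENNReal.ofReal (2 * (1 + s)) := ENNReal.tsum_mul_right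
    _ ≤ ENNReal.ofReal B * ENNReal.ofReal (2 * (1 + s)) := by gcongr
    _ = ENNReal.ofReal (B * (2 * (1 + s))) := by rw [ENNReal.ofReal_mul hB]

/-! ### logarithm inequalities -/

lemma gr_log_two (a b : ℝ) (ha : 0 < a) (hab : a ≤ b) :
    2 * (b - a) / (a + b) ≤ Real.log b - Real.log a := by
  have hb : 0 < b := by linarith
  have h := Real.le_log_one_add_of_nonneg (x := (b - a) / a) (by
    apply div_nonneg <;> linarith)
  have h1 : 1 + (b - a) / a = b / a := by field_simp; ring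
  rw [h1, Real.log_div hb.ne' ha.ne'] at h
  have h2 : 2 * ((b - a) / a) / ((b - a) / a + 2) = 2 * (b - a) / (a + b) := by
    have : a + b ≠ 0 := by positivity
    have : (b - a) / a + 2 = (a + b) / a := by field_simp; ring
    rw [this]
    field_simp
  rw [h2] at h
  exact h

lemma gr_log_sqrt (a b : ℝ) (ha : 0 < a) (hab : a ≤ b) :
    Real.sqrt (a * b) * (Real.log b - Real.log a) ≤ b - a := by
  have hb : 0 < b := by linarith
  set v : ℝ := Real.sqrt (b / a) with hv
  have hv1 : 1 ≤ v := by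
    rw [hv]; apply Real.one_le_sqrt.mpr; rw [one_le_div ha]; exact hab
  have hv0 : 0 < v := by linarith
  have h1 : Real.log v ≤ Real.sinh (Real.log v) :=
    Real.self_le_sinh_iff.mpr (Real.log_nonneg hv1)
  rw [Real.sinh_log hv0] at h1
  have h2 : Real.log v = (Real.log b - Real.log a) / 2 := by
    rw [hv, Real.log_sqrt (by positivity), Real.log_div hb.ne' ha.ne']
  have h3 : Real.sqrt (a * b) * v = b := by
    rw [hv, ← Real.sqrt_mul (by positivity)]
    have : a * b * (b / a) = b ^ 2 := by field_simp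
    rw [this, Real.sqrt_sq hb.le]
  have h4 : Real.sqrt (a * b) * v⁻¹ = a := by
    rw [hv, ← Real.sqrt_inv, ← Real.sqrt_mul (by positivity)]
    have : a * b * (b / a)⁻¹ = a ^ 2 := by field_simp
    rw [this, Real.sqrt_sq ha.le]
  have h5 : Real.log b - Real.log a ≤ v - v⁻¹ := by linarith
  calc Real.sqrt (a * b) * (Real.log b - Real.log a) ≤ Real.sqrt (a * b) * (v - v⁻¹) := by gcongr
    _ = b - a := by rw [mul_sub, h3, h4]

lemma gr_lam_aux (a b : ℝ) (ha : 0 < a) (hab : a ≤ b) :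
    |Real.sqrt (a * b) * (Real.log b - Real.log a) - (b - a)| ≤
      |b - a| * (1 - 2 * Real.sqrt (a * b) / (a + b)) := by
  have h1 := gr_log_two a b ha hab
  have h2 := gr_log_sqrt a b ha hab
  have hq : 0 ≤ Real.sqrt (a * b) := Real.sqrt_nonneg _
  have h3 : Real.sqrt (a * b) * (2 * (b - a) / (a + b)) ≤
      Real.sqrt (a * b) * (Real.log b - Real.log a) := by gcongr
  rw [abs_of_nonpos (by linarith), abs_of_nonneg (by linarith : 0 ≤ b - a)]
  have h4 : Real.sqrt (a * b) * (2 * (b - a) / (a + b)) =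
      (b - a) * (2 * Real.sqrt (a * b) / (a + b)) := by ring
  rw [h4] at h3
  linarith

lemma gr_lam (a b : ℝ) (ha : 0 < a) (hb : 0 < b) :
    |Real.sqrt (a * b) * (Real.log b - Real.log a) - (b - a)| ≤
      |b - a| * (1 - 2 * Real.sqrt (a * b) / (a + b)) := by
  rcases le_total a b with h | h
  · exact gr_lam_aux a b ha h
  · have := gr_lam_aux b a hb h
    rw [mul_comm b a, add_comm b a, abs_sub_comm a b] at this
    have e : Real.sqrt (a * b) * (Real.log a - Real.log b) - (a - b) =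
      -(Real.sqrt (a * b) * (Real.log b - Real.log a) - (b - a)) := by ring
    rw [e, abs_neg] at this
    exact this

lemma gr_lam_low_aux (a b : ℝ) (ha : 0 < a) (hab : a ≤ b) :
    |b - a| / max a b ≤ |Real.log b - Real.log a| := by
  have hb : 0 < b := by linarith
  have h := Real.one_sub_inv_le_log_of_pos (x := b / a) (by positivity)
  rw [Real.log_div hb.ne' ha.ne'] at h
  rw [max_eq_right hab, abs_of_nonneg (by linarith : 0 ≤ b - a)]
  refine le_trans ?_ (le_abs_self _)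
  have : (b - a) / b = 1 - (b / a)⁻¹ := by field_simp
  rw [this]; exact h

lemma gr_lam_low (a b : ℝ) (ha : 0 < a) (hb : 0 < b) :
    |b - a| / max a b ≤ |Real.log b - Real.log a| := by
  rcases le_total a b with h | h
  · exact gr_lam_low_aux a b ha h
  · have := gr_lam_low_aux b a hb h
    rwa [abs_sub_comm a b, max_comm b a, abs_sub_comm (Real.log a)] at this

/-! ### real and imaginary part of the kernel -/

lemma gZZ_re (c : ℝ) (A : ℕ) (hA : 1 ≤ A) (Y : ℝ) (n m : ℕ) (hn : 0 < n) (hm : 0 < m) :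
    (gZZ c A Y n m).re = ((n : ℝ) + m) / (2 * Real.sqrt (n * m)) +
      Real.sqrt (n * m) / (2 * A * Y) := by
  have hn' : (0 : ℝ) < n := by exact_mod_cast hn
  have hm' : (0 : ℝ) < m := by exact_mod_cast hm
  have hA' : (0 : ℝ) < A := by exact_mod_cast (by omega : 0 < A)
  have hq : 0 < Real.sqrt (n * m) := by positivity
  have hq2 : Real.sqrt (n * m) ^ 2 = n * m := Real.sq_sqrt (by positivity)
  unfold gZZ gRR
  have : (2 * (A : ℂ)) = ((2 * A : ℝ) : ℂ) := by push_cast; rfl
  rw [this, Complex.div_ofReal_re, Complex.re_ofReal_mul]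
  simp only [sub_re, ofReal_re, mul_re, ofReal_im, I_re, I_im]
  have e : Real.sqrt (n * m) * ((A : ℝ) / n + A / m) / (2 * A) =
      ((n : ℝ) + m) / (2 * Real.sqrt (n * m)) := by
    have h1 : (A : ℝ) / n + A / m = A * (n + m) / (Real.sqrt (n * m) ^ 2) := by
      rw [hq2]; field_simp; ring
    rw [h1]
    field_simp
  rw [← e]
  ring

lemma gZZ_im (c : ℝ) (A : ℕ) (Y : ℝ) (n m : ℕ) :
    (gZZ c A Y n m).im = -(Real.sqrt (n * m) * (Real.log m - Real.log n) / (2 * A * c)) := by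
  unfold gZZ gRR
  have : (2 * (A : ℂ)) = ((2 * A : ℝ) : ℂ) := by push_cast; rfl
  rw [this, Complex.div_ofReal_im, Complex.im_ofReal_mul]
  simp only [sub_im, ofReal_re, mul_im, ofReal_im, I_re, I_im]
  ring

end H345
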