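import Pool.Agent.H732R2.GramC

/-! TEAM AH, module Gram, part D: comparison of the kernel with its limit. -/

open Complex Filter Topology Set MeasureTheory

namespace H345

/-- the limiting kernel -/
noncomputable def gWW (c : ℝ) (A : ℕ) (Y : ℝ) (n m : ℕ) : ℂ :=
  1 + (((n / Y : ℝ) : ℂ) - ((((m : ℝ) - n) / c : ℝ) : ℂ) * I) / (2 * A)

lemma gWW_re (c : ℝ) (A : ℕ) (Y : ℝ) (n m : ℕ) :
    (gWW c A Y n m).re = 1 + (n / Y) / (2 * A) := by
  unfold gWW
  have : (2 * (A : ℂ)) = ((2 * A : ℝ) : ℂ) := by push_cast; rfl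
  rw [this, add_re, Complex.div_ofReal_re]
  simp

lemma gWW_im (c : ℝ) (A : ℕ) (Y : ℝ) (n m : ℕ) :
    (gWW c A Y n m).im = -(((m : ℝ) - n) / c / (2 * A)) := by
  unfold gWW
  have : (2 * (A : ℂ)) = ((2 * A : ℝ) : ℂ) := by push_cast; rfl
  rw [this, add_im, Complex.div_ofReal_im]
  simp [neg_div]

/-- constant for the lower bounds -/
noncomputable def gbeta (c : ℝ) (A : ℕ) : ℝ :=
  min (min (1 / (4 * A * c)) (1 / (8 * (A : ℝ) ^ 2 * c ^ 2))) (1 / (2 * A))

lemma gbeta_pos (c : ℝ) (hc : 0 < c) (A : ℕ) (hA : 1 ≤ A) : 0 < gbeta c A := by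
  have hA' : (0 : ℝ) < A := by exact_mod_cast (by omega : 0 < A)
  unfold gbeta
  have h1 : 0 < 1 / (4 * A * c) := by positivity
  have h2 : 0 < 1 / (8 * (A : ℝ) ^ 2 * c ^ 2) := by positivity
  have h3 : 0 < 1 / (2 * (A : ℝ)) := by positivity
  exact lt_min (lt_min h1 h2) h3

/-- integrality: `|k| ≤ k^2` -/
lemma gr_int_sq (n m : ℕ) : |(m : ℝ) - n| ≤ ((m : ℝ) - n) ^ 2 := by
  rw [← sq_abs]
  have h : (|(m : ℝ) - n|) = ((|(m : ℤ) - n| : ℤ) : ℝ) := by push_cast; rfl
  rw [h]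
  have h0 : (0 : ℤ) ≤ |(m : ℤ) - n| := abs_nonneg _
  have : (|(m : ℤ) - n|) ≤ (|(m : ℤ) - n|) ^ 2 := by nlinarith [sq_nonneg (|(m : ℤ) - n|)]
  exact_mod_cast this

lemma gZZ_norm_sq (c : ℝ) (hc : 0 < c) (A : ℕ) (hA : 1 ≤ A) (Y : ℝ) (hY : 1 ≤ Y) (n m : ℕ)
    (hn : 0 < n) (hm : 0 < m) :
    1 + gbeta c A * |(m : ℝ) - n| ≤ ‖gZZ c A Y n m‖ ^ 2 ∧
    1 + gbeta c A * (n / Y) ≤ ‖gZZ c A Y n m‖ ^ 2 := by
  have hn' : (0 : ℝ) < n := by exact_mod_cast hn
  have hm' : (0 : ℝ) < m := by exact_mod_cast hm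
  have hA' : (0 : ℝ) < A := by exact_mod_cast (by omega : 0 < A)
  have hY' : 0 < Y := by linarith
  have hβ := gbeta_pos c hc A hA
  rw [← Complex.normSq_eq_norm_sq, Complex.normSq_apply, gZZ_re c A hA Y n m hn hm, gZZ_im]
  set q : ℝ := Real.sqrt (n * m) with hqd
  have hq : 0 < q := by positivity
  have hq2 : q ^ 2 = n * m := Real.sq_sqrt (by positivity)
  set a : ℝ := (n : ℝ) with had
  set b : ℝ := (m : ℝ) with hbd
  set k : ℝ := b - a with hk
  set l : ℝ := Real.log b - Real.log a with hl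
  have e1 : ((a + b) / (2 * q) + q / (2 * A * Y)) * ((a + b) / (2 * q) + q / (2 * A * Y)) +
      -(q * l / (2 * A * c)) * -(q * l / (2 * A * c)) =
      (1 + k ^ 2 / (4 * q ^ 2)) + (a + b) / (2 * A * Y) + (q / (2 * A * Y)) ^ 2 +
      (q * l / (2 * A * c)) ^ 2 := by
    have : (1 + k ^ 2 / (4 * q ^ 2)) = ((a + b) / (2 * q)) ^ 2 := by
      rw [div_pow, mul_pow, hk]
      have h1 : (a + b) ^ 2 = (b - a) ^ 2 + 4 * q ^ 2 := by rw [hq2]; ring
      rw [h1]
      field_simp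
      ring
    rw [this]
    field_simp
    ring
  rw [e1]
  have t1 : 0 ≤ k ^ 2 / (4 * q ^ 2) := by positivity
  have t2 : 0 ≤ (a + b) / (2 * A * Y) := by positivity
  have t3 : 0 ≤ (q / (2 * A * Y)) ^ 2 := by positivity
  have t4 : 0 ≤ (q * l / (2 * A * c)) ^ 2 := by positivity
  constructor
  · -- the bound with `|k|`
    set P : ℝ := max a b with hP
    have hP0 : 0 < P := lt_max_of_lt_left hn'
    have hlow : |k| / P ≤ |l| := gr_lam_low a b hn' hm'
    have t5 : (q * (|k| / P) / (2 * A * c)) ^ 2 ≤ (q * l / (2 * A * c)) ^ 2 := by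
      rw [← sq_abs (q * l / (2 * A * c)), abs_div, abs_mul, abs_of_pos hq,
        abs_of_pos (by positivity : 0 < 2 * (A : ℝ) * c)]
      gcongr
    have hk2 : |k| ≤ k ^ 2 := gr_int_sq n m
    rcases le_total (P / 2) |k| with h | h
    · -- AM-GM
      have h1 : k ^ 2 / (P * (2 * A * c)) ≤ k ^ 2 / (4 * q ^ 2) + (q * (|k| / P) / (2 * A * c)) ^ 2 := by
        have h2 : 0 ≤ (|k| / (2 * q) - q * (|k| / P) / (2 * A * c)) ^ 2 := sq_nonneg _
        have h3 : (|k| / (2 * q) - q * (|k| / P) / (2 * A * c)) ^ 2 =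
          |k| ^ 2 / (4 * q ^ 2) + (q * (|k| / P) / (2 * A * c)) ^ 2 - |k| ^ 2 / (P * (2 * A * c)) := by
          field_simp
          ring
        rw [h3, sq_abs] at h2
        linarith
      have h4 : 1 / (4 * A * c) * |k| ≤ k ^ 2 / (P * (2 * A * c)) := by
        rw [← sq_abs k, div_mul_eq_mul_div, div_le_div_iff₀ (by positivity) (by positivity)]
        have h5 : P * |k| ≤ 2 * |k| * |k| := by
          have := mul_le_mul_of_nonneg_right h (abs_nonneg k)
          linarith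
        have h6 : 0 < 2 * (A : ℝ) * c := by positivity
        calc 1 * |k| * (P * (2 * A * c)) = (P * |k|) * (2 * A * c) := by ring
          _ ≤ (2 * |k| * |k|) * (2 * A * c) := by gcongr
          _ = |k| ^ 2 * (4 * A * c) := by ring
      have h7 : gbeta c A * |k| ≤ 1 / (4 * A * c) * |k| := by
        gcongr
        exact (min_le_left _ _).trans (min_le_left _ _)
      linarith
    · have h1 : P ^ 2 / 2 ≤ q ^ 2 := by
        rw [hq2]
        change P ^ 2 / 2 ≤ a * b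
        rw [hk] at h
        rcases le_total a b with hab | hab
        · have hPb : P = b := max_eq_right hab
          rw [hPb] at h ⊢
          rw [abs_of_nonneg (by linarith)] at h
          nlinarith
        · have hPa : P = a := max_eq_left hab
          rw [hPa] at h ⊢
          rw [abs_of_nonpos (by linarith)] at h
          nlinarith
      have h2 : 1 / (8 * (A : ℝ) ^ 2 * c ^ 2) * |k| ≤ (q * (|k| / P) / (2 * A * c)) ^ 2 := by
        have h3 : (q * (|k| / P) / (2 * A * c)) ^ 2 = q ^ 2 * k ^ 2 / (P ^ 2 * (4 * A ^ 2 * c ^ 2)) := by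
          rw [← sq_abs k]
          field_simp
          ring
        rw [h3, div_mul_eq_mul_div, div_le_div_iff₀ (by positivity) (by positivity)]
        have h4 : P ^ 2 * |k| ≤ 2 * (q ^ 2 * k ^ 2) := by
          calc P ^ 2 * |k| ≤ (2 * q ^ 2) * k ^ 2 := by
                gcongr
                linarith
            _ = 2 * (q ^ 2 * k ^ 2) := by ring
        calc 1 * |k| * (P ^ 2 * (4 * A ^ 2 * c ^ 2)) = (P ^ 2 * |k|) * (4 * A ^ 2 * c ^ 2) := by ring
          _ ≤ (2 * (q ^ 2 * k ^ 2)) * (4 * A ^ 2 * c ^ 2) := by gcongr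
          _ = q ^ 2 * k ^ 2 * (8 * A ^ 2 * c ^ 2) := by ring
      have h7 : gbeta c A * |k| ≤ 1 / (8 * (A : ℝ) ^ 2 * c ^ 2) * |k| := by
        gcongr
        exact (min_le_left _ _).trans (min_le_right _ _)
      linarith
  · have h1 : gbeta c A * (a / Y) ≤ (a + b) / (2 * A * Y) := by
      calc gbeta c A * (a / Y) ≤ 1 / (2 * A) * (a / Y) := by
            gcongr
            exact min_le_right _ _
        _ = a / (2 * A * Y) := by field_simp
        _ ≤ (a + b) / (2 * A * Y) := by gcongr; linarith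
    linarith

lemma gWW_norm_sq (c : ℝ) (hc : 0 < c) (A : ℕ) (hA : 1 ≤ A) (Y : ℝ) (hY : 1 ≤ Y) (n m : ℕ) :
    1 + gbeta c A * |(m : ℝ) - n| ≤ ‖gWW c A Y n m‖ ^ 2 ∧
    1 + gbeta c A * (n / Y) ≤ ‖gWW c A Y n m‖ ^ 2 := by
  have hA' : (0 : ℝ) < A := by exact_mod_cast (by omega : 0 < A)
  have hY' : 0 < Y := by linarith
  rw [← Complex.normSq_eq_norm_sq, Complex.normSq_apply, gWW_re, gWW_im]
  have hk2 : |(m : ℝ) - n| ≤ ((m : ℝ) - n) ^ 2 := gr_int_sq n m
  set k : ℝ := (m : ℝ) - n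
  have h0 : (0 : ℝ) ≤ (n : ℝ) / Y := by positivity
  have e : (1 + (n : ℝ) / Y / (2 * A)) * (1 + (n : ℝ) / Y / (2 * A)) +
      -(k / c / (2 * A)) * -(k / c / (2 * A)) =
      1 + (n : ℝ) / Y / A + ((n : ℝ) / Y / (2 * A)) ^ 2 + k ^ 2 / (4 * A ^ 2 * c ^ 2) := by
    field_simp
    ring
  rw [e]
  have t1 : 0 ≤ (n : ℝ) / Y / A := by positivity
  have t2 : 0 ≤ ((n : ℝ) / Y / (2 * A)) ^ 2 := by positivity
  have t3 : 0 ≤ k ^ 2 / (4 * A ^ 2 * c ^ 2) := by positivity
  constructor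
  · have h7 : gbeta c A * |k| ≤ 1 / (8 * (A : ℝ) ^ 2 * c ^ 2) * |k| := by
      gcongr
      exact (min_le_left _ _).trans (min_le_right _ _)
    have h8 : 1 / (8 * (A : ℝ) ^ 2 * c ^ 2) * |k| ≤ k ^ 2 / (4 * A ^ 2 * c ^ 2) := by
      rw [div_mul_eq_mul_div, one_mul]
      apply div_le_div₀ (by positivity) hk2 (by positivity)
      have : 0 ≤ (A : ℝ) ^ 2 * c ^ 2 := by positivity
      linarith
    linarith
  · have h1 : gbeta c A * (n / Y) ≤ (n : ℝ) / Y / A := by
      calc gbeta c A * (n / Y) ≤ 1 / (2 * A) * (n / Y) := by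
            gcongr
            exact min_le_right _ _
        _ ≤ 1 / A * (n / Y) := by
            gcongr
            linarith
        _ = (n : ℝ) / Y / A := by ring
    linarith

lemma gr_ZW (c : ℝ) (hc : 0 < c) (A : ℕ) (hA : 1 ≤ A) (Y : ℝ) (hY : 1 ≤ Y) (n m : ℕ)
    (hn : 0 < n) (hm : 0 < m) :
    ‖gZZ c A Y n m - gWW c A Y n m‖ ≤
      (2 + 1 / c) * |(m : ℝ) - n| ^ 3 * (1 / (n : ℝ) ^ 2 + 1 / Y) := by
  have hn' : (0 : ℝ) < n := by exact_mod_cast hn
  have hm' : (0 : ℝ) < m := by exact_mod_cast hm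
  have hn1 : (1 : ℝ) ≤ n := by exact_mod_cast hn
  have hm1 : (1 : ℝ) ≤ m := by exact_mod_cast hm
  have hA' : (0 : ℝ) < A := by exact_mod_cast (by omega : 0 < A)
  have hA1 : (1 : ℝ) ≤ A := by exact_mod_cast hA
  have hY' : 0 < Y := by linarith
  have hk2 : |(m : ℝ) - n| ≤ ((m : ℝ) - n) ^ 2 := gr_int_sq n m
  have hlam := gr_lam (n : ℝ) (m : ℝ) hn' hm'
  have hre : (gZZ c A Y n m - gWW c A Y n m).re = (((n : ℝ) + m) / (2 * Real.sqrt (n * m)) - 1) +
      (Real.sqrt (n * m) - n) / (2 * A * Y) := by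
    rw [sub_re, gZZ_re c A hA Y n m hn hm, gWW_re]
    field_simp
    ring
  have him : (gZZ c A Y n m - gWW c A Y n m).im =
      -((Real.sqrt (n * m) * (Real.log m - Real.log n) - ((m : ℝ) - n)) / (2 * A * c)) := by
    rw [sub_im, gZZ_im, gWW_im]
    field_simp
    ring
  have hnorm := Complex.norm_le_abs_re_add_abs_im (gZZ c A Y n m - gWW c A Y n m)
  rw [hre, him] at hnorm
  set q : ℝ := Real.sqrt (n * m) with hqd
  have hq : 0 < q := by positivity
  have hq2 : q ^ 2 = n * m := Real.sq_sqrt (by positivity)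
  set a : ℝ := (n : ℝ) with had
  set b : ℝ := (m : ℝ) with hbd
  set k : ℝ := b - a with hk
  have hk3 : k ^ 2 ≤ |k| ^ 3 := by
    have h1 : k ^ 2 = |k| * |k| := by rw [← sq_abs]; ring
    calc k ^ 2 = |k| * |k| := h1
      _ ≤ |k| * k ^ 2 := by gcongr
      _ = |k| ^ 3 := by rw [← sq_abs]; ring
  have hk1 : |k| ≤ |k| ^ 3 := hk2.trans hk3
  have hkn : 0 ≤ |k| := abs_nonneg k
  -- `a + b - 2 q = k^2 / (a + b + 2 q)`
  have hab : (a + b - 2 * q) * (a + b + 2 * q) = k ^ 2 := by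
    have : (a + b - 2 * q) * (a + b + 2 * q) = (a + b) ^ 2 - 4 * q ^ 2 := by ring
    rw [this, hq2, hk]; ring
  have hab0 : 0 ≤ a + b - 2 * q := by
    have h1 : 0 ≤ (a + b - 2 * q) * (a + b + 2 * q) := by rw [hab]; positivity
    have h2 : 0 < a + b + 2 * q := by positivity
    exact nonneg_of_mul_nonneg_left h1 h2
  -- first term
  have T1 : |(a + b) / (2 * q) - 1| ≤ |k| ^ 3 / a ^ 2 := by
    have e : (a + b) / (2 * q) - 1 = (a + b - 2 * q) / (2 * q) := by field_simp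
    rw [e, abs_of_nonneg (by positivity)]
    rw [div_le_div_iff₀ (by positivity) (by positivity)]
    -- `(a + b - 2q) a^2 ≤ |k|^3 2 q`
    have e2 : (a + b - 2 * q) * a ≤ k ^ 2 := by
      rw [← hab]
      have : (a + b - 2 * q) * a ≤ (a + b - 2 * q) * (a + b + 2 * q) := by
        gcongr
        linarith
      exact this
    rcases le_total (a / 4) b with h | h
    · have h3 : a / 2 ≤ q := by
        rw [hqd]
        apply Real.le_sqrt_of_sq_le
        change (a / 2) ^ 2 ≤ a * b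
        nlinarith
      calc (a + b - 2 * q) * a ^ 2 = ((a + b - 2 * q) * a) * a := by ring
        _ ≤ |k| ^ 3 * (2 * q) := by
            apply mul_le_mul (e2.trans hk3) (by linarith) hn'.le (by positivity)
    · have h3 : a / 2 ≤ |k| := by
        rw [hk, abs_of_nonpos (by linarith)]
        linarith
      have h4 : 1 ≤ q := by
        rw [hqd]
        apply Real.le_sqrt_of_sq_le
        change (1 : ℝ) ^ 2 ≤ a * b
        nlinarith
      calc (a + b - 2 * q) * a ^ 2 = ((a + b - 2 * q) * a) * a := by ring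
        _ ≤ k ^ 2 * (2 * |k|) := by
            apply mul_le_mul e2 (by linarith) hn'.le (by positivity)
        _ = |k| ^ 3 * (2 * 1) := by rw [← sq_abs k]; ring
        _ ≤ |k| ^ 3 * (2 * q) := by gcongr
  have T2 : |(q - a) / (2 * A * Y)| ≤ |k| ^ 3 / Y := by
    have h1 : |q - a| ≤ |k| := by
      have h2 : (q - a) * (q + a) = a * k := by
        have : (q - a) * (q + a) = q ^ 2 - a ^ 2 := by ring
        rw [this, hq2, hk]
        ring
      have h3 : |q - a| * (q + a) = a * |k| := by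
        rw [← abs_of_pos (by positivity : 0 < q + a), ← abs_mul, h2, abs_mul, abs_of_pos hn']
      have h4 : |q - a| * a ≤ |k| * a := by
        calc |q - a| * a ≤ |q - a| * (q + a) := by
              have := abs_nonneg (q - a)
              gcongr
              linarith
          _ = |k| * a := by rw [h3]; ring
      exact le_of_mul_le_mul_right h4 hn'
    rw [abs_div, abs_of_pos (by positivity : 0 < 2 * (A : ℝ) * Y)]
    apply div_le_div₀ (by positivity) (h1.trans hk1) hY'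
    nlinarith
  have T3 : |-((q * (Real.log b - Real.log a) - k) / (2 * A * c))| ≤ 1 / c * (|k| ^ 3 / a ^ 2) := by
    rw [abs_neg, abs_div, abs_of_pos (by positivity : 0 < 2 * (A : ℝ) * c)]
    have h1 : |k| * (1 - 2 * q / (a + b)) ≤ |k| ^ 3 / a ^ 2 := by
      have e : (1 - 2 * q / (a + b)) = (a + b - 2 * q) / (a + b) := by
        have : a + b ≠ 0 := by positivity
        field_simp
      have h2 : (a + b - 2 * q) / (a + b) ≤ k ^ 2 / a ^ 2 := by
        rw [div_le_div_iff₀ (by positivity) (by positivity), ← hab]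
        have h3 : a * a ≤ (a + b + 2 * q) * (a + b) := by
          apply mul_le_mul <;> linarith
        calc (a + b - 2 * q) * a ^ 2 = (a + b - 2 * q) * (a * a) := by ring
          _ ≤ (a + b - 2 * q) * ((a + b + 2 * q) * (a + b)) := by gcongr
          _ = _ := by ring
      rw [e]
      calc |k| * ((a + b - 2 * q) / (a + b)) ≤ |k| * (k ^ 2 / a ^ 2) := by gcongr
        _ = |k| ^ 3 / a ^ 2 := by rw [← sq_abs k]; ring
    calc |q * (Real.log b - Real.log a) - k| / (2 * A * c)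
        ≤ (|k| ^ 3 / a ^ 2) / (1 * c) := by
          apply div_le_div₀ (by positivity) (hlam.trans h1) (by positivity)
          have : 1 ≤ 2 * (A : ℝ) := by linarith
          gcongr
      _ = 1 / c * (|k| ^ 3 / a ^ 2) := by ring
  calc ‖gZZ c A Y n m - gWW c A Y n m‖ ≤ _ := hnorm
    _ ≤ (|(a + b) / (2 * q) - 1| + |(q - a) / (2 * A * Y)|) +
        |-((q * (Real.log b - Real.log a) - k) / (2 * A * c))| := by
        gcongr; exact abs_add_le _ _
    _ ≤ (|k| ^ 3 / a ^ 2 + |k| ^ 3 / Y) + 1 / c * (|k| ^ 3 / a ^ 2) := by gcongr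
    _ ≤ (2 + 1 / c) * |k| ^ 3 * (1 / a ^ 2 + 1 / Y) := by
        have h1 : 0 ≤ |k| ^ 3 / a ^ 2 := by positivity
        have h2 : 0 ≤ |k| ^ 3 / Y := by positivity
        have h3 : 0 ≤ 1 / c * (|k| ^ 3 / Y) := by positivity
        have e : (2 + 1 / c) * |k| ^ 3 * (1 / a ^ 2 + 1 / Y) =
          2 * (|k| ^ 3 / a ^ 2) + 2 * (|k| ^ 3 / Y) + 1 / c * (|k| ^ 3 / a ^ 2) +
          1 / c * (|k| ^ 3 / Y) := by ring
        rw [e]
        linarith

end H345
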