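import Pool.Agent.H732R2.GramD

/-! TEAM AH, module Gram, part E: the double sums. -/

open Complex Filter Topology Set MeasureTheory

namespace H345

lemma gr_pow_sub (a b : ℂ) (ρ : ℝ) (ha : ‖a‖ ≤ ρ) (hb : ‖b‖ ≤ ρ) (N : ℕ) :
    ‖a ^ (N + 1) - b ^ (N + 1)‖ ≤ (N + 1) * ‖a - b‖ * ρ ^ N := by
  have hρ : 0 ≤ ρ := (norm_nonneg a).trans ha
  induction N with
  | zero => simp
  | succ N ih =>
    have e : a ^ (N + 1 + 1) - b ^ (N + 1 + 1) =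
      a * (a ^ (N + 1) - b ^ (N + 1)) + (a - b) * b ^ (N + 1) := by ring
    rw [e]
    calc _ ≤ ‖a * (a ^ (N + 1) - b ^ (N + 1))‖ + ‖(a - b) * b ^ (N + 1)‖ := norm_add_le _ _
      _ = ‖a‖ * ‖a ^ (N + 1) - b ^ (N + 1)‖ + ‖a - b‖ * ‖b‖ ^ (N + 1) := by
          rw [norm_mul, norm_mul, norm_pow]
      _ ≤ ρ * ((N + 1) * ‖a - b‖ * ρ ^ N) + ‖a - b‖ * ρ ^ (N + 1) := by gcongr
      _ = ((N + 1 : ℕ) + 1) * ‖a - b‖ * ρ ^ (N + 1) := by push_cast; ring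

/-- first bounding function -/
noncomputable def gF1 (c : ℝ) (A : ℕ) (Y : ℝ) (n : ℕ) : ℝ :=
  ((2 * A + 1) * (2 + 1 / c) / gbeta c A ^ 3) *
    (4 * ((1 + (n : ℝ) / 1) ^ 2)⁻¹ + 1 / Y * ((1 + (n : ℝ) / (Y / gbeta c A)) ^ 2)⁻¹)

lemma gr_E1 (c : ℝ) (hc : 0 < c) (A : ℕ) (hA : 6 ≤ A) (Y : ℝ) (hY : 1 ≤ Y) (n m : ℕ)
    (hn : 0 < n) (hm : 0 < m) :
    ‖((gZZ c A Y n m) ^ (2 * A + 1))⁻¹ - ((gWW c A Y n m) ^ (2 * A + 1))⁻¹‖ ≤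
      gF1 c A Y n * ((1 + |(m : ℝ) - n| / (1 / gbeta c A)) ^ 2)⁻¹ := by
  have hA1 : 1 ≤ A := by omega
  have hβ := gbeta_pos c hc A hA1
  obtain ⟨z1, z2⟩ := gZZ_norm_sq c hc A hA1 Y hY n m hn hm
  obtain ⟨w1, w2⟩ := gWW_norm_sq c hc A hA1 Y hY n m
  have hZW := gr_ZW c hc A hA1 Y hY n m hn hm
  have hY' : 0 < Y := by linarith
  have hn' : (0 : ℝ) < n := by exact_mod_cast hn
  have hn1 : (1 : ℝ) ≤ n := by exact_mod_cast hn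
  unfold gF1
  set β := gbeta c A with hβd
  set k : ℝ := (m : ℝ) - n with hk
  set M1 : ℝ := 1 + β * |k| with hM1
  set M2 : ℝ := 1 + β * (n / Y) with hM2
  have hM1' : 1 ≤ M1 := by
    have : 0 ≤ β * |k| := by positivity
    linarith
  have hM2' : 1 ≤ M2 := by
    have : 0 ≤ β * (n / Y) := by positivity
    linarith
  set M : ℝ := max M1 M2 with hM
  have hM1le : M1 ≤ M := le_max_left _ _
  have hM2le : M2 ≤ M := le_max_right _ _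
  have hM0 : 0 < M := by linarith
  set Z := gZZ c A Y n m with hZ
  set W := gWW c A Y n m with hW
  have hZ2 : M ≤ ‖Z‖ ^ 2 := max_le z1 z2
  have hW2 : M ≤ ‖W‖ ^ 2 := max_le w1 w2
  have hZn : Real.sqrt M ≤ ‖Z‖ := by
    rw [← Real.sqrt_sq (norm_nonneg Z)]; exact Real.sqrt_le_sqrt hZ2
  have hWn : Real.sqrt M ≤ ‖W‖ := by
    rw [← Real.sqrt_sq (norm_nonneg W)]; exact Real.sqrt_le_sqrt hW2
  have hs0 : 0 < Real.sqrt M := Real.sqrt_pos.mpr hM0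
  have hZ0 : Z ≠ 0 := by
    intro h; rw [h, norm_zero] at hZn; linarith
  have hW0 : W ≠ 0 := by
    intro h; rw [h, norm_zero] at hWn; linarith
  set ρ : ℝ := (Real.sqrt M)⁻¹ with hρ
  have hρ0 : 0 < ρ := by positivity
  have hρ2 : ρ ^ 2 = M⁻¹ := by rw [hρ, inv_pow, Real.sq_sqrt hM0.le]
  have ha : ‖Z⁻¹‖ ≤ ρ := by rw [norm_inv]; exact inv_anti₀ hs0 hZn
  have hb : ‖W⁻¹‖ ≤ ρ := by rw [norm_inv]; exact inv_anti₀ hs0 hWn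
  have hab : ‖Z⁻¹ - W⁻¹‖ ≤ ‖Z - W‖ * ρ ^ 2 := by
    have e : Z⁻¹ - W⁻¹ = (W - Z) * (Z⁻¹ * W⁻¹) := by field_simp
    rw [e, norm_mul, norm_mul, norm_sub_rev, pow_two]
    gcongr
  rw [← inv_pow, ← inv_pow]
  have h1 := gr_pow_sub Z⁻¹ W⁻¹ ρ ha hb (2 * A)
  have h2 : ρ ^ 2 * ρ ^ (2 * A) ≤ (M1 ^ 5 * M2 ^ 2)⁻¹ := by
    have e : ρ ^ 2 * ρ ^ (2 * A) = (M ^ (A + 1))⁻¹ := by
      rw [pow_mul, hρ2, ← inv_pow]; ring
    rw [e]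
    apply inv_anti₀ (by positivity)
    calc M1 ^ 5 * M2 ^ 2 ≤ M ^ 5 * M ^ 2 := by gcongr
      _ = M ^ 7 := by ring
      _ ≤ M ^ (A + 1) := pow_le_pow_right₀ (by linarith) (by omega)
  have h3 : |k| ^ 3 * (M1 ^ 5)⁻¹ ≤ (β ^ 3)⁻¹ * (M1 ^ 2)⁻¹ := by
    have h4 : β ^ 3 * |k| ^ 3 ≤ M1 ^ 3 := by
      rw [← mul_pow]
      gcongr
      rw [hM1]; linarith
    rw [← mul_inv, ← div_eq_mul_inv, div_le_iff₀ (by positivity)]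
    have e : (β ^ 3 * M1 ^ 2)⁻¹ * M1 ^ 5 = M1 ^ 3 / β ^ 3 := by field_simp
    rw [e, le_div_iff₀ (by positivity)]
    linarith
  have h5 : (1 / (n : ℝ) ^ 2 + 1 / Y) * (M2 ^ 2)⁻¹ ≤
      4 * ((1 + (n : ℝ) / 1) ^ 2)⁻¹ + 1 / Y * (M2 ^ 2)⁻¹ := by
    rw [add_mul]
    refine add_le_add ?_ le_rfl
    calc 1 / (n : ℝ) ^ 2 * (M2 ^ 2)⁻¹ ≤ 1 / (n : ℝ) ^ 2 * 1 := by
          gcongr
          exact inv_le_one_of_one_le₀ (one_le_pow₀ hM2')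
      _ ≤ 4 * ((1 + (n : ℝ) / 1) ^ 2)⁻¹ := by
          rw [mul_one, ← div_eq_mul_inv, div_le_div_iff₀ (by positivity) (by positivity)]
          nlinarith
  have e1 : (1 + |k| / (1 / β)) = M1 := by rw [hM1]; field_simp
  have e2 : (1 + (n : ℝ) / (Y / β)) = M2 := by rw [hM2]; field_simp
  rw [e1, e2]
  calc ‖Z⁻¹ ^ (2 * A + 1) - W⁻¹ ^ (2 * A + 1)‖
      ≤ ((2 * A : ℕ) + 1) * ‖Z⁻¹ - W⁻¹‖ * ρ ^ (2 * A) := h1
    _ ≤ ((2 * A : ℕ) + 1) * (((2 + 1 / c) * |k| ^ 3 * (1 / (n : ℝ) ^ 2 + 1 / Y)) * ρ ^ 2) *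
        ρ ^ (2 * A) := by
        gcongr
        exact hab.trans (by gcongr)
    _ = (2 * A + 1) * (2 + 1 / c) * |k| ^ 3 * (1 / (n : ℝ) ^ 2 + 1 / Y) *
        (ρ ^ 2 * ρ ^ (2 * A)) := by push_cast; ring
    _ ≤ (2 * A + 1) * (2 + 1 / c) * |k| ^ 3 * (1 / (n : ℝ) ^ 2 + 1 / Y) *
        (M1 ^ 5 * M2 ^ 2)⁻¹ := by gcongr
    _ = (2 * A + 1) * (2 + 1 / c) * (|k| ^ 3 * (M1 ^ 5)⁻¹) *
        ((1 / (n : ℝ) ^ 2 + 1 / Y) * (M2 ^ 2)⁻¹) := by rw [mul_inv]; ring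
    _ ≤ (2 * A + 1) * (2 + 1 / c) * ((β ^ 3)⁻¹ * (M1 ^ 2)⁻¹) *
        (4 * ((1 + (n : ℝ) / 1) ^ 2)⁻¹ + 1 / Y * (M2 ^ 2)⁻¹) := by gcongr
    _ = _ := by ring

lemma gF1_nonneg (c : ℝ) (hc : 0 < c) (A : ℕ) (hA : 1 ≤ A) (Y : ℝ) (hY : 1 ≤ Y) (n : ℕ) :
    0 ≤ gF1 c A Y n := by
  have hβ := gbeta_pos c hc A hA
  unfold gF1
  positivity

lemma gr_sum_E1 (c : ℝ) (hc : 0 < c) (A : ℕ) (hA : 1 ≤ A) : ∃ C : ℝ, 0 < C ∧ ∀ Y : ℝ, 1 ≤ Y →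
    ∑' p : ℕ × ℕ, ENNReal.ofReal (gF1 c A Y p.1 *
      ((1 + |(p.2 : ℝ) - p.1| / (1 / gbeta c A)) ^ 2)⁻¹) ≤ ENNReal.ofReal C := by
  have hβ := gbeta_pos c hc A hA
  set K : ℝ := ((2 * A + 1) * (2 + 1 / c) / gbeta c A ^ 3) with hK
  have hK0 : 0 < K := by positivity
  refine ⟨K * (9 + 1 / gbeta c A) * (2 * (1 + 1 / gbeta c A)), by positivity, fun Y hY => ?_⟩
  have hY' : 0 < Y := by linarith
  refine gr_double (gF1 c A Y) (gF1_nonneg c hc A hA Y hY) (K * (9 + 1 / gbeta c A))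
    (by positivity) ?_ (1 / gbeta c A) (by positivity)
  unfold gF1
  rw [← hK]
  have e : ∀ n : ℕ, ENNReal.ofReal (K * (4 * ((1 + (n : ℝ) / 1) ^ 2)⁻¹ +
      1 / Y * ((1 + (n : ℝ) / (Y / gbeta c A)) ^ 2)⁻¹)) =
      ENNReal.ofReal (K * 4) * ENNReal.ofReal (((1 + (n : ℝ) / 1) ^ 2)⁻¹) +
      ENNReal.ofReal (K * (1 / Y)) * ENNReal.ofReal (((1 + (n : ℝ) / (Y / gbeta c A)) ^ 2)⁻¹) := by
    intro n
    rw [← ENNReal.ofReal_mul (by positivity), ← ENNReal.ofReal_mul (by positivity),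
      ← ENNReal.ofReal_add (by positivity) (by positivity)]
    congr 1
    ring
  simp_rw [e]
  rw [ENNReal.tsum_add, ENNReal.tsum_mul_left, ENNReal.tsum_mul_left]
  calc _ ≤ ENNReal.ofReal (K * 4) * ENNReal.ofReal (1 + 1) +
        ENNReal.ofReal (K * (1 / Y)) * ENNReal.ofReal (1 + Y / gbeta c A) := by
        gcongr
        · exact gr_sum_one 1 one_pos
        · exact gr_sum_one (Y / gbeta c A) (by positivity)
    _ = ENNReal.ofReal (K * 4 * (1 + 1) + K * (1 / Y) * (1 + Y / gbeta c A)) := by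
        rw [← ENNReal.ofReal_mul (by positivity), ← ENNReal.ofReal_mul (by positivity),
          ← ENNReal.ofReal_add (by positivity) (by positivity)]
    _ ≤ ENNReal.ofReal (K * (9 + 1 / gbeta c A)) := by
        apply ENNReal.ofReal_le_ofReal
        have h1 : K * (1 / Y) * (1 + Y / gbeta c A) = K * (1 / Y) + K / gbeta c A := by
          field_simp
        have h2 : K * (1 / Y) ≤ K * 1 := by
          gcongr
          rw [div_le_one hY']; exact hY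
        rw [h1]
        have h3 : K * (9 + 1 / gbeta c A) = 9 * K + K / gbeta c A := by ring
        rw [h3]
        linarith

/-! ### the Gaussian model -/

noncomputable def gG (c : ℝ) (A : ℕ) (Y : ℝ) (n m : ℕ) : ℂ :=
  cexp (-((((n : ℝ) / Y + (((m : ℝ) - n) / c) ^ 2 / (4 * A) : ℝ) : ℂ) -
    ((((m : ℝ) - n) / c : ℝ) : ℂ) * I))

/-- second bounding function -/
noncomputable def gB2 (K c : ℝ) (A : ℕ) (Y : ℝ) (n m : ℕ) : ℝ :=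
  (K * ((1 + (n : ℝ) / Y) ^ 2)⁻¹) * ((1 + |(m : ℝ) - n| / (2 * c * Real.sqrt A)) ^ 2)⁻¹

lemma gr_x2 (x : ℝ) : ((1 + x ^ 2) ^ 2)⁻¹ ≤ 4 * ((1 + |x|) ^ 2)⁻¹ := by
  have h : (1 + |x|) ≤ 2 * (1 + x ^ 2) := by
    rw [← sq_abs x]
    nlinarith [sq_nonneg (2 * |x| - 1), abs_nonneg x]
  have h2 : (1 + |x|) ^ 2 ≤ (2 * (1 + x ^ 2)) ^ 2 := by gcongr
  have h3 : (0 : ℝ) < (1 + |x|) ^ 2 := by positivity
  have h4 : (0 : ℝ) < (1 + x ^ 2) ^ 2 := by positivity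
  rw [← div_eq_mul_inv, inv_eq_one_div, div_le_div_iff₀ h4 h3]
  nlinarith

lemma gr_q (c : ℝ) (hc : 0 < c) (A : ℕ) (hA : 1 ≤ A) (k : ℝ) :
    ((1 + (k / c) ^ 2 / (4 * A)) ^ 2)⁻¹ ≤ 4 * ((1 + |k| / (2 * c * Real.sqrt A)) ^ 2)⁻¹ := by
  have hA' : (0 : ℝ) < A := by exact_mod_cast (by omega : 0 < A)
  have hs : 0 < Real.sqrt A := Real.sqrt_pos.mpr hA'
  have hs2 : Real.sqrt A ^ 2 = A := Real.sq_sqrt hA'.le
  have h := gr_x2 (k / (2 * c * Real.sqrt A))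
  have e : (k / (2 * c * Real.sqrt A)) ^ 2 = (k / c) ^ 2 / (4 * A) := by
    rw [div_pow, div_pow, mul_pow, mul_pow, hs2]
    field_simp
    norm_num
  rw [e, abs_div, abs_of_pos (by positivity : 0 < 2 * c * Real.sqrt A)] at h
  exact h

lemma gr_E2 (c : ℝ) (hc : 0 < c) (A : ℕ) (hA : 7 ≤ A) (Y : ℝ) (hY : 1 ≤ Y) (n m : ℕ) :
    ‖((gWW c A Y n m) ^ (2 * A + 1))⁻¹ - gG c A Y n m‖ ≤
      gB2 (120 * 7 ^ 7 / Real.sqrt A) c A Y n m := by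
  have hA' : (0 : ℝ) < A := by exact_mod_cast (by omega : 0 < A)
  have hs : 0 < Real.sqrt A := Real.sqrt_pos.mpr hA'
  have h := gr_key A hA ((n : ℝ) / Y) (((m : ℝ) - n) / c) (by positivity)
  have h1 : ‖((gWW c A Y n m) ^ (2 * A + 1))⁻¹ - gG c A Y n m‖ ≤
      30 * 7 ^ 7 / Real.sqrt A *
      ((1 + ((n : ℝ) / Y + (((m : ℝ) - n) / c) ^ 2 / (4 * A))) ^ 4)⁻¹ := h
  refine h1.trans ?_
  unfold gB2
  have hq := gr_q c hc A (by omega) ((m : ℝ) - n)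
  set t : ℝ := (n : ℝ) / Y with ht
  set q : ℝ := (((m : ℝ) - n) / c) ^ 2 / (4 * A) with hqd
  have ht0 : 0 ≤ t := by positivity
  have hq0 : 0 ≤ q := by positivity
  have h2 : ((1 + (t + q)) ^ 4)⁻¹ ≤ ((1 + t) ^ 2)⁻¹ * ((1 + q) ^ 2)⁻¹ := by
    rw [← mul_inv, ← mul_pow]
    apply inv_anti₀ (by positivity)
    have : (1 + (t + q)) ^ 4 = ((1 + (t + q)) ^ 2) ^ 2 := by ring
    rw [this]
    gcongr
    nlinarith [mul_nonneg ht0 hq0]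
  calc _ ≤ 30 * 7 ^ 7 / Real.sqrt A * (((1 + t) ^ 2)⁻¹ * ((1 + q) ^ 2)⁻¹) := by gcongr
    _ ≤ 30 * 7 ^ 7 / Real.sqrt A * (((1 + t) ^ 2)⁻¹ *
        (4 * ((1 + |(m : ℝ) - n| / (2 * c * Real.sqrt A)) ^ 2)⁻¹)) := by gcongr
    _ = _ := by ring

lemma gr_sum_B2 (K c : ℝ) (hK : 0 ≤ K) (hc : 0 < c) (A : ℕ) (hA : 1 ≤ A) (Y : ℝ) (hY : 1 ≤ Y) :
    ∑' p : ℕ × ℕ, ENNReal.ofReal (gB2 K c A Y p.1 p.2) ≤
      ENNReal.ofReal (4 * K * (1 + 2 * c * Real.sqrt A) * Y) := by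
  have hA' : (0 : ℝ) < A := by exact_mod_cast (by omega : 0 < A)
  have hs : 0 < Real.sqrt A := Real.sqrt_pos.mpr hA'
  have hY' : 0 < Y := by linarith
  unfold gB2
  have h := gr_double (fun n => K * ((1 + (n : ℝ) / Y) ^ 2)⁻¹) (fun n => by positivity)
    (K * (1 + Y)) (by positivity) (by
      have e : ∀ n : ℕ, ENNReal.ofReal (K * ((1 + (n : ℝ) / Y) ^ 2)⁻¹) =
        ENNReal.ofReal K * ENNReal.ofReal (((1 + (n : ℝ) / Y) ^ 2)⁻¹) := fun n => by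
        rw [ENNReal.ofReal_mul hK]
      simp_rw [e]
      rw [ENNReal.tsum_mul_left, ENNReal.ofReal_mul hK]
      gcongr
      exact gr_sum_one Y hY') (2 * c * Real.sqrt A) (by positivity)
  refine h.trans (ENNReal.ofReal_le_ofReal ?_)
  have h1 : 0 ≤ K * (1 + 2 * c * Real.sqrt A) := by positivity
  calc K * (1 + Y) * (2 * (1 + 2 * c * Real.sqrt A)) =
      2 * (1 + Y) * (K * (1 + 2 * c * Real.sqrt A)) := by ring
    _ ≤ 2 * (2 * Y) * (K * (1 + 2 * c * Real.sqrt A)) := by gcongr; linarith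
    _ = _ := by ring

lemma gr_expt (t : ℝ) (ht : 0 ≤ t) : Real.exp (-t) ≤ 4 * ((1 + t) ^ 2)⁻¹ := by
  have h1 := Real.add_one_le_exp (t / 2)
  have h2 : ((1 + t) / 2) ^ 2 ≤ Real.exp t := by
    calc ((1 + t) / 2) ^ 2 ≤ (Real.exp (t / 2)) ^ 2 := by gcongr; linarith
      _ = Real.exp t := by rw [← Real.exp_nat_mul]; congr 1; push_cast; ring
  rw [Real.exp_neg]
  calc (Real.exp t)⁻¹ ≤ (((1 + t) / 2) ^ 2)⁻¹ := inv_anti₀ (by positivity) h2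
    _ = 4 * ((1 + t) ^ 2)⁻¹ := by rw [div_pow, inv_div]; ring

lemma gr_expq (q : ℝ) (hq : 0 ≤ q) : q * Real.exp (-(q / 2)) ≤ 216 * ((1 + q) ^ 2)⁻¹ := by
  have h1 := Real.add_one_le_exp (q / 6)
  have h2 : ((1 + q) / 6) ^ 3 ≤ Real.exp (q / 2) := by
    calc ((1 + q) / 6) ^ 3 ≤ (Real.exp (q / 6)) ^ 3 := by gcongr; linarith
      _ = Real.exp (q / 2) := by rw [← Real.exp_nat_mul]; congr 1; push_cast; ring
  rw [Real.exp_neg]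
  calc q * (Real.exp (q / 2))⁻¹ ≤ (1 + q) * (((1 + q) / 6) ^ 3)⁻¹ := by
        gcongr
        linarith
    _ = 216 * ((1 + q) ^ 2)⁻¹ := by field_simp; norm_num

lemma gG_norm (c : ℝ) (A : ℕ) (Y : ℝ) (n m : ℕ) :
    ‖gG c A Y n m‖ = Real.exp (-(n / Y)) * Real.exp (-((((m : ℝ) - n) / c) ^ 2 / (4 * A))) := by
  unfold gG
  rw [Complex.norm_exp, ← Real.exp_add]
  congr 1
  simp only [neg_re, sub_re, ofReal_re, mul_re, ofReal_im, I_re, I_im]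
  ring

lemma gr_E4 (c : ℝ) (hc : 0 < c) (A : ℕ) (hA : 1 ≤ A) (Y : ℝ) (hY : 1 ≤ Y) (n m : ℕ) :
    ‖gG c A Y n m‖ ≤ gB2 64 c A Y n m := by
  have hA' : (0 : ℝ) < A := by exact_mod_cast (by omega : 0 < A)
  rw [gG_norm]
  unfold gB2
  have hq := gr_q c hc A hA ((m : ℝ) - n)
  have h1 := gr_expt ((n : ℝ) / Y) (by positivity)
  have h2 := gr_expt ((((m : ℝ) - n) / c) ^ 2 / (4 * A)) (by positivity)
  calc _ ≤ (4 * ((1 + (n : ℝ) / Y) ^ 2)⁻¹) *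
        (4 * (4 * ((1 + |(m : ℝ) - n| / (2 * c * Real.sqrt A)) ^ 2)⁻¹)) := by
        gcongr
        exact h2.trans (by gcongr)
    _ = _ := by ring

end H345
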