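import Pool.Agent.H732R2.GramE

/-! TEAM AH, module Gram, part F: assembly. -/

open Complex Filter Topology Set MeasureTheory

namespace H345

lemma gG_eq (c : ℝ) (A : ℕ) (Y : ℝ) (n m : ℕ) :
    gG c A Y n m = ((Real.exp (-((n : ℝ) / Y + (((m : ℝ) - n) / c) ^ 2 / (4 * A))) : ℝ) : ℂ) *
      cexp (((((m : ℝ) - n) / c : ℝ) : ℂ) * I) := by
  unfold gG
  rw [Complex.ofReal_exp, ← Complex.exp_add]
  congr 1
  push_cast
  ring

lemma gr_phase (c : ℝ) (hc : 0 < c) (n m : ℕ) :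
    cexp (((((m : ℝ) - n) / (c / (1 + 2 * Real.pi * c)) : ℝ) : ℂ) * I) =
      cexp (((((m : ℝ) - n) / c : ℝ) : ℂ) * I) := by
  have h : ((((m : ℝ) - n) / (c / (1 + 2 * Real.pi * c)) : ℝ) : ℂ) * I =
      ((((m : ℝ) - n) / c : ℝ) : ℂ) * I + (((m : ℤ) - (n : ℤ) : ℤ) : ℂ) * (2 * Real.pi * I) := by
    have hc0 : (c : ℂ) ≠ 0 := by exact_mod_cast hc.ne'
    have hr : (1 + 2 * Real.pi * c : ℂ) ≠ 0 := by
      have : (1 + 2 * Real.pi * c : ℝ) ≠ 0 := by positivity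
      exact_mod_cast this
    push_cast
    field_simp
  rw [h, Complex.exp_add, Complex.exp_int_mul_two_pi_mul_I, mul_one]

lemma gr_E3 (c : ℝ) (hc : 0 < c) (A : ℕ) (hA : 1 ≤ A) (Y : ℝ) (hY : 1 ≤ Y) (n m : ℕ) :
    ‖gG c A Y n m - gG (c / (1 + 2 * Real.pi * c)) ⌈(A : ℝ) * (1 + 2 * Real.pi * c) ^ 2⌉₊ Y n m‖ ≤
      gB2 (3456 / Real.sqrt A) c A Y n m := by
  have hA' : (0 : ℝ) < A := by exact_mod_cast (by omega : 0 < A)
  have hA1 : (1 : ℝ) ≤ A := by exact_mod_cast hA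
  have hpi := Real.pi_pos
  rw [gG_eq, gG_eq, gr_phase c hc, ← sub_mul, norm_mul, Complex.norm_exp_ofReal_mul_I, mul_one,
    ← Complex.ofReal_sub, Complex.norm_real, Real.norm_eq_abs]
  set r : ℝ := 1 + 2 * Real.pi * c with hr
  have hr1 : 1 ≤ r := by
    have : 0 ≤ 2 * Real.pi * c := by positivity
    linarith
  have hr0 : 0 < r := by linarith
  set A' : ℝ := (⌈(A : ℝ) * r ^ 2⌉₊ : ℝ) with hA'd
  have hAr : 1 ≤ (A : ℝ) * r ^ 2 := by
    have : (1 : ℝ) ≤ r ^ 2 := one_le_pow₀ hr1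
    nlinarith
  have h1 : (A : ℝ) * r ^ 2 ≤ A' := Nat.le_ceil _
  have h2 : A' ≤ (A : ℝ) * r ^ 2 + 1 := (Nat.ceil_lt_add_one (by positivity)).le
  have hA'0 : 0 < A' := by linarith
  have hAA' : (A : ℝ) ≤ A' := by
    have : (1 : ℝ) ≤ r ^ 2 := one_le_pow₀ hr1
    nlinarith
  have hqr := gr_q c hc A hA ((m : ℝ) - n)
  unfold gB2
  set t : ℝ := (n : ℝ) / Y with ht
  have ht0 : 0 ≤ t := by positivity
  set k : ℝ := (m : ℝ) - n with hk
  set q : ℝ := (k / c) ^ 2 / (4 * A) with hq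
  have hq0 : 0 ≤ q := by positivity
  set q' : ℝ := (k / (c / r)) ^ 2 / (4 * A') with hq'
  have hq'0 : 0 ≤ q' := by positivity
  have e1 : q' = q * ((A : ℝ) * r ^ 2 / A') := by
    rw [hq', hq]
    field_simp
  have hle : q' ≤ q := by
    rw [e1]
    calc q * ((A : ℝ) * r ^ 2 / A') ≤ q * 1 := by
          gcongr
          rw [div_le_one hA'0]; exact h1
      _ = q := mul_one q
  have hd : q - q' ≤ q / A := by
    have e2 : q - q' = q * ((A' - (A : ℝ) * r ^ 2) / A') := by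
      rw [e1]; field_simp
    rw [e2]
    calc q * ((A' - (A : ℝ) * r ^ 2) / A') ≤ q * (1 / A) := by
          gcongr
          linarith
      _ = q / A := by ring
  have hhalf : q / 2 ≤ q' := by
    rw [e1]
    have : 1 / 2 ≤ (A : ℝ) * r ^ 2 / A' := by
      rw [div_le_div_iff₀ (by norm_num) hA'0]
      linarith
    calc q / 2 = q * (1 / 2) := by ring
      _ ≤ _ := by gcongr
  have hmain : |Real.exp (-(t + q)) - Real.exp (-(t + q'))| ≤
      Real.exp (-t) * (Real.exp (-(q / 2)) * (q / A)) := by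
    have h3 : Real.exp (-(t + q)) ≤ Real.exp (-(t + q')) := by
      apply Real.exp_le_exp.mpr; linarith
    rw [abs_of_nonpos (by linarith)]
    have e3 : -(Real.exp (-(t + q)) - Real.exp (-(t + q'))) =
        Real.exp (-t) * (Real.exp (-q') * (1 - Real.exp (-(q - q')))) := by
      rw [mul_sub, mul_one, ← Real.exp_add, mul_sub, ← Real.exp_add, ← Real.exp_add]
      ring_nf
    rw [e3]
    have h4 : 1 - Real.exp (-(q - q')) ≤ q / A := by
      have := Real.add_one_le_exp (-(q - q'))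
      linarith
    have h5 : 0 ≤ q / A := by positivity
    have h6 : 0 ≤ 1 - Real.exp (-(q - q')) := by
      have : Real.exp (-(q - q')) ≤ 1 := by
        rw [Real.exp_le_one_iff]; linarith
      linarith
    gcongr
    
  have hsq : Real.sqrt A ≤ A := by
    rw [Real.sqrt_le_left hA'.le]
    nlinarith
  have hs0 : 0 < Real.sqrt A := Real.sqrt_pos.mpr hA'
  calc |Real.exp (-(t + q)) - Real.exp (-(t + q'))|
      ≤ Real.exp (-t) * (Real.exp (-(q / 2)) * (q / A)) := hmain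
    _ = Real.exp (-t) * ((q * Real.exp (-(q / 2))) / A) := by ring
    _ ≤ (4 * ((1 + t) ^ 2)⁻¹) * ((216 * ((1 + q) ^ 2)⁻¹) / A) :=
        mul_le_mul (gr_expt t ht0) (div_le_div_of_nonneg_right (gr_expq q hq0) hA'.le)
          (by positivity) (by positivity)
    _ ≤ (4 * ((1 + t) ^ 2)⁻¹) * ((216 * (4 * ((1 + |k| / (2 * c * Real.sqrt A)) ^ 2)⁻¹)) /
        Real.sqrt A) := by gcongr
    _ = _ := by ring

/-! ### Stirling -/

lemma gpf_eq (A : ℕ) (hA : 1 ≤ A) : gpf A = Stirling.stirlingSeq (2 * A) / Real.sqrt A := by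
  have hA' : (0 : ℝ) < A := by exact_mod_cast (by omega : 0 < A)
  have hs0 : 0 < Real.sqrt A := Real.sqrt_pos.mpr hA'
  have hs2 : Real.sqrt A * Real.sqrt A = A := Real.mul_self_sqrt hA'.le
  unfold gpf Stirling.stirlingSeq
  have h1 : Real.sqrt (2 * ((2 * A : ℕ) : ℝ)) = 2 * Real.sqrt A := by
    have : 2 * ((2 * A : ℕ) : ℝ) = 2 ^ 2 * A := by push_cast; ring
    rw [this, Real.sqrt_mul (by norm_num), Real.sqrt_sq (by norm_num)]
  have h2 : (((2 * A : ℕ) : ℝ) / Real.exp 1) ^ (2 * A) =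
      (2 * (A : ℝ)) ^ (2 * A) / Real.exp (2 * A) := by
    rw [div_pow, ← Real.exp_nat_mul]
    push_cast
    ring_nf
  rw [h1, h2, pow_succ]
  have he := Real.exp_pos (2 * (A : ℝ))
  have h3 : (2 * (A : ℝ)) ^ (2 * A) ≠ 0 := by positivity
  have h4 : (2 * (A : ℝ)) = 2 * (Real.sqrt A * Real.sqrt A) := by rw [hs2]
  generalize hX : (2 * (A : ℝ)) ^ (2 * A) = X at h3
  generalize Real.exp (2 * (A : ℝ)) = E at he
  rw [h4]
  field_simp

lemma gpf_le (A : ℕ) (hA : 1 ≤ A) : gpf A ≤ (Real.exp 1 / Real.sqrt 2) / Real.sqrt A := by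
  rw [gpf_eq A hA, ← Stirling.stirlingSeq_one]
  have h := Stirling.stirlingSeq'_antitone (a := 0) (b := 2 * A - 1) (by omega)
  have e1 : (2 * A - 1).succ = 2 * A := by omega
  simp only [Function.comp] at h
  rw [e1] at h
  gcongr

lemma gpf_ge (A : ℕ) (hA : 1 ≤ A) : Real.sqrt Real.pi / Real.sqrt A ≤ gpf A := by
  rw [gpf_eq A hA]
  gcongr
  exact Stirling.sqrt_pi_le_stirlingSeq (by omega)

lemma gr_num : Real.exp 1 / Real.sqrt 2 ≤ 1.2 * Real.sqrt Real.pi := by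
  rw [div_le_iff₀ (by positivity), mul_assoc, ← Real.sqrt_mul Real.pi_pos.le]
  have h1 : (2.5 : ℝ) ≤ Real.sqrt (Real.pi * 2) := by
    apply Real.le_sqrt_of_sq_le
    have := Real.pi_gt_d2
    norm_num; linarith
  have h2 := Real.exp_one_lt_d9
  linarith

lemma gpf_le_two (A : ℕ) (hA : 1 ≤ A) : gpf A ≤ 2 / Real.sqrt A := by
  refine (gpf_le A hA).trans ?_
  gcongr
  rw [div_le_iff₀ (by positivity)]
  have h1 : (1.4 : ℝ) ≤ Real.sqrt 2 := by
    apply Real.le_sqrt_of_sq_le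
    norm_num
  have h2 := Real.exp_one_lt_d9
  linarith

lemma gpf_pos (A : ℕ) (hA : 1 ≤ A) : 0 < gpf A := by
  have hA' : (0 : ℝ) < A := by exact_mod_cast (by omega : 0 < A)
  refine lt_of_lt_of_le ?_ (gpf_ge A hA)
  have := Real.pi_pos
  positivity

lemma gpf_ratio (c : ℝ) (hc : 0 < c) (A : ℕ) (hA : 7 ≤ A) :
    gpf A ≤ 2 * (1 + 2 * Real.pi * c) * gpf ⌈(A : ℝ) * (1 + 2 * Real.pi * c) ^ 2⌉₊ := by
  have hA7 : (7 : ℝ) ≤ A := by exact_mod_cast hA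
  have hA' : (0 : ℝ) < A := by linarith
  have hpi := Real.pi_pos
  set r : ℝ := 1 + 2 * Real.pi * c with hr
  have hr1 : 1 ≤ r := by
    have : 0 ≤ 2 * Real.pi * c := by positivity
    linarith
  have hr0 : 0 < r := by linarith
  have hr2 : (1 : ℝ) ≤ r ^ 2 := one_le_pow₀ hr1
  set A1 : ℕ := ⌈(A : ℝ) * r ^ 2⌉₊ with hA1
  have hAr : 7 ≤ (A : ℝ) * r ^ 2 := by nlinarith
  have h1 : (A : ℝ) * r ^ 2 ≤ A1 := Nat.le_ceil _
  have h2 : (A1 : ℝ) ≤ (A : ℝ) * r ^ 2 + 1 := (Nat.ceil_lt_add_one (by positivity)).le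
  have hA10 : (0 : ℝ) < A1 := by linarith
  have hA1n : 1 ≤ A1 := by
    have : 0 < A1 := by exact_mod_cast hA10
    omega
  have hsA : 0 < Real.sqrt A := Real.sqrt_pos.mpr hA'
  have hsA1 : 0 < Real.sqrt A1 := Real.sqrt_pos.mpr hA10
  have h3 : Real.sqrt A1 ≤ 1.1 * r * Real.sqrt A := by
    rw [Real.sqrt_le_left (by positivity), mul_pow, mul_pow, Real.sq_sqrt hA'.le]
    nlinarith
  calc gpf A ≤ (Real.exp 1 / Real.sqrt 2) / Real.sqrt A := gpf_le A (by omega)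
    _ ≤ (1.2 * Real.sqrt Real.pi) / Real.sqrt A := by
        gcongr
        exact gr_num
    _ ≤ 2 * r * (Real.sqrt Real.pi / Real.sqrt A1) := by
        rw [← mul_div_assoc, div_le_div_iff₀ hsA hsA1]
        calc 1.2 * Real.sqrt Real.pi * Real.sqrt A1
            ≤ 1.2 * Real.sqrt Real.pi * (1.1 * r * Real.sqrt A) := by gcongr
          _ = 1.32 * (r * Real.sqrt Real.pi * Real.sqrt A) := by ring
          _ ≤ 2 * (r * Real.sqrt Real.pi * Real.sqrt A) := by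
              have : 0 ≤ r * Real.sqrt Real.pi * Real.sqrt A := by positivity
              linarith
          _ = 2 * r * Real.sqrt Real.pi * Real.sqrt A := by ring
    _ ≤ 2 * r * gpf A1 := by
        gcongr
        exact gpf_ge A1 hA1n

/-! ### the quadratic forms -/

/-- Moebius factor -/
noncomputable def gmu (p : ℕ × ℕ) : ℂ :=
  ((ArithmeticFunction.moebius p.1 * ArithmeticFunction.moebius p.2 : ℤ) : ℂ)

lemma gmu_norm (p : ℕ × ℕ) : ‖gmu p‖ ≤ 1 := by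
  unfold gmu
  rw [Complex.norm_intCast]
  push_cast
  rw [abs_mul]
  have h1 : |((ArithmeticFunction.moebius p.1 : ℤ) : ℝ)| ≤ 1 := by
    exact_mod_cast ArithmeticFunction.abs_moebius_le_one
  have h2 : |((ArithmeticFunction.moebius p.2 : ℤ) : ℝ)| ≤ 1 := by
    exact_mod_cast ArithmeticFunction.abs_moebius_le_one
  calc _ ≤ (1 : ℝ) * 1 := by gcongr
    _ = 1 := one_mul 1

lemma gmu_zero (p : ℕ × ℕ) (h : p.1 = 0 ∨ p.2 = 0) : gmu p = 0 := by
  unfold gmu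
  rcases h with h | h <;> simp [h]

noncomputable def gT (c : ℝ) (A : ℕ) (Y : ℝ) (p : ℕ × ℕ) : ℂ :=
  gmu p * ((gZZ c A Y p.1 p.2) ^ (2 * A + 1))⁻¹

lemma gT_hasSum (c : ℝ) (A : ℕ) (hA : 2 ≤ A) (Y : ℝ) (hY : 0 < Y) :
    HasSum (gT c A Y) ((JJ c A Y / gpf A : ℝ) : ℂ) := by
  have h := (JJ_hasSum c A hA Y hY).div_const (gpf A : ℂ)
  have hp : (gpf A : ℂ) ≠ 0 := by exact_mod_cast (gpf_pos A (by omega)).ne'
  have e : (fun p : ℕ × ℕ =>
      ((ArithmeticFunction.moebius p.1 * ArithmeticFunction.moebius p.2 : ℤ) : ℂ) *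
      ((gpf A : ℂ) * ((gZZ c A Y p.1 p.2) ^ (2 * A + 1))⁻¹) / (gpf A : ℂ)) = gT c A Y := by
    ext p
    unfold gT gmu
    field_simp
  rw [e] at h
  push_cast
  exact h

lemma gT_bound (c : ℝ) (hc : 0 < c) (A : ℕ) (hA : 7 ≤ A) : ∃ C : ℝ, 0 < C ∧ ∀ Y : ℝ, 1 ≤ Y →
    ∑' p : ℕ × ℕ, ENNReal.ofReal ‖gT c A Y p - gmu p * gG c A Y p.1 p.2‖ ≤
      ENNReal.ofReal (C + 480 * 7 ^ 7 * (1 + 2 * c) * Y) := by
  obtain ⟨C, hC, h⟩ := gr_sum_E1 c hc A (by omega)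
  have hA' : (1 : ℝ) ≤ A := by exact_mod_cast (by omega : 1 ≤ A)
  have hs1 : 1 ≤ Real.sqrt A := Real.one_le_sqrt.mpr hA'
  have hs0 : 0 < Real.sqrt A := by linarith
  refine ⟨C, hC, fun Y hY => ?_⟩
  have hβ := gbeta_pos c hc A (by omega)
  have hb : ∀ p : ℕ × ℕ, ENNReal.ofReal ‖gT c A Y p - gmu p * gG c A Y p.1 p.2‖ ≤
      ENNReal.ofReal (gF1 c A Y p.1 * ((1 + |(p.2 : ℝ) - p.1| / (1 / gbeta c A)) ^ 2)⁻¹) +
      ENNReal.ofReal (gB2 (120 * 7 ^ 7 / Real.sqrt A) c A Y p.1 p.2) := by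
    intro p
    have hF := gF1_nonneg c hc A (by omega) Y hY p.1
    have hB2 : 0 ≤ gB2 (120 * 7 ^ 7 / Real.sqrt A) c A Y p.1 p.2 := by
      unfold gB2; positivity
    rw [← ENNReal.ofReal_add (by positivity) hB2]
    apply ENNReal.ofReal_le_ofReal
    by_cases h0 : p.1 = 0 ∨ p.2 = 0
    · unfold gT
      rw [gmu_zero p h0]
      simp only [zero_mul, sub_self, norm_zero]
      positivity
    · push Not at h0
      have e : gT c A Y p - gmu p * gG c A Y p.1 p.2 =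
        gmu p * (((gZZ c A Y p.1 p.2) ^ (2 * A + 1))⁻¹ - gG c A Y p.1 p.2) := by
        unfold gT; ring
      rw [e, norm_mul]
      calc ‖gmu p‖ * ‖((gZZ c A Y p.1 p.2) ^ (2 * A + 1))⁻¹ - gG c A Y p.1 p.2‖
          ≤ 1 * ‖((gZZ c A Y p.1 p.2) ^ (2 * A + 1))⁻¹ - gG c A Y p.1 p.2‖ := by
            gcongr
            exact gmu_norm p
        _ = ‖(((gZZ c A Y p.1 p.2) ^ (2 * A + 1))⁻¹ - ((gWW c A Y p.1 p.2) ^ (2 * A + 1))⁻¹) +
            (((gWW c A Y p.1 p.2) ^ (2 * A + 1))⁻¹ - gG c A Y p.1 p.2)‖ := by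
            rw [one_mul]; congr 1; ring
        _ ≤ ‖((gZZ c A Y p.1 p.2) ^ (2 * A + 1))⁻¹ - ((gWW c A Y p.1 p.2) ^ (2 * A + 1))⁻¹‖ +
            ‖((gWW c A Y p.1 p.2) ^ (2 * A + 1))⁻¹ - gG c A Y p.1 p.2‖ := norm_add_le _ _
        _ ≤ _ := add_le_add
            (gr_E1 c hc A (by omega) Y hY p.1 p.2 (Nat.pos_of_ne_zero h0.1) (Nat.pos_of_ne_zero h0.2))
            (gr_E2 c hc A hA Y hY p.1 p.2)
  have h2 := gr_sum_B2 (120 * 7 ^ 7 / Real.sqrt A) c (by positivity) hc A (by omega) Y hY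
  calc _ ≤ ∑' p : ℕ × ℕ, (ENNReal.ofReal (gF1 c A Y p.1 *
        ((1 + |(p.2 : ℝ) - p.1| / (1 / gbeta c A)) ^ 2)⁻¹) +
      ENNReal.ofReal (gB2 (120 * 7 ^ 7 / Real.sqrt A) c A Y p.1 p.2)) := ENNReal.tsum_le_tsum hb
    _ ≤ ENNReal.ofReal C +
        ENNReal.ofReal (4 * (120 * 7 ^ 7 / Real.sqrt A) * (1 + 2 * c * Real.sqrt A) * Y) := by
        rw [ENNReal.tsum_add]
        exact add_le_add (h Y hY) h2
    _ = ENNReal.ofReal (C + 4 * (120 * 7 ^ 7 / Real.sqrt A) * (1 + 2 * c * Real.sqrt A) * Y) := by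
        rw [← ENNReal.ofReal_add hC.le (by positivity)]
    _ ≤ _ := by
        apply ENNReal.ofReal_le_ofReal
        refine add_le_add le_rfl ?_
        have e : 4 * (120 * 7 ^ 7 / Real.sqrt A) * (1 + 2 * c * Real.sqrt A) =
          480 * 7 ^ 7 * (1 / Real.sqrt A + 2 * c) := by field_simp; norm_num
        rw [e]
        have : 1 / Real.sqrt A ≤ 1 := by rw [div_le_one hs0]; exact hs1
        gcongr

lemma gT_diff (c : ℝ) (hc : 0 < c) (A : ℕ) (hA : 7 ≤ A) : ∃ C : ℝ, 0 < C ∧ ∀ Y : ℝ, 1 ≤ Y →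
    |JJ c A Y / gpf A - JJ (c / (1 + 2 * Real.pi * c)) ⌈(A : ℝ) * (1 + 2 * Real.pi * c) ^ 2⌉₊ Y /
      gpf ⌈(A : ℝ) * (1 + 2 * Real.pi * c) ^ 2⌉₊| ≤ C + 2000 * 7 ^ 7 * (1 + 2 * c) * Y * 10 := by
  have hpi := Real.pi_pos
  have hA7 : (7 : ℝ) ≤ A := by exact_mod_cast hA
  set r : ℝ := 1 + 2 * Real.pi * c with hr
  have hr1 : 1 ≤ r := by
    have : 0 ≤ 2 * Real.pi * c := by positivity
    linarith
  have hr0 : 0 < r := by linarith
  have hr2 : (1 : ℝ) ≤ r ^ 2 := one_le_pow₀ hr1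
  set A1 : ℕ := ⌈(A : ℝ) * r ^ 2⌉₊ with hA1
  have h1 : (A : ℝ) * r ^ 2 ≤ A1 := Nat.le_ceil _
  have hA1n : 7 ≤ A1 := by
    have : (7 : ℝ) ≤ A1 := by nlinarith
    exact_mod_cast this
  set c' : ℝ := c / r with hc'
  have hc'0 : 0 < c' := by positivity
  have hc'c : c' ≤ c := div_le_self hc.le hr1
  obtain ⟨C, hC, hb⟩ := gT_bound c hc A hA
  obtain ⟨C', hC', hb'⟩ := gT_bound c' hc'0 A1 hA1n
  refine ⟨C + C', by positivity, fun Y hY => ?_⟩
  have hY' : 0 < Y := by linarith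
  have hs : HasSum (fun p => gT c A Y p - gT c' A1 Y p)
      (((JJ c A Y / gpf A : ℝ) : ℂ) - ((JJ c' A1 Y / gpf A1 : ℝ) : ℂ)) :=
    (gT_hasSum c A (by omega) Y hY').sub (gT_hasSum c' A1 (by omega) Y hY')
  have hA' : (1 : ℝ) ≤ A := by linarith
  have hs1 : 1 ≤ Real.sqrt A := Real.one_le_sqrt.mpr hA'
  have hs0 : 0 < Real.sqrt A := by linarith
  have hpt : ∀ p, ‖gT c A Y p - gT c' A1 Y p‖ₑ ≤
      ENNReal.ofReal ‖gT c A Y p - gmu p * gG c A Y p.1 p.2‖ +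
      (ENNReal.ofReal (gB2 (3456 / Real.sqrt A) c A Y p.1 p.2) +
      ENNReal.ofReal ‖gT c' A1 Y p - gmu p * gG c' A1 Y p.1 p.2‖) := by
    intro p
    have hB2 : 0 ≤ gB2 (3456 / Real.sqrt A) c A Y p.1 p.2 := by
      unfold gB2; positivity
    rw [← ofReal_norm, ← ENNReal.ofReal_add hB2 (norm_nonneg _),
      ← ENNReal.ofReal_add (norm_nonneg _) (by positivity)]
    apply ENNReal.ofReal_le_ofReal
    have e : gT c A Y p - gT c' A1 Y p = (gT c A Y p - gmu p * gG c A Y p.1 p.2) +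
      (gmu p * (gG c A Y p.1 p.2 - gG c' A1 Y p.1 p.2) -
      (gT c' A1 Y p - gmu p * gG c' A1 Y p.1 p.2)) := by ring
    rw [e]
    refine (norm_add_le _ _).trans (add_le_add le_rfl ((norm_sub_le _ _).trans
      (add_le_add ?_ le_rfl)))
    rw [norm_mul]
    calc _ ≤ 1 * ‖gG c A Y p.1 p.2 - gG c' A1 Y p.1 p.2‖ := by
          gcongr
          exact gmu_norm p
      _ ≤ _ := by
          rw [one_mul]
          exact gr_E3 c hc A (by omega) Y hY p.1 p.2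
  have h2 := gr_sum_B2 (3456 / Real.sqrt A) c (by positivity) hc A (by omega) Y hY
  have hfin : ‖((JJ c A Y / gpf A : ℝ) : ℂ) - ((JJ c' A1 Y / gpf A1 : ℝ) : ℂ)‖ₑ ≤
      ENNReal.ofReal (C + 480 * 7 ^ 7 * (1 + 2 * c) * Y) +
      (ENNReal.ofReal (4 * (3456 / Real.sqrt A) * (1 + 2 * c * Real.sqrt A) * Y) +
      ENNReal.ofReal (C' + 480 * 7 ^ 7 * (1 + 2 * c') * Y)) := by
    rw [← hs.tsum_eq]
    refine enorm_tsum_le_tsum_enorm.trans ((ENNReal.tsum_le_tsum hpt).trans ?_)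
    rw [ENNReal.tsum_add, ENNReal.tsum_add]
    exact add_le_add (hb Y hY) (add_le_add h2 (hb' Y hY))
  rw [← ENNReal.ofReal_add (by positivity) (by positivity),
    ← ENNReal.ofReal_add (by positivity) (by positivity), ← Complex.ofReal_sub,
    ← ofReal_norm, ENNReal.ofReal_le_ofReal_iff (by positivity), Complex.norm_real,
    Real.norm_eq_abs] at hfin
  refine hfin.trans ?_
  have e1 : 4 * (3456 / Real.sqrt A) * (1 + 2 * c * Real.sqrt A) * Y ≤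
      13824 * (1 + 2 * c) * Y := by
    have e : 4 * (3456 / Real.sqrt A) * (1 + 2 * c * Real.sqrt A) =
      13824 * (1 / Real.sqrt A + 2 * c) := by field_simp; norm_num
    rw [e]
    have : 1 / Real.sqrt A ≤ 1 := by rw [div_le_one hs0]; exact hs1
    gcongr
  have e2 : 480 * 7 ^ 7 * (1 + 2 * c') * Y ≤ 480 * 7 ^ 7 * (1 + 2 * c) * Y := by gcongr
  have e3 : 0 ≤ (1 + 2 * c) * Y := by positivity
  nlinarith

theorem gram_compare (c : ℝ) (hc : 0 < c) (δ : ℝ) (hδ : 0 < δ) : ∃ A0 : ℕ, ∀ A : ℕ, A0 ≤ A →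
    ∃ A' : ℕ, A ≤ A' ∧ ∃ Y0 : ℝ, ∀ Y : ℝ, Y0 ≤ Y →
    JJ c A Y ≤ 2 * (1 + 2 * Real.pi * c) * JJ (c / (1 + 2 * Real.pi * c)) A' Y + δ * Y := by
  have hpi := Real.pi_pos
  set K : ℝ := 2000 * 7 ^ 7 * (1 + 2 * c) * 10 with hK
  have hK0 : 0 < K := by positivity
  obtain ⟨A0, hA0⟩ := exists_nat_ge ((4 * K / δ) ^ 2)
  refine ⟨max A0 7, fun A hA => ?_⟩
  have hAA0 : A0 ≤ A := (le_max_left _ _).trans hA
  have hA7 : 7 ≤ A := (le_max_right _ _).trans hA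
  have hA7' : (7 : ℝ) ≤ A := by exact_mod_cast hA7
  set r : ℝ := 1 + 2 * Real.pi * c with hr
  have hr1 : 1 ≤ r := by
    have : 0 ≤ 2 * Real.pi * c := by positivity
    linarith
  have hr0 : 0 < r := by linarith
  have hr2 : (1 : ℝ) ≤ r ^ 2 := one_le_pow₀ hr1
  have h1 : (A : ℝ) * r ^ 2 ≤ (⌈(A : ℝ) * r ^ 2⌉₊ : ℝ) := Nat.le_ceil _
  have hle : (A : ℝ) ≤ (⌈(A : ℝ) * r ^ 2⌉₊ : ℝ) := by nlinarith
  refine ⟨⌈(A : ℝ) * r ^ 2⌉₊, by exact_mod_cast hle, ?_⟩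
  obtain ⟨C, hC, hd⟩ := gT_diff c hc A hA7
  have hratio := gpf_ratio c hc A hA7
  rw [← hr] at hd hratio
  set A1 : ℕ := ⌈(A : ℝ) * r ^ 2⌉₊ with hA1
  have hA1n : 1 ≤ A1 := by
    have : (7 : ℝ) ≤ A1 := by linarith
    have : 7 ≤ A1 := by exact_mod_cast this
    omega
  have hp := gpf_pos A (by omega)
  have hp1 := gpf_pos A1 hA1n
  have hp2 := gpf_le_two A (by omega)
  refine ⟨max 1 (2 * gpf A * C / δ), fun Y hY => ?_⟩
  have hY1 : 1 ≤ Y := (le_max_left _ _).trans hY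
  have hY2 : 2 * gpf A * C / δ ≤ Y := (le_max_right _ _).trans hY
  have h2 := (abs_le.mp (hd Y hY1)).2
  have hJ : 0 ≤ JJ (c / r) A1 Y := by
    unfold JJ
    exact setIntegral_nonneg measurableSet_Ioi (fun y _ => by positivity)
  set J := JJ c A Y
  set J1 := JJ (c / r) A1 Y
  have h3 : J ≤ gpf A * (J1 / gpf A1) + gpf A * C + gpf A * (K * Y) := by
    have h4 : J / gpf A ≤ J1 / gpf A1 + C + K * Y := by
      rw [hK]; linarith
    rw [div_le_iff₀ hp] at h4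
    calc J ≤ (J1 / gpf A1 + C + K * Y) * gpf A := h4
      _ = _ := by ring
  have h5 : gpf A * (J1 / gpf A1) ≤ 2 * r * J1 := by
    calc gpf A * (J1 / gpf A1) ≤ (2 * r * gpf A1) * (J1 / gpf A1) := by gcongr
      _ = 2 * r * J1 := by field_simp
  have h6 : gpf A * C ≤ δ / 2 * Y := by
    rw [div_le_iff₀ hδ] at hY2
    linarith
  have h7 : gpf A * (K * Y) ≤ δ / 2 * Y := by
    have hs0 : 0 < Real.sqrt A := Real.sqrt_pos.mpr (by linarith)
    have h8 : 4 * K / δ ≤ Real.sqrt A := by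
      apply Real.le_sqrt_of_sq_le
      refine hA0.trans ?_
      exact_mod_cast hAA0
    have h9 : gpf A * K ≤ δ / 2 := by
      calc gpf A * K ≤ 2 / Real.sqrt A * K := by gcongr
        _ ≤ δ / 2 := by
            rw [div_mul_eq_mul_div, div_le_div_iff₀ hs0 (by norm_num)]
            rw [div_le_iff₀ hδ] at h8
            linarith
    calc gpf A * (K * Y) = (gpf A * K) * Y := by ring
      _ ≤ δ / 2 * Y := by gcongr
  linarith

theorem gram_trivial (c : ℝ) (hc : 0 < c) : ∃ K : ℝ, 0 < K ∧ ∃ A0 : ℕ, ∀ A : ℕ, A0 ≤ A →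
    ∃ Y0 : ℝ, ∀ Y : ℝ, Y0 ≤ Y → JJ c A Y ≤ K * Y := by
  set K1 : ℝ := 480 * 7 ^ 7 * (1 + 2 * c) with hK1
  have hK10 : 0 < K1 := by positivity
  refine ⟨2 * K1 + 512 * (1 + 2 * c) + 1, by positivity, 7, fun A hA => ?_⟩
  have hA7' : (7 : ℝ) ≤ A := by exact_mod_cast hA
  obtain ⟨C, hC, hb⟩ := gT_bound c hc A hA
  have hp := gpf_pos A (by omega)
  have hp2 := gpf_le_two A (by omega)
  refine ⟨max 1 (gpf A * C), fun Y hY => ?_⟩
  have hY1 : 1 ≤ Y := (le_max_left _ _).trans hY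
  have hY2 : gpf A * C ≤ Y := (le_max_right _ _).trans hY
  have hY' : 0 < Y := by linarith
  have hs1 : 1 ≤ Real.sqrt A := Real.one_le_sqrt.mpr (by linarith)
  have hs0 : 0 < Real.sqrt A := by linarith
  have hs := gT_hasSum c A (by omega) Y hY'
  have hpt : ∀ p, ‖gT c A Y p‖ₑ ≤
      ENNReal.ofReal ‖gT c A Y p - gmu p * gG c A Y p.1 p.2‖ +
      ENNReal.ofReal (gB2 64 c A Y p.1 p.2) := by
    intro p
    have hB2 : 0 ≤ gB2 64 c A Y p.1 p.2 := by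
      unfold gB2; positivity
    rw [← ofReal_norm, ← ENNReal.ofReal_add (norm_nonneg _) hB2]
    apply ENNReal.ofReal_le_ofReal
    have e : gT c A Y p = (gT c A Y p - gmu p * gG c A Y p.1 p.2) +
      gmu p * gG c A Y p.1 p.2 := by ring
    conv_lhs => rw [e]
    refine (norm_add_le _ _).trans (add_le_add le_rfl ?_)
    rw [norm_mul]
    calc _ ≤ 1 * ‖gG c A Y p.1 p.2‖ := by
          gcongr
          exact gmu_norm p
      _ ≤ _ := by
          rw [one_mul]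
          exact gr_E4 c hc A (by omega) Y hY1 p.1 p.2
  have h2 := gr_sum_B2 64 c (by norm_num) hc A (by omega) Y hY1
  have hfin : ‖((JJ c A Y / gpf A : ℝ) : ℂ)‖ₑ ≤
      ENNReal.ofReal (C + 480 * 7 ^ 7 * (1 + 2 * c) * Y) +
      ENNReal.ofReal (4 * 64 * (1 + 2 * c * Real.sqrt A) * Y) := by
    rw [← hs.tsum_eq]
    refine enorm_tsum_le_tsum_enorm.trans ((ENNReal.tsum_le_tsum hpt).trans ?_)
    rw [ENNReal.tsum_add]
    exact add_le_add (hb Y hY1) h2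
  rw [← ENNReal.ofReal_add (by positivity) (by positivity),
    ← ofReal_norm, ENNReal.ofReal_le_ofReal_iff (by positivity), Complex.norm_real,
    Real.norm_eq_abs] at hfin
  have h3 := (abs_le.mp hfin).2
  rw [div_le_iff₀ hp] at h3
  have h4 : (4 * 64 * (1 + 2 * c * Real.sqrt A) * Y) * gpf A ≤ 512 * (1 + 2 * c) * Y := by
    calc (4 * 64 * (1 + 2 * c * Real.sqrt A) * Y) * gpf A
        ≤ (4 * 64 * (1 + 2 * c * Real.sqrt A) * Y) * (2 / Real.sqrt A) := by gcongr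
      _ = 512 * (1 / Real.sqrt A + 2 * c) * Y := by field_simp; norm_num
      _ ≤ 512 * (1 + 2 * c) * Y := by
          have : 1 / Real.sqrt A ≤ 1 := by rw [div_le_one hs0]; exact hs1
          gcongr
  have h5 : (K1 * Y) * gpf A ≤ 2 * K1 * Y := by
    have h6 : gpf A ≤ 2 := by
      refine hp2.trans ?_
      rw [div_le_iff₀ hs0]; linarith
    calc (K1 * Y) * gpf A ≤ (K1 * Y) * 2 := by gcongr
      _ = _ := by ring
  calc JJ c A Y ≤ (C + 480 * 7 ^ 7 * (1 + 2 * c) * Y + 4 * 64 * (1 + 2 * c * Real.sqrt A) * Y) *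
        gpf A := h3
    _ = gpf A * C + (K1 * Y) * gpf A + (4 * 64 * (1 + 2 * c * Real.sqrt A) * Y) * gpf A := by
        rw [hK1]; ring
    _ ≤ Y + 2 * K1 * Y + 512 * (1 + 2 * c) * Y := by gcongr
    _ = (2 * K1 + 512 * (1 + 2 * c) + 1) * Y := by ring

end H345
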